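import Pool.Agent.Y903.TX.Siz
import Pool.Agent.Y439.LocK

/-! The number of edges of Turán's construction. -/

set_option autoImplicit false
set_option linter.unusedVariables false
set_option linter.unusedSectionVars false

open Finset
open scoped Classical

namespace Pool.Agent.Y903.TX
open Pool.Agent.Y439.Loc hiding sum_nonneg'

section
variable {V : Type} [Fintype V] {c : V → Fin 3}

theorem fdB_kkk : ∀ k : Fin 3, fdB k k k false false false false false false = false := by decide

theorem Wt_kkk (k : Fin 3) : Wt k k k = 0 := by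
  unfold Wt
  rw [fdB_kkk]
  simp

theorem Wt_vals : ∀ p q : Fin 3, Wt p p q = (if q = p + 1 then 1 else 0) ∧
    Wt p q p = (if q = p + 1 then 1 else 0) ∧ Wt q p p = (if q = p + 1 then 1 else 0) := by
  have h1 : ∀ p q : Fin 3, (fdB p p q false false false false false false = true ↔ q = p + 1) ∧
      (fdB p q p false false false false false false = true ↔ q = p + 1) ∧
      (fdB q p p false false false false false false = true ↔ q = p + 1) := by decide
  intro p q
  obtain ⟨a, b, d⟩ := h1 p q
  unfold Wt
  simp only [a, b, d, and_self]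

theorem two_sum : ∑ x, ∑ z, (if c z = c x + 1 then (1 : ℝ) else 0) =
    sz c 0 * sz c 1 + sz c 1 * sz c 2 + sz c 2 * sz c 0 := by
  have e1 : ∀ x, ∑ z, (if c z = c x + 1 then (1 : ℝ) else 0) = sz c (c x + 1) := by
    intro x
    unfold sz
    refine sum_congr rfl fun z _ => ?_
    by_cases h : c z = c x + 1
    · rw [ind_t h, if_pos h]
    · rw [ind_f h, if_neg h]
  rw [sum_congr rfl fun x _ => e1 x, by_class (fun k => sz c (k + 1))]
  rfl

theorem tu_point (x y z : V) : ind (Tu c x y z) = Wt (c x) (c y) (c z) -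
    ind (x = y) * (if c z = c x + 1 then 1 else 0) -
    ind (y = z) * (if c x = c y + 1 then 1 else 0) -
    ind (x = z) * (if c y = c x + 1 then 1 else 0) := by
  by_cases h1 : x = y
  · subst h1
    by_cases h2 : x = z
    · subst h2
      rw [Wt_kkk, ind_f fun h => h.1 rfl, if_neg (fin3_ne1 _)]
      ring
    · rw [ind_f fun h => h.1 rfl, (Wt_vals (c x) (c z)).1, ind_t rfl, ind_f h2]
      ring
  · by_cases h2 : y = z
    · subst h2
      rw [ind_f fun h => h.2.1 rfl, (Wt_vals (c y) (c x)).2.2, ind_f h1, ind_t rfl]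
      ring
    · by_cases h3 : x = z
      · subst h3
        rw [ind_f fun h => h.2.2.1 rfl, (Wt_vals (c x) (c y)).2.1, ind_f h1, ind_f h2, ind_t rfl]
        ring
      · rw [ind_f h1, ind_f h2, ind_f h3]
        unfold Wt
        by_cases h : fdB (c x) (c y) (c z) false false false false false false = true
        · rw [if_pos h, ind_t ⟨h1, h2, h3, h⟩]; ring
        · rw [if_neg h, ind_f fun h' => h h'.2.2.2]; ring

theorem tot_tu : tot (Tu c) = 6 * (sz c 0 * sz c 1 * sz c 2) +
    3 * (sz c 0 ^ 2 * sz c 1 + sz c 1 ^ 2 * sz c 2 + sz c 2 ^ 2 * sz c 0) -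
    3 * (sz c 0 * sz c 1 + sz c 1 * sz c 2 + sz c 2 * sz c 0) := by
  unfold tot
  rw [sum_congr rfl fun x _ => sum_congr rfl fun y _ => sum_congr rfl fun z _ => tu_point x y z]
  simp only [sum_sub_distrib]
  have h1 : ∑ x : V, ∑ y : V, ∑ z : V, ind (x = y) * (if c z = c x + 1 then (1 : ℝ) else 0) =
      ∑ x, ∑ z, (if c z = c x + 1 then (1 : ℝ) else 0) := by
    refine sum_congr rfl fun x _ => ?_
    rw [sum_comm]
    refine sum_congr rfl fun z _ => ?_
    rw [← sum_mul, sum_ind_eq', one_mul]
  have h2 : ∑ x : V, ∑ y : V, ∑ z : V, ind (y = z) * (if c x = c y + 1 then (1 : ℝ) else 0) =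
      ∑ x, ∑ z, (if c z = c x + 1 then (1 : ℝ) else 0) := by
    rw [sum_comm]
    refine sum_congr rfl fun y _ => sum_congr rfl fun x _ => ?_
    rw [← sum_mul, sum_ind_eq', one_mul]
  have h3 : ∑ x : V, ∑ y : V, ∑ z : V, ind (x = z) * (if c y = c x + 1 then (1 : ℝ) else 0) =
      ∑ x, ∑ z, (if c z = c x + 1 then (1 : ℝ) else 0) := by
    refine sum_congr rfl fun x _ => sum_congr rfl fun y _ => ?_
    rw [← sum_mul, sum_ind_eq', one_mul]
  rw [h1, h2, h3, two_sum, sum_Wt]
  ring

end

/-- three intervals -/
def cut (n a b : ℕ) (x : Fin n) : Fin 3 := if x.val < a then 0 else if x.val < a + b then 1 else 2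

theorem cut_card {n a b d : ℕ} (h : a + b + d = n) :
    sz (cut n a b) 0 = a ∧ sz (cut n a b) 1 = b ∧ sz (cut n a b) 2 = d := by
  have e0 : (univ.filter fun x => cut n a b x = 0) = univ.filter fun x : Fin n => x.val < a := by
    refine filter_congr fun x _ => ?_
    unfold cut
    by_cases h1 : x.val < a
    · simp [h1]
    · by_cases h2 : x.val < a + b <;> simp [h1, h2]
  have e2 : (univ.filter fun x => ¬ (cut n a b x = 2)) =
      univ.filter fun x : Fin n => x.val < a + b := by
    refine filter_congr fun x _ => ?_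
    unfold cut
    by_cases h1 : x.val < a
    · have : x.val < a + b := by omega
      simp [h1, this]
    · by_cases h2 : x.val < a + b <;> simp [h1, h2]
  have c0 : (univ.filter fun x => cut n a b x = 0).card = a := by
    rw [e0, Fin.card_filter_val_lt]
    omega
  have c2' : (univ.filter fun x => ¬ (cut n a b x = 2)).card = a + b := by
    rw [e2, Fin.card_filter_val_lt]
    omega
  have c2 : (univ.filter fun x => cut n a b x = 2).card = d := by
    have := card_filter_add_card_filter_not (s := (univ : Finset (Fin n)))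
      (fun x => cut n a b x = 2)
    rw [c2', card_univ, Fintype.card_fin] at this
    omega
  have s0 : sz (cut n a b) 0 = a := by
    unfold sz
    rw [ind_sum_card, c0]
  have s2 : sz (cut n a b) 2 = d := by
    unfold sz
    rw [ind_sum_card, c2]
  have hs := cardV' (c := cut n a b)
  have hn : ∑ _x : Fin n, (1 : ℝ) = (n : ℝ) := by simp
  rw [hn, s0, s2] at hs
  have h' : (a : ℝ) + b + d = n := by exact_mod_cast h
  exact ⟨s0, by linarith, s2⟩

theorem tgraph_card (n : ℕ) : ∃ g : Fin n → Fin 3, (tgraph g).card = tnum n := by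
  refine ⟨cut n (n / 3) ((n + 1) / 3), ?_⟩
  obtain ⟨s0, s1, s2⟩ := cut_card (n := n) (a := n / 3) (b := (n + 1) / 3) (d := (n + 2) / 3)
    (by omega)
  have ht : tot (Tu (cut n (n / 3) ((n + 1) / 3))) =
      6 * ((tgraph (cut n (n / 3) ((n + 1) / 3))).card : ℝ) := by
    rw [← total_count _ (fun e he => by
      unfold tgraph at he; exact (mem_filter.mp he).2.1)]
    unfold tot
    exact sum_congr rfl fun x _ => sum_congr rfl fun y _ => sum_congr rfl fun z _ =>
      ind_congr (rel_tgraph _ x y z).symm
  rw [tot_tu, s0, s1, s2] at ht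
  have h2 : (((tgraph (cut n (n / 3) ((n + 1) / 3))).card : ℕ) : ℝ) = (tnum n : ℝ) := by
    unfold tnum
    push_cast [Nat.cast_choose_two]
    linarith
  exact_mod_cast h2

end Pool.Agent.Y903.TX
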