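import Pool.Agent.Y903.TX.Siz
import Pool.Agent.TH773.CM.Fin

/-! From families of sets to relations; stability. -/

set_option autoImplicit false
set_option linter.unusedVariables false
set_option linter.unusedSectionVars false
set_option maxRecDepth 100000

open Finset
open scoped Classical

namespace Pool.Agent.Y903.TX
open Pool.Agent.Y439.Loc hiding sum_nonneg'
open Pool.Agent.TH773
open Pool.Agent.H122R2.N6 (tri)
open Pool.Agent.TH773.CM (spn cqS cpS)
open Pool.Agent.Y439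

theorem spn5 {V : Type} (E : V → V → V → ℕ) (x : Fin 5 → V) : spn E 5 x =
    E (x 0) (x 1) (x 2) + E (x 0) (x 1) (x 3) + E (x 0) (x 1) (x 4) + E (x 0) (x 2) (x 3) +
    E (x 0) (x 2) (x 4) + E (x 0) (x 3) (x 4) + E (x 1) (x 2) (x 3) + E (x 1) (x 2) (x 4) +
    E (x 1) (x 3) (x 4) + E (x 2) (x 3) (x 4) := by
  unfold spn Pool.Agent.TH773.CM.sumT
  simp [Pool.Agent.H122R2.N6.nsum_eq, Finset.sum_range_succ]
  ring

theorem spn6 {V : Type} (E : V → V → V → ℕ) (x : Fin 6 → V) : spn E 6 x =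
    E (x 0) (x 1) (x 2) + E (x 0) (x 1) (x 3) + E (x 0) (x 1) (x 4) + E (x 0) (x 1) (x 5) +
    E (x 0) (x 2) (x 3) + E (x 0) (x 2) (x 4) + E (x 0) (x 2) (x 5) + E (x 0) (x 3) (x 4) +
    E (x 0) (x 3) (x 5) + E (x 0) (x 4) (x 5) + E (x 1) (x 2) (x 3) + E (x 1) (x 2) (x 4) +
    E (x 1) (x 2) (x 5) + E (x 1) (x 3) (x 4) + E (x 1) (x 3) (x 5) + E (x 1) (x 4) (x 5) +
    E (x 2) (x 3) (x 4) + E (x 2) (x 3) (x 5) + E (x 2) (x 4) (x 5) + E (x 3) (x 4) (x 5) := by
  unfold spn Pool.Agent.TH773.CM.sumT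
  simp [Pool.Agent.H122R2.N6.nsum_eq, Finset.sum_range_succ]
  ring

variable {n : ℕ} {H : Finset (Finset (Fin n))}

theorem cn_tri {x y z : Fin n} (h1 : x ≠ y) (h2 : y ≠ z) (h3 : x ≠ z) :
    cn (Loc.Rel H) x y z = tri H x y z := by
  unfold cn tri Loc.Rel
  have hd : (fun a b : Fin n => Classical.propDecidable (a = b)) = instDecidableEqFin n :=
    Subsingleton.elim _ _
  by_cases h : ({x, y, z} : Finset (Fin n)) ∈ H
  · rw [if_pos ⟨h1, h2, h3, h⟩]
    exact (if_pos (by rw [hd]; exact h)).symm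
  · rw [if_neg fun h' => h h'.2.2.2]
    exact (if_neg (by rw [hd]; exact h)).symm

theorem bd5_mem {a b d e f : Fin n} (h : Bd5 (Loc.Rel H) a b d e f) :
    (![a, b, d, e, f] : Fin 5 → Fin n) ∈ cqS (tri H) 5 4 := by
  obtain ⟨h1, h2⟩ := h
  rw [Pool.Agent.TH773.CM.mem_cqS]
  have h1' := h1
  simp only [List.nodup_cons, List.mem_cons, List.not_mem_nil, or_false, not_or,
      not_false_eq_true, List.nodup_nil, and_true] at h1'
  obtain ⟨⟨ab, ad, ae, af⟩, ⟨bd, be, bf⟩, ⟨de, df⟩, ef⟩ := h1'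
  refine ⟨?_, ?_⟩
  · rw [← List.nodup_ofFn]
    exact h1
  · rw [spn5]
    show tri H a b d + tri H a b e + tri H a b f + tri H a d e + tri H a d f + tri H a e f +
      tri H b d e + tri H b d f + tri H b e f + tri H d e f = 4
    rw [← h2]
    unfold c5
    rw [cn_tri ab bd ad, cn_tri ab be ae, cn_tri ab bf af, cn_tri ad de ae, cn_tri ad df af,
      cn_tri ae ef af, cn_tri bd de be, cn_tri bd df bf, cn_tri be ef bf, cn_tri de ef df]

theorem bd6_mem {a b d e f g : Fin n} (h : Bd6 (Loc.Rel H) a b d e f g) :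
    (![a, b, d, e, f, g] : Fin 6 → Fin n) ∈ cqS (tri H) 6 6 := by
  obtain ⟨h1, h2⟩ := h
  rw [Pool.Agent.TH773.CM.mem_cqS]
  have h1' := h1
  simp only [List.nodup_cons, List.mem_cons, List.not_mem_nil, or_false, not_or,
      not_false_eq_true, List.nodup_nil, and_true] at h1'
  obtain ⟨⟨ab, ad, ae, af, ag⟩, ⟨bd, be, bf, bg⟩, ⟨de, df, dg⟩, ⟨ef, eg⟩, fg⟩ := h1'
  refine ⟨?_, ?_⟩
  · rw [← List.nodup_ofFn]
    exact h1
  · rw [spn6]
    show tri H a b d + tri H a b e + tri H a b f + tri H a b g + tri H a d e + tri H a d f +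
      tri H a d g + tri H a e f + tri H a e g + tri H a f g + tri H b d e + tri H b d f +
      tri H b d g + tri H b e f + tri H b e g + tri H b f g + tri H d e f + tri H d e g +
      tri H d f g + tri H e f g = 6
    rw [← h2]
    unfold c6
    rw [cn_tri ab bd ad, cn_tri ab be ae, cn_tri ab bf af, cn_tri ab bg ag, cn_tri ad de ae,
      cn_tri ad df af, cn_tri ad dg ag, cn_tri ae ef af, cn_tri ae eg ag, cn_tri af fg ag,
      cn_tri bd de be, cn_tri bd df bf, cn_tri bd dg bg, cn_tri be ef bf, cn_tri be eg bg,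
      cn_tri bf fg bg, cn_tri de ef df, cn_tri de eg dg, cn_tri df fg dg, cn_tri ef fg eg]

theorem N5_le (hH : ∀ e ∈ H, e.card = 3) :
    N5 (Loc.Rel H) ≤ 3125 * (Turan34.spans H 5 4 : ℝ) := by
  have h1 : N5 (Loc.Rel H) = ((univ.filter fun p : Fin n × Fin n × Fin n × Fin n × Fin n =>
      Bd5 (Loc.Rel H) p.1 p.2.1 p.2.2.1 p.2.2.2.1 p.2.2.2.2).card : ℝ) := by
    rw [← ind_sum_card]
    unfold N5
    simp only [Fintype.sum_prod_type]
  have h2 : (univ.filter fun p : Fin n × Fin n × Fin n × Fin n × Fin n =>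
      Bd5 (Loc.Rel H) p.1 p.2.1 p.2.2.1 p.2.2.2.1 p.2.2.2.2).card ≤ (cqS (tri H) 5 4).card := by
    refine card_le_card_of_injOn (fun p => ![p.1, p.2.1, p.2.2.1, p.2.2.2.1, p.2.2.2.2]) ?_ ?_
    · intro p hp
      rw [mem_coe, mem_filter] at hp
      exact bd5_mem hp.2
    · intro p _ q _ h
      have e0 := congrFun h 0
      have e1 := congrFun h 1
      have e2 := congrFun h 2
      have e3 := congrFun h 3
      have e4 := congrFun h 4
      exact Prod.ext e0 (Prod.ext e1 (Prod.ext e2 (Prod.ext e3 e4)))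
  have h3 := Pool.Agent.TH773.CM.cqS_le (k := 5) (Or.inl rfl) hH 4
  rw [h1]
  have h4 := h2.trans h3
  norm_num at h4
  exact_mod_cast h4

theorem N6_le (hH : ∀ e ∈ H, e.card = 3) :
    N6 (Loc.Rel H) ≤ 46656 * (Turan34.spans H 6 6 : ℝ) := by
  have h1 : N6 (Loc.Rel H) = ((univ.filter fun p : Fin n × Fin n × Fin n × Fin n × Fin n × Fin n =>
      Bd6 (Loc.Rel H) p.1 p.2.1 p.2.2.1 p.2.2.2.1 p.2.2.2.2.1 p.2.2.2.2.2).card : ℝ) := by
    rw [← ind_sum_card]
    unfold N6
    simp only [Fintype.sum_prod_type]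
  have h2 : (univ.filter fun p : Fin n × Fin n × Fin n × Fin n × Fin n × Fin n =>
      Bd6 (Loc.Rel H) p.1 p.2.1 p.2.2.1 p.2.2.2.1 p.2.2.2.2.1 p.2.2.2.2.2).card ≤
      (cqS (tri H) 6 6).card := by
    refine card_le_card_of_injOn
      (fun p => ![p.1, p.2.1, p.2.2.1, p.2.2.2.1, p.2.2.2.2.1, p.2.2.2.2.2]) ?_ ?_
    · intro p hp
      rw [mem_coe, mem_filter] at hp
      exact bd6_mem hp.2
    · intro p _ q _ h
      have e0 := congrFun h 0
      have e1 := congrFun h 1
      have e2 := congrFun h 2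
      have e3 := congrFun h 3
      have e4 := congrFun h 4
      have e5 := congrFun h 5
      exact Prod.ext e0 (Prod.ext e1 (Prod.ext e2 (Prod.ext e3 (Prod.ext e4 e5))))
  have h3 := Pool.Agent.TH773.CM.cqS_le (k := 6) (Or.inr (Or.inl rfl)) hH 6
  rw [h1]
  have h4 := h2.trans h3
  norm_num at h4
  exact_mod_cast h4

theorem turan_tgraph (g : Fin n → Fin 3) : Turan34.turan g = tgraph g := by
  ext e
  unfold Turan34.turan tgraph
  simp only [mem_filter, mem_powersetCard, subset_univ, true_and, mem_univ]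

/-- the assumptions on the links from the distance -/
theorem near_of {δ : ℝ} (hH : ∀ e ∈ H, e.card = 3) (hK : Turan34.K43Free H)
    (g : Fin n → Fin 3) (hn : 0 < n) (hδ0 : 0 < δ) (hδ : δ ≤ eps0 / 6)
    (h1 : ((symmDiff H (Turan34.turan g)).card : ℝ) ≤ δ ^ 2 * (n : ℝ) ^ 3)
    (h2 : (5 / 54 - δ ^ 2) * (n : ℝ) ^ 3 ≤ (H.card : ℝ)) : Near g (Loc.Rel H) (n : ℝ) eps0 := by
  have hn0 : (0 : ℝ) < n := by exact_mod_cast hn
  have hsum : ∑ _x : Fin n, (1 : ℝ) = (n : ℝ) := by simp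
  rw [turan_tgraph] at h1
  have hD3 : ∀ e ∈ symmDiff H (tgraph g), e.card = 3 := by
    intro e he
    rw [mem_symmDiff] at he
    rcases he with he | he
    · exact hH e he.1
    · have := he.1
      unfold tgraph at this
      exact (mem_filter.mp this).2.1
  have hWD : WD g (Loc.Rel H) = 6 * ((symmDiff H (tgraph g)).card : ℝ) := by
    rw [WD_wr]
    have e1 : ∀ v, wr g (Loc.Rel H) v = ∑ y, ∑ z, ind (Loc.Rel (symmDiff H (tgraph g)) v y z) := by
      intro v
      rw [wr_count g H hH v, vertex_count _ hD3 v]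
    rw [sum_congr rfl fun v _ => e1 v]
    exact total_count _ hD3
  have he0 := eps0_pos
  have hδ2 : 6 * δ ^ 2 ≤ eps0 := by
    have : δ ^ 2 ≤ δ := by
      have : δ ≤ 1 := by
        have := eps_small
        have : eps0 ≤ 1 := this.trans (by norm_num)
        linarith
      nlinarith
    linarith
  refine ⟨rel_sys g H hK, hsum, hn0, he0, ?_, fun k => ?_⟩
  · rw [hWD]
    have : 6 * (δ ^ 2 * (n : ℝ) ^ 3) ≤ eps0 * (n : ℝ) ^ 3 := by
      rw [← mul_assoc]
      exact mul_le_mul_of_nonneg_right hδ2 (by positivity)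
    linarith
  · have ht : tot (Tu g) = 6 * ((tgraph g).card : ℝ) := by
      rw [← total_count (tgraph g) (fun e he => by
        unfold tgraph at he; exact (mem_filter.mp he).2.1)]
      unfold tot
      exact sum_congr rfl fun x _ => sum_congr rfl fun y _ => sum_congr rfl fun z _ =>
        ind_congr (rel_tgraph g x y z).symm
    have h3 : (H.card : ℝ) ≤ ((tgraph g).card : ℝ) + ((symmDiff H (tgraph g)).card : ℝ) := by
      have : H.card ≤ (tgraph g).card + (symmDiff H (tgraph g)).card := by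
        have hsub : H ⊆ tgraph g ∪ symmDiff H (tgraph g) := by
          intro e he
          rw [mem_union, mem_symmDiff]
          by_cases h : e ∈ tgraph g
          · exact Or.inl h
          · exact Or.inr (Or.inl ⟨he, h⟩)
        exact (card_le_card hsub).trans (card_union_le _ _)
      exact_mod_cast this
    have h4 := sizes (c := g) hsum hn0 hδ0.le (by
      rw [ht]
      nlinarith) k
    have h5 : 6 * δ ≤ eps0 := by linarith
    have h6 : 6 * δ * n ≤ eps0 * n := mul_le_mul_of_nonneg_right h5 hn0.le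
    nlinarith

end Pool.Agent.Y903.TX
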