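import Pool.Agent.Y903.TX.Pair

/-! 3-graphs with large minimum degree near Turán's construction: the exact bound. -/

set_option autoImplicit false
set_option linter.unusedVariables false
set_option linter.unusedSectionVars false

open Finset
open scoped Classical

namespace Pool.Agent.Y903.TX
open Pool.Agent.Y439.Loc hiding sum_nonneg'

variable {V : Type} [Fintype V] {c : V → Fin 3} {H : V → V → V → Prop} {n σ : ℝ}

theorem B5_le (v : V) : B5 H v ≤ N5 H :=
  single_le_sum (f := fun v => B5 H v) (fun v _ => sum_nonneg' fun _ => sum_nonneg' fun _ =>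
    sum_nonneg' fun _ => sum_nonneg' fun _ => ind_nonneg _) (mem_univ v)

theorem Q5_le (x y : V) : ∑ z, ∑ w, ∑ w', ind (Bd5 H x y z w w') ≤ N5 H := by
  have h1 : ∑ z, ∑ w, ∑ w', ind (Bd5 H x y z w w') ≤ B5 H x :=
    single_le_sum (f := fun y => ∑ z, ∑ w, ∑ w', ind (Bd5 H x y z w w'))
      (fun v _ => sum_nonneg' fun _ => sum_nonneg' fun _ => sum_nonneg' fun _ => ind_nonneg _)
      (mem_univ y)
  exact h1.trans (B5_le x)

theorem B6_eq (v : V) : B6 H v = ∑ b, ∑ d, ∑ e, ∑ f, ∑ g, ind (Bd6 H v b d e f g) := by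
  unfold B6
  rw [sum_comm]
  refine sum_congr rfl fun b _ => ?_
  rw [sum_comm]
  refine sum_congr rfl fun d _ => ?_
  rw [sum_comm]
  refine sum_congr rfl fun e _ => ?_
  rw [sum_comm]

theorem B6_le (v : V) : B6 H v ≤ N6 H := by
  rw [B6_eq]
  exact single_le_sum (f := fun v => ∑ b, ∑ d, ∑ e, ∑ f, ∑ g, ind (Bd6 H v b d e f g))
    (fun v _ => sum_nonneg' fun _ => sum_nonneg' fun _ =>
      sum_nonneg' fun _ => sum_nonneg' fun _ => sum_nonneg' fun _ => ind_nonneg _) (mem_univ v)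

theorem Q6_le (x y : V) : ∑ z, ∑ z', ∑ w, ∑ w', ind (Bd6 H x y z z' w w') ≤ N6 H := by
  have h1 : ∑ z, ∑ z', ∑ w, ∑ w', ind (Bd6 H x y z z' w w') ≤
      ∑ b, ∑ d, ∑ e, ∑ f, ∑ g, ind (Bd6 H x b d e f g) :=
    single_le_sum (f := fun y => ∑ z, ∑ z', ∑ w, ∑ w', ind (Bd6 H x y z z' w w'))
      (fun v _ => sum_nonneg' fun _ => sum_nonneg' fun _ => sum_nonneg' fun _ =>
        sum_nonneg' fun _ => ind_nonneg _) (mem_univ y)
  rw [← B6_eq] at h1
  exact h1.trans (B6_le x)

/-- the parameters -/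
noncomputable def eps0 : ℝ := 1 / 10 ^ 600
noncomputable def tau0 : ℝ := 1 / 10 ^ 23
noncomputable def sig0 : ℝ := 1 / 10 ^ 10

theorem eps0_pos : 0 < eps0 := by unfold eps0; positivity
theorem sig0_pos : 0 < sig0 := by unfold sig0; positivity
theorem tau0_pos : 0 < tau0 := by unfold tau0; positivity
theorem eps_tau : 10 ^ 40 * eps0 ≤ tau0 ^ 24 := by
  unfold eps0 tau0
  rw [one_div, one_div, inv_pow, ← pow_mul, ← div_eq_mul_inv, div_le_iff₀ (by positivity)]
  rw [show (10 : ℝ) ^ 600 = 10 ^ (23 * 24) * 10 ^ 48 by rw [← pow_add]]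
  rw [← mul_assoc, inv_mul_cancel₀ (by positivity), one_mul]
  exact pow_le_pow_right₀ (by norm_num) (by norm_num)

theorem eps_small : eps0 ≤ 1 / 10 ^ 30 := by
  unfold eps0
  exact one_div_le_one_div_of_le (by positivity) (pow_le_pow_right₀ (by norm_num) (by norm_num))

/-- the new classes, order five -/
theorem vx54 (A : Near c H n eps0) (h1n : 1 ≤ eps0 * n)
    (hdeg : ∀ v, (5 / 9 - eps0) * n ^ 2 ≤ deg H v) (hN : N5 H ≤ sig0 * n ^ 3) :
    ∃ c', Vx c' H n sig0 := by
  have he := eps_small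
  have hp := A.pos
  have hB : ∀ v, B5 H v ≤ eps0 * n ^ 4 := by
    intro v
    have h1 := B5_le (H := H) v
    have h2 : sig0 ≤ 1 := by unfold sig0; norm_num
    have h3 : n ^ 3 ≤ eps0 * n ^ 4 := by
      have := mul_le_mul_of_nonneg_right h1n (show (0 : ℝ) ≤ n ^ 3 by positivity)
      calc n ^ 3 = 1 * n ^ 3 := by ring
        _ ≤ eps0 * n * n ^ 3 := this
        _ = eps0 * n ^ 4 := by ring
    have h4 : sig0 * n ^ 3 ≤ 1 * n ^ 3 := mul_le_mul_of_nonneg_right h2 (by positivity)
    linarith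
  refine exists_vx A (he.trans (by norm_num)) h1n sig0_pos (by unfold sig0; norm_num)
    (τ := tau0) ?_ tau0_pos fun v => link54 A tau0_pos (by unfold tau0; norm_num) eps_tau h1n v
      (hdeg v) (hB v)
  unfold tau0 sig0
  norm_num at he ⊢
  linarith

/-- the new classes, order six -/
theorem vx66 (A : Near c H n eps0) (h1n : 1 ≤ eps0 * n)
    (hdeg : ∀ v, (5 / 9 - eps0) * n ^ 2 ≤ deg H v) (hN : N6 H ≤ sig0 * n ^ 4) :
    ∃ c', Vx c' H n sig0 := by
  have he := eps_small
  have hp := A.pos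
  have hB : ∀ v, B6 H v ≤ eps0 * n ^ 5 := by
    intro v
    have h1 := B6_le (H := H) v
    have h2 : sig0 ≤ 1 := by unfold sig0; norm_num
    have h3 : n ^ 4 ≤ eps0 * n ^ 5 := by
      have := mul_le_mul_of_nonneg_right h1n (show (0 : ℝ) ≤ n ^ 4 by positivity)
      calc n ^ 4 = 1 * n ^ 4 := by ring
        _ ≤ eps0 * n * n ^ 4 := this
        _ = eps0 * n ^ 5 := by ring
    have h4 : sig0 * n ^ 4 ≤ 1 * n ^ 4 := mul_le_mul_of_nonneg_right h2 (by positivity)
    linarith
  refine exists_vx A (he.trans (by norm_num)) h1n sig0_pos (by unfold sig0; norm_num)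
    (τ := tau0) ?_ tau0_pos fun v => link66 A tau0_pos (by unfold tau0; norm_num) eps_tau h1n v
      (hdeg v) (hB v)
  unfold tau0 sig0
  norm_num at he ⊢
  linarith

theorem near_apply (A : Vx c H n sig0) (q r : ℕ) (hq : n = 3 * q + r) (hr : r ≤ 2)
    (hI : ∀ x y, io c H x y ≤ n / 3000) :
    tot H ≤ TT q r ∧ (tot H = TT q r → ∃ rev : V → V → Bool, ∀ x y z, H x y z ↔ FD c rev x y z) := by
  have hp := A.pos
  have hq' : (q : ℝ) ≤ n / 3 := by
    have : (0 : ℝ) ≤ r := Nat.cast_nonneg r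
    linarith
  refine near2 A.S (M := n / 3) q r (by rw [A.hn, hq]) hr (by rw [hq]; ring) (fun k => ?_)
    (fun v => ?_) (fun x y => ?_)
  · have h1 := A.lo k
    have h2 : sig0 * n ≤ 1 / 3000 * n :=
      mul_le_mul_of_nonneg_right (by unfold sig0; norm_num) hp.le
    linarith
  · have h1 := A.hw v
    have h2 : sig0 ^ 2 * n ^ 2 ≤ 1 / (9 * 10 ^ 6) * n ^ 2 :=
      mul_le_mul_of_nonneg_right (by unfold sig0; norm_num) (by positivity)
    have e : (n / 3) ^ 2 = n ^ 2 / 9 := by ring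
    rw [e]
    linarith
  · have := hI x y
    linarith

theorem io_self (S : Sys c H) (x : V) : io c H x x = 0 :=
  sum_eq_zero fun z _ => ind_f fun h => S.ne _ _ _ h.2 rfl

/-- exact bound, order five -/
theorem core54 (A : Vx c H n sig0) (hN : N5 H ≤ sig0 * n ^ 3) (q r : ℕ) (hq : n = 3 * q + r)
    (hr : r ≤ 2) : tot H ≤ TT q r ∧
      (tot H = TT q r → ∃ rev : V → V → Bool, ∀ x y z, H x y z ↔ FD c rev x y z) := by
  have hp := A.pos
  refine near_apply A q r hq hr fun x y => ?_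
  by_cases hxy : x = y
  · rw [← hxy, io_self A.S]; positivity
  have h1 := pair54 A sig0_pos (by unfold sig0; norm_num) x y hxy
  have h2 := Q5_le (H := H) x y
  have h3 : io c H x y * (n / 4) ^ 2 ≤ (sig0 + (8 * sig0 ^ 2 + 4 * sig0)) * n ^ 3 := by linarith
  have h4 : (sig0 + (8 * sig0 ^ 2 + 4 * sig0)) * n ^ 3 ≤ n / 3000 * (n / 4) ^ 2 := by
    have : (sig0 + (8 * sig0 ^ 2 + 4 * sig0)) ≤ 1 / 48000 := by unfold sig0; norm_num
    calc (sig0 + (8 * sig0 ^ 2 + 4 * sig0)) * n ^ 3 ≤ 1 / 48000 * n ^ 3 :=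
        mul_le_mul_of_nonneg_right this (by positivity)
      _ = n / 3000 * (n / 4) ^ 2 := by ring
  exact le_of_mul_le_mul_right (h3.trans h4) (by positivity)

/-- inner codegrees, order six -/
theorem io66 (A : Vx c H n sig0) (hN : N6 H ≤ sig0 * n ^ 4) (x y : V) :
    io c H x y ≤ n / 3000 := by
  have hp := A.pos
  by_cases hxy : x = y
  · rw [← hxy, io_self A.S]; positivity
  have h1 := pair66 A sig0_pos (by unfold sig0; norm_num) x y hxy
  have h2 := Q6_le (H := H) x y
  by_contra hcon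
  push Not at hcon
  have h3 : (n / 3000 * (n / 4)) ^ 2 < (io c H x y * (n / 4)) ^ 2 :=
    pow_lt_pow_left₀ (mul_lt_mul_of_pos_right hcon (by positivity)) (by positivity) (by norm_num)
  have h4 : (n / 3000 * (n / 4)) ^ 2 = 1 / 144000000 * n ^ 4 := by ring
  have h5 : (sig0 + (18 * sig0 ^ 2 + 4 * sig0)) * n ^ 4 ≤ 1 / 144000000 * n ^ 4 :=
    mul_le_mul_of_nonneg_right (by unfold sig0; norm_num) (by positivity)
  linarith

theorem nu66 (A : Vx c H n sig0) (hN : N6 H ≤ sig0 * n ^ 4) (x y : V) (hcy : c y = c x + 1) :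
    nu c H x y ≤ n / 10 := by
  have hp := A.pos
  have h1 := cross66 A x y hcy
  have h2 := Q6_le (H := H) x y
  by_contra hcon
  push Not at hcon
  have h3 : (n / 10) ^ 4 < nu c H x y ^ 4 := pow_lt_pow_left₀ hcon (by positivity) (by norm_num)
  have h4 : (n / 10) ^ 4 = 1 / 10000 * n ^ 4 := by ring
  have h5 : (sig0 + 22 * sig0 ^ 2) * n ^ 4 ≤ 1 / 10000 * n ^ 4 :=
    mul_le_mul_of_nonneg_right (by unfold sig0; norm_num) (by positivity)
  linarith

theorem fd_rev1 : ∀ (k : Fin 3) (r1 r2 r3 r4 r5 : Bool),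
    fdB k (k + 1) (k + 2) true r1 r2 r3 r4 r5 = true → r3 = true := by decide
theorem fd_rev2 : ∀ (k : Fin 3) (r1 r2 r3 r4 r5 : Bool),
    fdB k (k + 1) (k + 1) true r1 r2 r3 r4 r5 = true := by decide

/-- reversed arcs at the first vertex -/
theorem revA (A : Vx c H n sig0) {rev : V → V → Bool} (hF : ∀ x y z, H x y z ↔ FD c rev x y z)
    (z x : V) (h1 : c x = c z + 1) (h2 : rev z x = true) (a : V) (ha : c a = c x) (hax : a ≠ x) :
    Df c H z x a := by
  have hzx : z ≠ x := fun e => fin3_ne1 (c z) (by rw [← h1, e])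
  have hza : z ≠ a := fun e => fin3_ne1 (c z) (by rw [← h1, ← ha, e])
  have h3 : H z x a := by
    rw [hF]
    refine ⟨hzx, hax.symm, hza, ?_⟩
    rw [ha, h1, h2]
    exact fd_rev2 _ _ _ _ _ _
  intro h4
  exact tu_not h1 (by rw [ha, h1]) (h4.1 h3)

/-- no reversed arcs when there are few sets with six edges -/
theorem unique66 (A : Vx c H n sig0) (hN : N6 H ≤ sig0 * n ^ 4) {rev : V → V → Bool}
    (hF : ∀ x y z, H x y z ↔ FD c rev x y z) (x y z : V) : H x y z ↔ Tu c x y z := by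
  have hp := A.pos
  -- few vertices `w` with a reversed arc to `x`
  have h1 : ∀ x : V, ∑ w, ind (c x = c w + 1 ∧ rev w x = true) ≤ n / 100 := by
    intro x
    have h2 : (∑ w, ind (c x = c w + 1 ∧ rev w x = true)) * (sz c (c x) - 1) ≤ wr c H x := by
      rw [sum_mul]
      unfold wr
      refine sum_le_sum fun w _ => ?_
      by_cases h : c x = c w + 1 ∧ rev w x = true
      · rw [ind_t h, one_mul]
        have h3 : sz c (c x) ≤ ∑ a, (ind (¬ (H x w a ↔ Tu c x w a)) + ind (a = x)) := by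
          refine sum_le_sum fun a _ => ind_or fun ha => ?_
          by_cases hax : a = x
          · right; exact hax
          · left
            have h4 := revA A hF w x h.1 h.2 a ha hax
            intro h5
            apply h4
            constructor
            · intro h6
              exact FD_s1 (h5.1 (A.S.s1 _ _ _ h6))
            · intro h6
              exact A.S.s1 _ _ _ (h5.2 (FD_s1 h6))
        rw [sum_add_distrib, sum_ind_eq] at h3
        linarith
      · rw [ind_f h, zero_mul]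
        exact sum_nonneg' fun _ => ind_nonneg _
    have h3 := A.hw x
    have h4 := A.lo (c x)
    have h5 := A.big
    have hs1 : sig0 ^ 2 ≤ 1 / 100000 := by unfold sig0; norm_num
    have hs2 : sig0 ≤ 1 / 100 := by unfold sig0; norm_num
    have h6 : 1 ≤ 1 / 100000 * n := h5.trans (mul_le_mul_of_nonneg_right hs1 hp.le)
    have h7 : sig0 * n ≤ 1 / 100 * n := mul_le_mul_of_nonneg_right hs2 hp.le
    have h8 : n / 4 ≤ sz c (c x) - 1 := by nlinarith
    have h9 : 0 ≤ ∑ w, ind (c x = c w + 1 ∧ rev w x = true) := sum_nonneg' fun _ => ind_nonneg _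
    have h10 : (∑ w, ind (c x = c w + 1 ∧ rev w x = true)) * (n / 4) ≤ n / 100 * (n / 4) := by
      have e1 := mul_le_mul_of_nonneg_left h8 h9
      have e2 : sig0 ^ 2 * n ^ 2 ≤ 1 / 100000 * n ^ 2 :=
        mul_le_mul_of_nonneg_right hs1 (by positivity)
      nlinarith
    exact le_of_mul_le_mul_right h10 (by positivity)
  -- there is no reversed arc
  have h2 : ∀ x y : V, c y = c x + 1 → rev x y = false := by
    intro x y hxy
    by_contra hr
    have hr' : rev x y = true := by simpa using hr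
    have h3 := nu66 A hN x y hxy
    have h4 : tt c H x y ≤ n / 100 := by
      refine le_trans ?_ (h1 x)
      unfold tt
      refine sum_le_sum fun w _ => ind_mono ?_
      rintro ⟨hw, hH⟩
      rw [hF] at hH
      obtain ⟨-, -, -, hfd⟩ := hH
      rw [hxy, hw, hr'] at hfd
      refine ⟨?_, fd_rev1 _ _ _ _ _ _ hfd⟩
      rw [hw]; exact (fin3_21 (c x)).symm
    have h5 := tt_nu c H x y
    have h6 := A.lo (c x + 2)
    have h7 : sig0 * n ≤ 1 / 100 * n :=
      mul_le_mul_of_nonneg_right (by unfold sig0; norm_num) hp.le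
    linarith
  rw [hF]
  unfold Tu FD
  have key : ∀ (a b d : Fin 3) (r1 r2 r3 r4 r5 r6 : Bool),
      (b = a + 1 → r1 = false) → (a = b + 1 → r2 = false) → (d = a + 1 → r3 = false) →
      (a = d + 1 → r4 = false) → (d = b + 1 → r5 = false) → (b = d + 1 → r6 = false) →
      fdB a b d r1 r2 r3 r4 r5 r6 = fdB a b d false false false false false false := by
    decide +kernel
  rw [key _ _ _ _ _ _ _ _ _ (h2 x y) (h2 y x) (h2 x z) (h2 z x) (h2 y z) (h2 z y)]

end Pool.Agent.Y903.TX
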