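import Pool.Agent.Y903.TX.Brg

/-! Deletion of a vertex. -/

set_option autoImplicit false
set_option linter.unusedVariables false
set_option linter.unusedSectionVars false
set_option maxRecDepth 100000

open Finset
open scoped Classical

namespace Pool.Agent.Y903.TX
open Pool.Agent.TH773.Turan34 (K43Free spans)

variable {m : ℕ}

/-- the sets without `v`, as sets of vertices of `Fin m` -/
noncomputable def del (v : Fin (m + 1)) (H : Finset (Finset (Fin (m + 1)))) :
    Finset (Finset (Fin m)) :=
  univ.filter fun e => e.map v.succAboveEmb ∈ H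

theorem mem_del {v : Fin (m + 1)} {H : Finset (Finset (Fin (m + 1)))} {e : Finset (Fin m)} :
    e ∈ del v H ↔ e.map v.succAboveEmb ∈ H := by
  unfold del
  simp

/-- the preimage -/
noncomputable def prei (v : Fin (m + 1)) (T : Finset (Fin (m + 1))) : Finset (Fin m) :=
  univ.filter fun x => v.succAbove x ∈ T

theorem map_prei {v : Fin (m + 1)} {T : Finset (Fin (m + 1))} (h : v ∉ T) :
    (prei v T).map v.succAboveEmb = T := by
  ext x
  simp only [mem_map, prei, mem_filter, mem_univ, true_and, Fin.coe_succAboveEmb]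
  constructor
  · rintro ⟨a, ha, rfl⟩
    exact ha
  · intro hx
    have hxv : x ≠ v := fun e => h (e ▸ hx)
    obtain ⟨a, ha⟩ := Fin.exists_succAbove_eq hxv
    exact ⟨a, by rw [ha]; exact hx, ha⟩

theorem v_notin_map {v : Fin (m + 1)} (e : Finset (Fin m)) : v ∉ e.map v.succAboveEmb := by
  intro h
  rw [mem_map] at h
  obtain ⟨a, -, ha⟩ := h
  exact Fin.succAbove_ne v a ha

theorem del_card (v : Fin (m + 1)) (H : Finset (Finset (Fin (m + 1)))) :
    (del v H).card + (H.filter fun e => v ∈ e).card = H.card := by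
  have h1 : (del v H).card = (H.filter fun e => v ∉ e).card := by
    refine card_bij (fun e _ => e.map v.succAboveEmb) ?_ ?_ ?_
    · intro e he
      exact mem_filter.mpr ⟨mem_del.mp he, v_notin_map e⟩
    · intro e _ e' _ h
      exact Finset.map_injective _ h
    · intro T hT
      obtain ⟨h1, h2⟩ := mem_filter.mp hT
      exact ⟨prei v T, mem_del.mpr (by rw [map_prei h2]; exact h1), map_prei h2⟩
  rw [h1, add_comm]
  exact card_filter_add_card_filter_not (fun e => v ∈ e)

theorem del_unif {v : Fin (m + 1)} {H : Finset (Finset (Fin (m + 1)))}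
    (hH : ∀ e ∈ H, e.card = 3) : ∀ e ∈ del v H, e.card = 3 := by
  intro e he
  have := hH _ (mem_del.mp he)
  rwa [card_map] at this

theorem del_free {v : Fin (m + 1)} {H : Finset (Finset (Fin (m + 1)))} (hK : K43Free H) :
    K43Free (del v H) := by
  intro S hS
  obtain ⟨s, h1, h2, h3⟩ := hK (S.map v.succAboveEmb) (by rw [card_map]; exact hS)
  have hv : v ∉ s := fun h => v_notin_map S (h1 h)
  have h4 := map_prei hv
  refine ⟨prei v s, ?_, ?_, ?_⟩
  · rw [← map_subset_map (f := v.succAboveEmb), h4]
    exact h1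
  · rw [← card_map v.succAboveEmb, h4]
    exact h2
  · rw [mem_del, h4]
    exact h3

theorem del_inside {v : Fin (m + 1)} {H : Finset (Finset (Fin (m + 1)))} (S : Finset (Fin m)) :
    ((del v H).filter fun e => e ⊆ S).card = (H.filter fun e => e ⊆ S.map v.succAboveEmb).card := by
  refine card_bij (fun e _ => e.map v.succAboveEmb) ?_ ?_ ?_
  · intro e he
    obtain ⟨h1, h2⟩ := mem_filter.mp he
    exact mem_filter.mpr ⟨mem_del.mp h1, map_subset_map.mpr h2⟩
  · intro e _ e' _ h
    exact Finset.map_injective _ h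
  · intro T hT
    obtain ⟨h1, h2⟩ := mem_filter.mp hT
    have hv : v ∉ T := fun h => v_notin_map S (h2 h)
    refine ⟨prei v T, mem_filter.mpr ⟨mem_del.mpr (by rw [map_prei hv]; exact h1), ?_⟩,
      map_prei hv⟩
    rw [← map_subset_map (f := v.succAboveEmb), map_prei hv]
    exact h2

theorem del_spans {v : Fin (m + 1)} {H : Finset (Finset (Fin (m + 1)))} (k s : ℕ) :
    spans (del v H) k s ≤ spans H k s := by
  unfold spans
  refine card_le_card_of_injOn (fun S => S.map v.succAboveEmb) ?_ ?_
  · intro S hS
    rw [mem_coe] at hS ⊢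
    obtain ⟨h1, h2⟩ := mem_filter.mp hS
    refine mem_filter.mpr ⟨mem_powersetCard.mpr ⟨subset_univ _, ?_⟩, ?_⟩
    · rw [card_map]
      exact (mem_powersetCard.mp h1).2
    · rw [← del_inside]
      exact h2
  · intro e _ e' _ h
    exact Finset.map_injective _ h

end Pool.Agent.Y903.TX
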