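import Pool.Agent.Y903.TX.Ind

/-! The exact bound for the pairs (5,4) and (6,6). -/

set_option autoImplicit false
set_option linter.unusedVariables false
set_option linter.unusedSectionVars false
set_option maxRecDepth 100000

open Finset
open scoped Classical

namespace Pool.Agent.Y903.TX
open Pool.Agent.Y439.Loc (tnum)
open Pool.Agent.TH773.Turan34 (K43Free spans turan)

/-- The constant in the distance. -/
noncomputable def KK : ℝ := 1161216000

theorem choose3_le (n : ℕ) : (n.choose 3 : ℝ) ≤ (n : ℝ) ^ 3 / 6 := by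
  have h := Nat.choose_le_pow_div (α := ℝ) 3 n
  norm_num at h
  exact h

theorem stab_up {ε : ℝ} (hε : 0 < ε) {n a : ℕ} (h : (a : ℝ) ≤ (5 / 9 + ε) * (n.choose 3 : ℝ)) :
    (a : ℝ) ≤ (5 / 54 + ε) * (n : ℝ) ^ 3 := by
  have h1 := choose3_le n
  have h2 : (5 / 9 + ε) * (n.choose 3 : ℝ) ≤ (5 / 9 + ε) * ((n : ℝ) ^ 3 / 6) :=
    mul_le_mul_of_nonneg_left h1 (by positivity)
  have h3 : 0 ≤ ε * (n : ℝ) ^ 3 := by positivity
  linarith

theorem cls54 : Cls 5 4 3 KK OriG where
  dk := by norm_num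
  K0 := by unfold KK; norm_num
  stab := by
    intro ε hε
    obtain ⟨K, n0, h⟩ := Pool.Agent.TH773.CM.main_gen (Pool.Agent.TH773.CM.five_negl 7) hε
    refine ⟨1 / (((3125 : ℕ) : ℝ) * ((K : ℝ) + 1)), by positivity, n0,
      fun n hn H h3 hK hP => ?_⟩
    have h' := h n hn H h3 hK (fun a ha => ?_) (fun q hq => absurd hq List.not_mem_nil)
    · exact ⟨stab_up hε h'.1, by unfold KK; exact h'.2⟩
    have ha' : a = (5, 54) ∨ a = (5, 184) := by
      simpa [Pool.Agent.TH773.CM.fiveM] using ha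
    rcases ha' with rfl | rfl
    · exact Pool.Agent.TH773.CL.nat_of_real rfl (by norm_num) hP
        (Pool.Agent.TH773.CM.cpS5_span h3 (by decide))
    · exact Pool.Agent.TH773.CL.nat_of_real rfl (by norm_num) hP
        (Pool.Agent.TH773.CM.cpS5_span h3 (by decide))
  core := by
    have hs := sig0_pos
    refine ⟨sig0 / 3125, by positivity, fun n H g hH hK h1 h2 h3 h4 h5 => ?_⟩
    refine mid54 hH hK g h1 (by have := eps0_pos; positivity) le_rfl h2 h3 h4 ?_
    have := mul_le_mul_of_nonneg_left h5 (show (0 : ℝ) ≤ 3125 by norm_num)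
    calc 3125 * (spans H 5 4 : ℝ) ≤ 3125 * (sig0 / 3125 * (n : ℝ) ^ 3) := this
      _ = sig0 * (n : ℝ) ^ 3 := by ring

theorem cls66 : Cls 6 6 4 KK TurG where
  dk := by norm_num
  K0 := by unfold KK; norm_num
  stab := by
    intro ε hε
    obtain ⟨K, n0, h⟩ := Pool.Agent.TH773.CM.main_gen
      (L0 := []) (SQ := [(6, 6)]) ⟨Pool.Agent.TH773.CM.TP66_0, Pool.Agent.TH773.CM.TP66_1⟩ hε
    refine ⟨1 / (((6 ^ 6 : ℕ) : ℝ) * ((K : ℝ) + 1)), by positivity, n0,
      fun n hn H h3 hK hP => ?_⟩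
    have h' := h n hn H h3 hK (fun a ha => absurd ha List.not_mem_nil) (fun a ha => ?_)
    · exact ⟨stab_up hε h'.1, by unfold KK; exact h'.2⟩
    rw [List.mem_singleton] at ha
    subst ha
    exact Pool.Agent.TH773.CL.nat_of_real rfl (by norm_num) hP
      (Pool.Agent.TH773.CM.cqS_le (Or.inr (Or.inl rfl)) h3 6)
  core := by
    have hs := sig0_pos
    refine ⟨sig0 / 46656, by positivity, fun n H g hH hK h1 h2 h3 h4 h5 => ?_⟩
    refine mid66 hH hK g h1 (by have := eps0_pos; positivity) le_rfl h2 h3 h4 ?_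
    have := mul_le_mul_of_nonneg_left h5 (show (0 : ℝ) ≤ 46656 by norm_num)
    calc 46656 * (spans H 6 6 : ℝ) ≤ 46656 * (sig0 / 46656 * (n : ℝ) ^ 4) := this
      _ = sig0 * (n : ℝ) ^ 4 := by ring


end Pool.Agent.Y903.TX
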