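import Pool.Agent.Y903.TX.Mid

/-! Deletion of vertices of small degree. -/

set_option autoImplicit false
set_option linter.unusedVariables false
set_option linter.unusedSectionVars false
set_option maxRecDepth 100000

open Finset
open scoped Classical

namespace Pool.Agent.Y903.TX
open Pool.Agent.Y439.Loc (tnum)
open Pool.Agent.TH773.Turan34 (K43Free spans turan)

theorem tn0 (q : ℕ) : (tnum (3 * q) : ℝ) = 5 / 2 * (q : ℝ) ^ 3 - 3 / 2 * (q : ℝ) ^ 2 := by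
  have e0 : 3 * q / 3 = q := by omega
  have e1 : (3 * q + 1) / 3 = q := by omega
  have e2 : (3 * q + 2) / 3 = q := by omega
  unfold tnum
  rw [e0, e1, e2]
  push_cast [Nat.cast_choose_two]
  ring

theorem tn1 (q : ℕ) : (tnum (3 * q + 1) : ℝ) =
    5 / 2 * (q : ℝ) ^ 3 + (q : ℝ) ^ 2 - (q : ℝ) / 2 := by
  have e0 : (3 * q + 1) / 3 = q := by omega
  have e1 : (3 * q + 1 + 1) / 3 = q := by omega
  have e2 : (3 * q + 1 + 2) / 3 = q + 1 := by omega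
  unfold tnum
  rw [e0, e1, e2]
  push_cast [Nat.cast_choose_two]
  ring

theorem tn2 (q : ℕ) : (tnum (3 * q + 2) : ℝ) =
    5 / 2 * (q : ℝ) ^ 3 + 7 / 2 * (q : ℝ) ^ 2 + q := by
  have e0 : (3 * q + 2) / 3 = q := by omega
  have e1 : (3 * q + 2 + 1) / 3 = q + 1 := by omega
  have e2 : (3 * q + 2 + 2) / 3 = q + 1 := by omega
  unfold tnum
  rw [e0, e1, e2]
  push_cast [Nat.cast_choose_two]
  ring

theorem three_cases (n : ℕ) : ∃ q, n = 3 * q ∨ n = 3 * q + 1 ∨ n = 3 * q + 2 :=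
  ⟨n / 3, by omega⟩

theorem tnum_low (n : ℕ) : 5 / 54 * (n : ℝ) ^ 3 - (n : ℝ) ^ 2 ≤ tnum n := by
  obtain ⟨q, rfl | rfl | rfl⟩ := three_cases n
  · rw [tn0]
    push_cast
    nlinarith [sq_nonneg (q : ℝ)]
  · rw [tn1]
    push_cast
    have : (0 : ℝ) ≤ q := Nat.cast_nonneg q
    nlinarith [sq_nonneg (q : ℝ)]
  · rw [tn2]
    push_cast
    have : (0 : ℝ) ≤ q := Nat.cast_nonneg q
    nlinarith [sq_nonneg (q : ℝ)]

theorem tnum_step (n : ℕ) :
    5 / 18 * (n : ℝ) ^ 2 - n - 1 ≤ (tnum (n + 1) : ℝ) - tnum n := by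
  obtain ⟨q, rfl | rfl | rfl⟩ := three_cases n
  · rw [tn0, tn1]
    push_cast
    have : (0 : ℝ) ≤ q := Nat.cast_nonneg q
    nlinarith
  · rw [tn1, show 3 * q + 1 + 1 = 3 * q + 2 from rfl, tn2]
    push_cast
    have : (0 : ℝ) ≤ q := Nat.cast_nonneg q
    nlinarith
  · rw [tn2, show 3 * q + 2 + 1 = 3 * (q + 1) from by ring, tn0]
    push_cast
    have : (0 : ℝ) ≤ q := Nat.cast_nonneg q
    nlinarith

/-- a class of 3-graphs for which stability and the bound for large minimum degree hold -/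
structure Cls (k s d : ℕ) (K : ℝ) (Q : ∀ n, Finset (Finset (Fin n)) → Prop) : Prop where
  dk : d ≤ k
  K0 : 0 ≤ K
  stab : ∀ ε : ℝ, 0 < ε → ∃ β : ℝ, 0 < β ∧ ∃ N : ℕ, ∀ n, N ≤ n →
    ∀ H : Finset (Finset (Fin n)), (∀ e ∈ H, e.card = 3) → K43Free H →
      (spans H k s : ℝ) ≤ β * (n : ℝ) ^ k →
      (H.card : ℝ) ≤ (5 / 54 + ε) * (n : ℝ) ^ 3 ∧
      ∃ g : Fin n → Fin 3, ((symmDiff H (turan g)).card : ℝ) ≤
        K * (5 / 54 * (n : ℝ) ^ 3 - H.card) + ε * (n : ℝ) ^ 3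
  core : ∃ β : ℝ, 0 < β ∧ ∀ (n : ℕ) (H : Finset (Finset (Fin n))) (g : Fin n → Fin 3),
    (∀ e ∈ H, e.card = 3) → K43Free H → 1 ≤ eps0 * n →
    ((symmDiff H (turan g)).card : ℝ) ≤ (eps0 / 6) ^ 2 * (n : ℝ) ^ 3 →
    (5 / 54 - (eps0 / 6) ^ 2) * (n : ℝ) ^ 3 ≤ (H.card : ℝ) →
    (∀ v, (5 / 18 - eps0 / 2) * (n : ℝ) ^ 2 ≤ ((H.filter fun e => v ∈ e).card : ℝ)) →
    (spans H k s : ℝ) ≤ β * (n : ℝ) ^ d →
    H.card ≤ tnum n ∧ (H.card = tnum n → Q n H)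

theorem exact_of_cls {k s d : ℕ} {K : ℝ} {Q : ∀ n, Finset (Finset (Fin n)) → Prop}
    (C : Cls k s d K Q) : ∃ c : ℝ, 0 < c ∧ ∃ n0 : ℕ, ∀ n, n0 ≤ n →
      ∀ H : Finset (Finset (Fin n)), (∀ e ∈ H, e.card = 3) → K43Free H → tnum n ≤ H.card →
        (spans H k s : ℝ) ≤ c * (n : ℝ) ^ d → H.card = tnum n ∧ Q n H := by
  have he0 := eps0_pos
  have he1 : eps0 ≤ 1 := eps_small.trans (by norm_num)
  have hK0 := C.K0
  obtain ⟨γ, hγ⟩ : ∃ γ : ℝ, γ = eps0 / 16 := ⟨_, rfl⟩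
  obtain ⟨δ, hδ⟩ : ∃ δ : ℝ, δ = eps0 / 6 := ⟨_, rfl⟩
  have hγ0 : 0 < γ := by rw [hγ]; positivity
  have hδ0 : 0 < δ := by rw [hδ]; positivity
  obtain ⟨ε, hε⟩ : ∃ ε : ℝ, ε = min (δ ^ 2 / 2) (γ / 8) := ⟨_, rfl⟩
  have hε0 : 0 < ε := by rw [hε]; positivity
  have hε1 : ε ≤ δ ^ 2 / 2 := by rw [hε]; exact min_le_left _ _
  have hε2 : ε ≤ γ / 8 := by rw [hε]; exact min_le_right _ _
  obtain ⟨β1, hβ1, N1, hst⟩ := C.stab ε hε0
  obtain ⟨β2, hβ2, hco⟩ := C.core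
  obtain ⟨c, hc⟩ : ∃ c : ℝ, c = min β1 β2 / 2 ^ k := ⟨_, rfl⟩
  have hc0 : 0 < c := by rw [hc]; positivity
  obtain ⟨n1, hn1⟩ := exists_nat_ge (16 / eps0 + 4 / δ ^ 2 * (K + 1) + 16 / γ + 16)
  refine ⟨c, hc0, max n1 (2 * N1 + 2), fun n hn H hH hK hcard hsp => ?_⟩
  have hnN : 2 * N1 + 2 ≤ n := (le_max_right _ _).trans hn
  have hn1' : 16 / eps0 + 4 / δ ^ 2 * (K + 1) + 16 / γ + 16 ≤ (n : ℝ) :=
    hn1.trans (by exact_mod_cast (le_max_left _ _).trans hn)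
  have hb1 : 16 ≤ eps0 * n := by
    have h1 : 16 / eps0 ≤ (n : ℝ) := by
      have : 0 ≤ 4 / δ ^ 2 * (K + 1) + 16 / γ + 16 := by positivity
      linarith
    rw [div_le_iff₀ he0] at h1
    linarith
  have hb2 : 4 * (K + 1) ≤ δ ^ 2 * n := by
    have h1 : 4 / δ ^ 2 * (K + 1) ≤ (n : ℝ) := by
      have : 0 ≤ 16 / eps0 + 16 / γ + 16 := by positivity
      linarith
    have h2 := mul_le_mul_of_nonneg_left h1 (show (0 : ℝ) ≤ δ ^ 2 by positivity)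
    have h3 : δ ^ 2 * (4 / δ ^ 2 * (K + 1)) = 4 * (K + 1) := by field_simp
    linarith
  have hb3 : 16 ≤ γ * n := by
    have h1 : 16 / γ ≤ (n : ℝ) := by
      have : 0 ≤ 16 / eps0 + 4 / δ ^ 2 * (K + 1) + 16 := by positivity
      linarith
    rw [div_le_iff₀ hγ0] at h1
    linarith
  have hn16 : (16 : ℝ) ≤ n := by
    have : 0 ≤ 16 / eps0 + 4 / δ ^ 2 * (K + 1) + 16 / γ := by positivity
    linarith
  have hn0 : (0 : ℝ) < n := by linarith
  -- few sets, for all large `m`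
  have few : ∀ m : ℕ, n ≤ 2 * m → ∀ H' : Finset (Finset (Fin m)),
      (spans H' k s : ℝ) ≤ c * (n : ℝ) ^ d →
      (spans H' k s : ℝ) ≤ β1 * (m : ℝ) ^ k ∧ (spans H' k s : ℝ) ≤ β2 * (m : ℝ) ^ d := by
    intro m hm H' h
    have hm' : (n : ℝ) ≤ 2 * m := by exact_mod_cast hm
    have hm1 : (1 : ℝ) ≤ m := by linarith
    have h1 : (n : ℝ) ^ d ≤ 2 ^ k * (m : ℝ) ^ d := by
      calc (n : ℝ) ^ d ≤ (2 * (m : ℝ)) ^ d := pow_le_pow_left₀ hn0.le hm' d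
        _ = 2 ^ d * (m : ℝ) ^ d := mul_pow _ _ _
        _ ≤ 2 ^ k * (m : ℝ) ^ d :=
          mul_le_mul_of_nonneg_right (pow_le_pow_right₀ (by norm_num) C.dk) (by positivity)
    have h2 : c * (n : ℝ) ^ d ≤ min β1 β2 * (m : ℝ) ^ d := by
      calc c * (n : ℝ) ^ d ≤ c * (2 ^ k * (m : ℝ) ^ d) := mul_le_mul_of_nonneg_left h1 hc0.le
        _ = min β1 β2 * (m : ℝ) ^ d := by rw [hc]; field_simp
    constructor
    · refine h.trans (h2.trans ?_)
      exact mul_le_mul (min_le_left _ _) (pow_le_pow_right₀ hm1 C.dk) (by positivity) hβ1.le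
    · refine h.trans (h2.trans ?_)
      exact mul_le_mul_of_nonneg_right (min_le_right _ _) (by positivity)
  -- either all is well or there is a vertex of small degree
  have step : ∀ m : ℕ, n ≤ 2 * m → m ≤ n → ∀ H' : Finset (Finset (Fin m)),
      (∀ e ∈ H', e.card = 3) → K43Free H' → (spans H' k s : ℝ) ≤ c * (n : ℝ) ^ d →
      tnum m ≤ H'.card → (H'.card = tnum m ∧ Q m H') ∨
        ∃ v, ((H'.filter fun e => v ∈ e).card : ℝ) < (5 / 18 - eps0 / 2) * (m : ℝ) ^ 2 := by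
    intro m hm hmn H' hH' hK' hs' hc'
    by_cases hlow : ∃ v, ((H'.filter fun e => v ∈ e).card : ℝ) < (5 / 18 - eps0 / 2) * (m : ℝ) ^ 2
    · exact Or.inr hlow
    left
    push Not at hlow
    have hm' : (n : ℝ) ≤ 2 * m := by exact_mod_cast hm
    obtain ⟨f1, f2⟩ := few m hm H' hs'
    obtain ⟨-, g, hg⟩ := hst m (by omega) H' hH' hK' f1
    have hc2 : (tnum m : ℝ) ≤ (H'.card : ℝ) := by exact_mod_cast hc'
    have hl := tnum_low m
    have hm0 : (0 : ℝ) ≤ m := Nat.cast_nonneg m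
    have hd1 : 2 * (K + 1) ≤ δ ^ 2 * m := by
      have := mul_le_mul_of_nonneg_left hm' (show (0 : ℝ) ≤ δ ^ 2 by positivity)
      linarith
    have hd2 : 2 * (K + 1) * (m : ℝ) ^ 2 ≤ δ ^ 2 * (m : ℝ) ^ 3 := by
      have := mul_le_mul_of_nonneg_right hd1 (show (0 : ℝ) ≤ (m : ℝ) ^ 2 by positivity)
      calc 2 * (K + 1) * (m : ℝ) ^ 2 ≤ δ ^ 2 * m * (m : ℝ) ^ 2 := this
        _ = δ ^ 2 * (m : ℝ) ^ 3 := by ring
    have hgap : 5 / 54 * (m : ℝ) ^ 3 - H'.card ≤ (m : ℝ) ^ 2 := by linarith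
    have k1 : K * (5 / 54 * (m : ℝ) ^ 3 - H'.card) ≤ K * (m : ℝ) ^ 2 :=
      mul_le_mul_of_nonneg_left hgap hK0
    have k2 : ε * (m : ℝ) ^ 3 ≤ δ ^ 2 / 2 * (m : ℝ) ^ 3 :=
      mul_le_mul_of_nonneg_right hε1 (by positivity)
    have k3 : 0 ≤ (m : ℝ) ^ 2 := by positivity
    have k4 : 0 ≤ K * (m : ℝ) ^ 2 := by positivity
    have he' : 1 ≤ eps0 * m := by
      have := mul_le_mul_of_nonneg_left hm' he0.le
      linarith
    have h := hco m H' g hH' hK' he' (by rw [← hδ]; linarith) (by rw [← hδ]; linarith)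
      hlow f2
    have heq : H'.card = tnum m := le_antisymm h.1 hc'
    exact ⟨heq, h.2 heq⟩
  -- deletion
  have next : ∀ m : ℕ, n ≤ 2 * (m + 1) → ∀ (H' : Finset (Finset (Fin (m + 1)))) (v : Fin (m + 1))
      (a : ℝ), ((H'.filter fun e => v ∈ e).card : ℝ) <
        (5 / 18 - eps0 / 2) * ((m + 1 : ℕ) : ℝ) ^ 2 →
      (tnum (m + 1) : ℝ) + a ≤ (H'.card : ℝ) →
      (tnum m : ℝ) + (a + γ * (n : ℝ) ^ 2) ≤ ((del v H').card : ℝ) := by
    intro m hm H' v a hv ha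
    have hm' : (n : ℝ) ≤ 2 * ((m : ℝ) + 1) := by exact_mod_cast hm
    have h1 : ((del v H').card : ℝ) + ((H'.filter fun e => v ∈ e).card : ℝ) = (H'.card : ℝ) := by
      exact_mod_cast del_card v H'
    have h2 := tnum_step m
    push_cast at hv
    have h3 : eps0 / 8 * n ≤ eps0 / 2 * ((m : ℝ) + 1) - 2 := by
      have := mul_le_mul_of_nonneg_left hm' he0.le
      linarith
    have h4 : eps0 / 16 * (n : ℝ) ^ 2 ≤ ((m : ℝ) + 1) * (eps0 / 2 * ((m : ℝ) + 1) - 2) := by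
      have e1 : (n : ℝ) / 2 ≤ (m : ℝ) + 1 := by linarith
      have e2 := mul_le_mul e1 h3 (by positivity) (by linarith)
      calc eps0 / 16 * (n : ℝ) ^ 2 = (n : ℝ) / 2 * (eps0 / 8 * n) := by ring
        _ ≤ _ := e2
    rw [hγ]
    have hm0 : (0 : ℝ) ≤ m := Nat.cast_nonneg m
    linarith
  -- no 3-graph with too many edges
  have no : ∀ m : ℕ, n ≤ 2 * m → m < n → ∀ H' : Finset (Finset (Fin m)),
      (∀ e ∈ H', e.card = 3) → K43Free H' → (spans H' k s : ℝ) ≤ c * (n : ℝ) ^ d →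
      ¬ ((tnum m : ℝ) + γ * ((n : ℝ) - m) * (n : ℝ) ^ 2 ≤ (H'.card : ℝ)) := by
    intro m
    induction m with
    | zero =>
      intro h1 h2
      omega
    | succ m ih =>
      intro h1 h2 H' hH' hK' hs' hcon
      have hmn : ((m + 1 : ℕ) : ℝ) + 1 ≤ n := by exact_mod_cast h2
      have hpos : 0 < γ * ((n : ℝ) - ((m + 1 : ℕ) : ℝ)) * (n : ℝ) ^ 2 := by
        have : 0 < (n : ℝ) - ((m + 1 : ℕ) : ℝ) := by linarith
        positivity
      by_cases hm : n ≤ 2 * m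
      · have hle : tnum (m + 1) ≤ H'.card := by
          have : (tnum (m + 1) : ℝ) ≤ (H'.card : ℝ) := by linarith
          exact_mod_cast this
        rcases step (m + 1) h1 h2.le H' hH' hK' hs' hle with h | ⟨v, hv⟩
        · have : (H'.card : ℝ) = (tnum (m + 1) : ℝ) := by exact_mod_cast h.1
          linarith
        · have h3 := next m h1 H' v _ hv hcon
          refine ih hm (by omega) (del v H') (del_unif hH') (del_free hK')
            (le_trans (by exact_mod_cast del_spans k s) hs') (le_trans (le_of_eq ?_) h3)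
          push_cast
          ring
      · obtain ⟨f1, -⟩ := few (m + 1) h1 H' hs'
        obtain ⟨h3, -⟩ := hst (m + 1) (by omega) H' hH' hK' f1
        have h4 := tnum_low (m + 1)
        have h5 : 2 * m + 1 ≤ n := by omega
        have h6 : 2 * (m : ℝ) + 1 ≤ n := by exact_mod_cast h5
        have hM : ((m + 1 : ℕ) : ℝ) ≤ n := by linarith
        have hM0 : (0 : ℝ) ≤ ((m + 1 : ℕ) : ℝ) := Nat.cast_nonneg _
        have h7 : (n : ℝ) / 4 ≤ (n : ℝ) - ((m + 1 : ℕ) : ℝ) := by push_cast; linarith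
        have h8 : γ * ((n : ℝ) / 4) * (n : ℝ) ^ 2 ≤
            γ * ((n : ℝ) - ((m + 1 : ℕ) : ℝ)) * (n : ℝ) ^ 2 :=
          mul_le_mul_of_nonneg_right (mul_le_mul_of_nonneg_left h7 hγ0.le) (by positivity)
        have h9 : ε * ((m + 1 : ℕ) : ℝ) ^ 3 ≤ γ / 8 * (n : ℝ) ^ 3 :=
          mul_le_mul hε2 (pow_le_pow_left₀ hM0 hM 3) (by positivity) (by positivity)
        have h10 : ((m + 1 : ℕ) : ℝ) ^ 2 ≤ (n : ℝ) ^ 2 := pow_le_pow_left₀ hM0 hM 2
        have h12 : 16 * (n : ℝ) ^ 2 ≤ γ * n * (n : ℝ) ^ 2 :=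
          mul_le_mul_of_nonneg_right hb3 (by positivity)
        have h13 : 0 < (n : ℝ) ^ 2 := by positivity
        linarith
  -- the conclusion
  rcases step n (by omega) le_rfl H hH hK hsp hcard with h | ⟨v, hv⟩
  · exact h
  · exfalso
    obtain ⟨m, rfl⟩ : ∃ m, n = m + 1 := ⟨n - 1, by omega⟩
    have hcard' : ((tnum (m + 1) : ℕ) : ℝ) + 0 ≤ (H.card : ℝ) := by
      rw [add_zero]; exact_mod_cast hcard
    have h3 := next m (by omega) H v 0 hv hcard'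
    refine no m (by omega) (by omega) (del v H) (del_unif hH) (del_free hK)
      (le_trans (by exact_mod_cast del_spans k s) hsp) (le_trans (le_of_eq ?_) h3)
    push_cast
    ring

end Pool.Agent.Y903.TX
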