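import Pool.Agent.Y903.TX.K66

/-! Links of vertices of a `K_4^3`-free 3-graph near Turán's construction, in which five vertices
rarely span exactly four edges. -/

set_option autoImplicit false
set_option linter.unusedVariables false
set_option linter.unusedSectionVars false

open Finset
open scoped Classical

namespace Pool.Agent.Y903.TX
open Pool.Agent.Y439.Loc hiding sum_nonneg'

variable {V : Type} [Fintype V] {c : V → Fin 3} {H : V → V → V → Prop} {n : ℝ}

/-- the number of tuples with exactly four edges at a vertex -/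
noncomputable def B5 (H : V → V → V → Prop) (v : V) : ℝ :=
  ∑ x, ∑ x', ∑ y, ∑ y', ind (Bd5 H v x x' y y')

/-- errors -/
def Er (c : V → Fin 3) (H : V → V → V → Prop) (v b b' y z : V) : Prop :=
  Df c H y z b ∨ Df c H y z b' ∨ Df c H y b b' ∨ Df c H z b b' ∨ Bd5 H v y z b b'

noncomputable def er (c : V → Fin 3) (H : V → V → V → Prop) (v b b' : V) : ℝ :=
  ∑ y, ∑ z, ind (Er c H v b b' y z)

theorem er_nonneg (v b b' : V) : 0 ≤ er c H v b b' :=
  sum_nonneg' fun _ => sum_nonneg' fun _ => ind_nonneg _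

/-- the edges in the link inside the class -/
theorem no_type (S : Sys c H) {v b b' y z : V} {k : Fin 3} (hb : c b = k + 1) (hb' : c b' = k + 1)
    (hbb : H v b b') (hy : c y = k) (hz : c z = k) (hyz : H v y z)
    (h1 : H v y b ↔ H v z b) (h2 : H v y b' ↔ H v z b') : Er c H v b b' y z := by
  by_contra hE
  unfold Er at hE
  push Not at hE
  obtain ⟨e1, e2, e3, e4, e5⟩ := hE
  have nyz : y ≠ z := S.ne23 hyz
  have nbb : b ≠ b' := S.ne23 hbb
  have t1 : H y z b := by
    unfold Df at e1; push Not at e1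
    exact e1.2 (tu_two (by rw [hz, hy]) (by rw [hb, hy]) nyz)
  have t2 : H y z b' := by
    unfold Df at e2; push Not at e2
    exact e2.2 (tu_two (by rw [hz, hy]) (by rw [hb', hy]) nyz)
  have t3 : ¬ H y b b' := by
    unfold Df at e3; push Not at e3
    exact fun h => tu_not (by rw [hb, hy]) (by rw [hb', hy]) (e3.1 h)
  have t4 : ¬ H z b b' := by
    unfold Df at e4; push Not at e4
    exact fun h => tu_not (by rw [hb, hz]) (by rw [hb', hz]) (e4.1 h)
  have u1 : ¬ H v y b := fun h => S.k4 v y z b hyz h (h1.1 h) t1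
  have u2 : ¬ H v y b' := fun h => S.k4 v y z b' hyz h (h2.1 h) t2
  have u3 : ¬ H v z b := fun h => u1 (h1.2 h)
  have u4 : ¬ H v z b' := fun h => u2 (h2.2 h)
  have nvy : v ≠ y := S.ne _ _ _ hyz
  have nvz : v ≠ z := S.ne13 hyz
  have nvb : v ≠ b := S.ne _ _ _ hbb
  have nvb' : v ≠ b' := S.ne13 hbb
  have ab : ∀ x w, c x = k → c w = k + 1 → x ≠ w := by
    intro x w hx hw h
    rw [h, hw] at hx
    exact fin3_ne1 k hx.symm
  apply e5
  refine ⟨?_, ?_⟩
  · simp only [List.nodup_cons, List.mem_cons, List.not_mem_nil, or_false, not_or,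
      not_false_eq_true, List.nodup_nil, and_true]
    exact ⟨⟨nvy, nvz, nvb, nvb'⟩, ⟨nyz, ab _ _ hy hb, ab _ _ hy hb'⟩, ⟨ab _ _ hz hb, ab _ _ hz hb'⟩,
      nbb⟩
  · unfold c5
    rw [cn_t hyz, cn_f u1, cn_f u2, cn_f u3, cn_f u4, cn_t hbb, cn_t t1, cn_t t2, cn_f t3, cn_f t4]

/-- the sum of the errors -/
theorem er_sum (hn : ∑ _x : V, (1 : ℝ) = n) (v : V) :
    ∑ b, ∑ b', er c H v b b' ≤ 4 * (n * WD c H) + B5 H v := by
  have h1 : ∀ b b' y z : V, ind (Er c H v b b' y z) ≤
      ind (Df c H y z b) + ind (Df c H y z b') + ind (Df c H y b b') + ind (Df c H z b b') +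
      ind (Bd5 H v y z b b') := by
    intro b b' y z
    have h2 : ind (Er c H v b b' y z) ≤ ind (Df c H y z b) + ind (Df c H y z b') +
      ind (Df c H y b b') + ind (Df c H z b b' ∨ Bd5 H v y z b b') := ind_or4 fun h => h
    have h3 : ind (Df c H z b b' ∨ Bd5 H v y z b b') ≤ ind (Df c H z b b') +
      ind (Bd5 H v y z b b') := ind_or fun h => h
    linarith
  have h2 : ∑ b, ∑ b', er c H v b b' ≤ ∑ b, ∑ b', ∑ y, ∑ z,
      (ind (Df c H y z b) + ind (Df c H y z b') + ind (Df c H y b b') + ind (Df c H z b b') +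
      ind (Bd5 H v y z b b')) :=
    sum_le_sum fun b _ => sum_le_sum fun b' _ => sum_le_sum fun y _ => sum_le_sum fun z _ =>
      h1 b b' y z
  refine h2.trans (le_of_eq ?_)
  simp only [sum_add_distrib]
  have e0 : WD c H = ∑ b, ∑ y, ∑ z, ind (Df c H y z b) := by
    unfold WD
    have : ∀ x, ∑ y, ∑ z, ind (Df c H x y z) = ∑ z, ∑ y, ind (Df c H x y z) := fun x => sum_comm
    rw [sum_congr rfl fun x _ => this x, sum_comm]
  have e0' : WD c H = ∑ b, ∑ b', ∑ y, ind (Df c H y b b') := by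
    unfold WD
    rw [sum_comm]
    exact sum_congr rfl fun b _ => sum_comm
  have e1 : ∑ b, ∑ _b' : V, ∑ y, ∑ z, ind (Df c H y z b) = n * WD c H := by
    rw [e0]; simp only [csum hn, ← mul_sum]
  have e2 : ∑ _b : V, ∑ b', ∑ y, ∑ z, ind (Df c H y z b') = n * WD c H := by
    rw [e0]; simp only [csum hn]
  have e3 : ∑ b, ∑ b', ∑ y, ∑ _z : V, ind (Df c H y b b') = n * WD c H := by
    rw [e0']; simp only [csum hn, ← mul_sum]
  have e4 : ∑ b, ∑ b', ∑ _y : V, ∑ z : V, ind (Df c H z b b') = n * WD c H := by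
    rw [e0']; simp only [csum hn, ← mul_sum]
  have e5 : ∑ b, ∑ b', ∑ y, ∑ z, ind (Bd5 H v y z b b') = B5 H v := by
    unfold B5
    have : ∀ b, ∑ b', ∑ y, ∑ z, ind (Bd5 H v y z b b') =
        ∑ y, ∑ z, ∑ b', ind (Bd5 H v y z b b') := by
      intro b
      rw [sum_comm]
      exact sum_congr rfl fun y _ => sum_comm
    rw [sum_congr rfl fun b _ => this b, sum_comm]
    exact sum_congr rfl fun y _ => sum_comm
  rw [e1, e2, e3, e4, e5]
  ring

/-- the four types of vertices of the class `k` -/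
def Xt (c : V → Fin 3) (H : V → V → V → Prop) (v : V) (k : Fin 3) (b b' : V) (t : Bool × Bool)
    (y : V) : Prop :=
  c y = k ∧ (H v y b ↔ t.1 = true) ∧ (H v y b' ↔ t.2 = true)

/-- link edges between two types -/
noncomputable def EX (c : V → Fin 3) (H : V → V → V → Prop) (v : V) (k : Fin 3) (b b' : V)
    (t s : Bool × Bool) : ℝ :=
  ∑ y, ∑ z, ind ((Xt c H v k b b' t y ∧ Xt c H v k b b' s z) ∧ H v y z)

theorem EX_nonneg (v : V) (k : Fin 3) (b b' : V) (t s : Bool × Bool) :
    0 ≤ EX c H v k b b' t s := sum_nonneg' fun _ => sum_nonneg' fun _ => ind_nonneg _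

/-- counting four-cycles -/
theorem c4_count (hn : ∑ _x : V, (1 : ℝ) = n) (g : V → V → ℝ) (hg : ∀ x y, 0 ≤ g x y) :
    (∑ x, ∑ y, g x y) ^ 4 ≤
      n ^ 4 * ∑ x, ∑ x', ∑ y, ∑ y', g x y * g x y' * (g x' y * g x' y') := by
  have hn0 := n_nonneg hn
  have hc : (#(univ : Finset (V × V)) : ℝ) = n ^ 2 := by
    rw [card_univ, Fintype.card_prod]
    push_cast
    rw [card_sq hn]; ring
  have hc1 : (#(univ : Finset V) : ℝ) = n := by rw [card_univ, card_sq hn]
  have g1 := sq_sum_le_card_mul_sum_sq (s := (univ : Finset V)) (f := fun x => ∑ y, g x y)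
  have g2 := sq_sum_le_card_mul_sum_sq (s := (univ : Finset (V × V)))
    (f := fun p => ∑ x, g x p.1 * g x p.2)
  rw [hc1] at g1
  rw [hc] at g2
  have e1 : ∑ x, (∑ y, g x y) ^ 2 = ∑ p : V × V, ∑ x, g x p.1 * g x p.2 := by
    rw [Fintype.sum_prod_type]
    have : ∀ x, (∑ y, g x y) ^ 2 = ∑ y, ∑ y', g x y * g x y' := fun x => by
      rw [sq, sum_mul_sum]
    rw [sum_congr rfl fun x _ => this x, sum_comm]
    exact sum_congr rfl fun y _ => sum_comm
  have e2 : ∑ p : V × V, (∑ x, g x p.1 * g x p.2) ^ 2 =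
      ∑ x, ∑ x', ∑ y, ∑ y', g x y * g x y' * (g x' y * g x' y') := by
    rw [Fintype.sum_prod_type]
    have : ∀ y y', (∑ x, g x y * g x y') ^ 2 =
        ∑ x, ∑ x', g x y * g x y' * (g x' y * g x' y') := fun y y' => by
      rw [sq, sum_mul_sum]
    rw [sum_congr rfl fun y _ => sum_congr rfl fun y' _ => this y y']
    have h1 : ∀ y, ∑ y', ∑ x, ∑ x', g x y * g x y' * (g x' y * g x' y') =
        ∑ x, ∑ x', ∑ y', g x y * g x y' * (g x' y * g x' y') := by
      intro y
      rw [sum_comm]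
      exact sum_congr rfl fun x _ => sum_comm
    rw [sum_congr rfl fun y _ => h1 y, sum_comm]
    exact sum_congr rfl fun x _ => sum_comm
  rw [e1] at g1
  rw [e2] at g2
  set A : ℝ := ∑ p : V × V, ∑ x, g x p.1 * g x p.2 with hA
  have hA0 : 0 ≤ A := sum_nonneg fun p _ => sum_nonneg fun x _ => mul_nonneg (hg _ _) (hg _ _)
  have g3 : ((∑ x, ∑ y, g x y) ^ 2) ^ 2 ≤ (n * A) ^ 2 := pow_le_pow_left₀ (by positivity) g1 2
  calc (∑ x, ∑ y, g x y) ^ 4 = ((∑ x, ∑ y, g x y) ^ 2) ^ 2 := by ring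
    _ ≤ (n * A) ^ 2 := g3
    _ = n ^ 2 * A ^ 2 := by ring
    _ ≤ n ^ 2 * (n ^ 2 * ∑ x, ∑ x', ∑ y, ∑ y', g x y * g x y' * (g x' y * g x' y')) :=
        mul_le_mul_of_nonneg_left g2 (by positivity)
    _ = _ := by ring

/-- edges between two types -/
theorem EX_four (S : Sys c H) (hn : ∑ _x : V, (1 : ℝ) = n) {v b b' : V} {k : Fin 3}
    (hb : c b = k + 1) (hb' : c b' = k + 1) (hbb : H v b b') (t s : Bool × Bool) :
    EX c H v k b b' t s ^ 4 ≤
      n ^ 4 * (2 * n ^ 3 + 2 * (n ^ 2 * er c H v b b') + 4 * (n * WD c H) + B5 H v) := by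
  have hn0 := n_nonneg hn
  have h1 := c4_count hn (fun y z => ind ((Xt c H v k b b' t y ∧ Xt c H v k b b' s z) ∧ H v y z))
    (fun _ _ => ind_nonneg _)
  refine h1.trans (mul_le_mul_of_nonneg_left ?_ (by positivity))
  have h2 : ∀ x x' y y', ind ((Xt c H v k b b' t x ∧ Xt c H v k b b' s y) ∧ H v x y) *
      ind ((Xt c H v k b b' t x ∧ Xt c H v k b b' s y') ∧ H v x y') *
      (ind ((Xt c H v k b b' t x' ∧ Xt c H v k b b' s y) ∧ H v x' y) *
      ind ((Xt c H v k b b' t x' ∧ Xt c H v k b b' s y') ∧ H v x' y')) ≤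
      ind (x = x') + ind (y = y') + ind (Er c H v b b' x x') + ind (Er c H v b b' y y') +
      ind (Df c H x x' y) + ind (Df c H x x' y') + ind (Df c H x y y') + ind (Df c H x' y y') +
      ind (Bd5 H v x x' y y') := by
    intro x x' y y'
    have a1 := ind_nonneg (x = x')
    have a2 := ind_nonneg (y = y')
    have a3 := ind_nonneg (Er c H v b b' x x')
    have a4 := ind_nonneg (Er c H v b b' y y')
    have a5 := ind_nonneg (Df c H x x' y)
    have a6 := ind_nonneg (Df c H x x' y')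
    have a7 := ind_nonneg (Df c H x y y')
    have a8 := ind_nonneg (Df c H x' y y')
    have a9 := ind_nonneg (Bd5 H v x x' y y')
    rw [← mul_assoc]
    refine prod4 (by linarith) fun q1 q2 q3 q4 => ?_
    by_cases g1 : x = x'
    · rw [ind_t g1]; linarith
    by_cases g2 : y = y'
    · rw [ind_t g2]; linarith
    by_cases g3 : Er c H v b b' x x'
    · rw [ind_t g3]; linarith
    by_cases g4 : Er c H v b b' y y'
    · rw [ind_t g4]; linarith
    by_cases g5 : Df c H x x' y
    · rw [ind_t g5]; linarith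
    by_cases g6 : Df c H x x' y'
    · rw [ind_t g6]; linarith
    by_cases g7 : Df c H x y y'
    · rw [ind_t g7]; linarith
    by_cases g8 : Df c H x' y y'
    · rw [ind_t g8]; linarith
    have g9 : Bd5 H v x x' y y' := by
      obtain ⟨⟨tx, sy⟩, lxy⟩ := q1
      obtain ⟨⟨-, sy'⟩, lxy'⟩ := q2
      obtain ⟨⟨tx', -⟩, lx'y⟩ := q3
      obtain ⟨-, lx'y'⟩ := q4
      have lxx : ¬ H v x x' := fun h => g3 (no_type S hb hb' hbb tx.1 tx'.1 h
        (tx.2.1.trans tx'.2.1.symm) (tx.2.2.trans tx'.2.2.symm))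
      have lyy : ¬ H v y y' := fun h => g4 (no_type S hb hb' hbb sy.1 sy'.1 h
        (sy.2.1.trans sy'.2.1.symm) (sy.2.2.trans sy'.2.2.symm))
      have mono : ∀ p q r, c p = k → c q = k → c r = k → ¬ Df c H p q r → ¬ H p q r := by
        intro p q r hp hq hr hd
        unfold Df at hd
        push Not at hd
        exact fun h => tu_mono (by rw [hq, hp]) (by rw [hr, hp]) (hd.1 h)
      have m1 := mono _ _ _ tx.1 tx'.1 sy.1 g5
      have m2 := mono _ _ _ tx.1 tx'.1 sy'.1 g6
      have m3 := mono _ _ _ tx.1 sy.1 sy'.1 g7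
      have m4 := mono _ _ _ tx'.1 sy.1 sy'.1 g8
      refine ⟨?_, ?_⟩
      · simp only [List.nodup_cons, List.mem_cons, List.not_mem_nil, or_false, not_or,
          not_false_eq_true, List.nodup_nil, and_true]
        exact ⟨⟨S.ne _ _ _ lxy, S.ne _ _ _ lx'y, S.ne13 lxy, S.ne13 lxy'⟩,
          ⟨g1, S.ne23 lxy, S.ne23 lxy'⟩, ⟨S.ne23 lx'y, S.ne23 lx'y'⟩, g2⟩
      · unfold c5
        rw [cn_f lxx, cn_t lxy, cn_t lxy', cn_t lx'y, cn_t lx'y', cn_f lyy, cn_f m1, cn_f m2,
          cn_f m3, cn_f m4]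
    rw [ind_t g9]; linarith
  refine (sum_le_sum fun x _ => sum_le_sum fun x' _ => sum_le_sum fun y _ =>
    sum_le_sum fun y' _ => h2 x x' y y').trans (le_of_eq ?_)
  simp only [sum_add_distrib]
  rw [s12 hn (F := fun x x' => ind (x = x')), s34 hn (F := fun x x' => ind (x = x')),
    s12 hn (F := fun x x' => ind (Er c H v b b' x x')),
    s34 hn (F := fun x x' => ind (Er c H v b b' x x')),
    t123 hn (G := fun x y z => ind (Df c H x y z)), t124 hn (G := fun x y z => ind (Df c H x y z)),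
    t134 hn (G := fun x y z => ind (Df c H x y z)), t234 hn (G := fun x y z => ind (Df c H x y z))]
  have e1 : ∑ x : V, ∑ x' : V, ind (x = x') = n := by
    have : ∀ y : V, ∑ z : V, ind (y = z) = 1 := fun y => sum_ind_eq' y
    simp only [this, hn]
  rw [e1]
  unfold er B5 WD
  ring

theorem EE_types (v : V) (k : Fin 3) (b b' : V) :
    EE c H v k k = ∑ t : Bool × Bool, ∑ s : Bool × Bool, EX c H v k b b' t s := by
  unfold EE EX
  have key : ∀ y z, ind ((c y = k ∧ c z = k) ∧ H v y z) =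
      ∑ t : Bool × Bool, ∑ s : Bool × Bool,
        ind ((Xt c H v k b b' t y ∧ Xt c H v k b b' s z) ∧ H v y z) := by
    intro y z
    rw [sum_eq_single (decide (H v y b), decide (H v y b'))]
    · rw [sum_eq_single (decide (H v z b), decide (H v z b'))]
      · refine ind_congr ?_
        unfold Xt
        simp only [decide_eq_true_eq]
        tauto
      · intro s _ hs
        refine ind_f fun h => hs ?_
        obtain ⟨⟨-, -, h1, h2⟩, -⟩ := h
        refine Prod.ext ?_ ?_
        · show s.1 = decide (H v z b)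
          by_cases h3 : H v z b
          · rw [h1.1 h3, decide_eq_true h3]
          · have : ¬ s.1 = true := fun h4 => h3 (h1.2 h4)
            rw [decide_eq_false h3]; simpa using this
        · show s.2 = decide (H v z b')
          by_cases h3 : H v z b'
          · rw [h2.1 h3, decide_eq_true h3]
          · have : ¬ s.2 = true := fun h4 => h3 (h2.2 h4)
            rw [decide_eq_false h3]; simpa using this
      · intro h; exact absurd (mem_univ _) h
    · intro s _ hs
      refine sum_eq_zero fun r _ => ind_f fun h => hs ?_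
      obtain ⟨⟨⟨-, h1, h2⟩, -⟩, -⟩ := h
      refine Prod.ext ?_ ?_
      · show s.1 = decide (H v y b)
        by_cases h3 : H v y b
        · rw [h1.1 h3, decide_eq_true h3]
        · have : ¬ s.1 = true := fun h4 => h3 (h1.2 h4)
          rw [decide_eq_false h3]; simpa using this
      · show s.2 = decide (H v y b')
        by_cases h3 : H v y b'
        · rw [h2.1 h3, decide_eq_true h3]
        · have : ¬ s.2 = true := fun h4 => h3 (h2.2 h4)
          rw [decide_eq_false h3]; simpa using this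
    · intro h; exact absurd (mem_univ _) h
  rw [sum_congr rfl fun y _ => sum_congr rfl fun z _ => key y z]
  have e2 : ∀ y, ∑ z, ∑ t : Bool × Bool, ∑ s : Bool × Bool,
        ind ((Xt c H v k b b' t y ∧ Xt c H v k b b' s z) ∧ H v y z) =
      ∑ t : Bool × Bool, ∑ s : Bool × Bool, ∑ z,
        ind ((Xt c H v k b b' t y ∧ Xt c H v k b b' s z) ∧ H v y z) := by
    intro y
    rw [sum_comm]
    exact sum_congr rfl fun p _ => sum_comm
  rw [sum_congr rfl fun y _ => e2 y, sum_comm]
  exact sum_congr rfl fun p _ => sum_comm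

/-- link edges inside two consecutive classes -/
theorem prod54 (S : Sys c H) (hn : ∑ _x : V, (1 : ℝ) = n) (v : V) (k : Fin 3) :
    EE c H v k k ^ 4 * EE c H v (k + 1) (k + 1) ≤
      65536 * (n ^ 6 * (2 * n ^ 3 + 12 * (n * WD c H) + 3 * B5 H v)) := by
  have hn0 := n_nonneg hn
  have hW0 := WD_nonneg (c := c) (H := H)
  have hB0 : 0 ≤ B5 H v := sum_nonneg' fun _ => sum_nonneg' fun _ => sum_nonneg' fun _ =>
    sum_nonneg' fun _ => ind_nonneg _
  -- for every edge
  have h1 : ∀ b b', (c b = k + 1 ∧ c b' = k + 1) ∧ H v b b' →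
      EE c H v k k ^ 4 ≤ 65536 * (n ^ 4 * (2 * n ^ 3 + 2 * (n ^ 2 * er c H v b b') +
        4 * (n * WD c H) + B5 H v)) := by
    rintro b b' ⟨⟨hb, hb'⟩, hbb⟩
    set M : ℝ := n ^ 4 * (2 * n ^ 3 + 2 * (n ^ 2 * er c H v b b') + 4 * (n * WD c H) + B5 H v)
      with hM
    have h2 : ∀ t s, EX c H v k b b' t s ^ 4 ≤ M := fun t s => EX_four S hn hb hb' hbb t s
    rw [EE_types v k b b']
    have hc : #(univ : Finset ((Bool × Bool) × (Bool × Bool))) = 16 := by decide
    have e1 : ∑ t : Bool × Bool, ∑ s : Bool × Bool, EX c H v k b b' t s =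
        ∑ p : (Bool × Bool) × (Bool × Bool), EX c H v k b b' p.1 p.2 :=
      (Fintype.sum_prod_type (fun p : (Bool × Bool) × (Bool × Bool) =>
        EX c H v k b b' p.1 p.2)).symm
    rw [e1]
    have g1 := sq_sum_le_card_mul_sum_sq (s := (univ : Finset ((Bool × Bool) × (Bool × Bool))))
      (f := fun p => EX c H v k b b' p.1 p.2)
    have g2 := sq_sum_le_card_mul_sum_sq (s := (univ : Finset ((Bool × Bool) × (Bool × Bool))))
      (f := fun p => EX c H v k b b' p.1 p.2 ^ 2)
    rw [hc] at g1 g2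
    have g3 : ∑ p : (Bool × Bool) × (Bool × Bool), (EX c H v k b b' p.1 p.2 ^ 2) ^ 2 ≤ 16 * M := by
      have : ∑ p : (Bool × Bool) × (Bool × Bool), (EX c H v k b b' p.1 p.2 ^ 2) ^ 2 ≤
          ∑ _p : (Bool × Bool) × (Bool × Bool), M := by
        refine sum_le_sum fun p _ => ?_
        have := h2 p.1 p.2
        calc (EX c H v k b b' p.1 p.2 ^ 2) ^ 2 = EX c H v k b b' p.1 p.2 ^ 4 := by ring
          _ ≤ M := this
      refine this.trans (le_of_eq ?_)
      rw [sum_const, hc]; simp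
    set A : ℝ := ∑ p : (Bool × Bool) × (Bool × Bool), EX c H v k b b' p.1 p.2 ^ 2 with hA
    have hA0 : 0 ≤ A := sum_nonneg fun p _ => by positivity
    push_cast at g1 g2
    have g4 : ((∑ p : (Bool × Bool) × (Bool × Bool), EX c H v k b b' p.1 p.2) ^ 2) ^ 2 ≤
        (16 * A) ^ 2 := pow_le_pow_left₀ (by positivity) g1 2
    have g5 : (∑ p : (Bool × Bool) × (Bool × Bool), EX c H v k b b' p.1 p.2) ^ 4 =
      ((∑ p : (Bool × Bool) × (Bool × Bool), EX c H v k b b' p.1 p.2) ^ 2) ^ 2 := by ring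
    rw [g5]
    nlinarith
  -- multiply and sum
  have h2 : EE c H v k k ^ 4 * EE c H v (k + 1) (k + 1) =
      ∑ b, ∑ b', ind ((c b = k + 1 ∧ c b' = k + 1) ∧ H v b b') * EE c H v k k ^ 4 := by
    rw [mul_comm]
    unfold EE
    simp only [← sum_mul]
  have h3 : ∀ b b', ind ((c b = k + 1 ∧ c b' = k + 1) ∧ H v b b') * EE c H v k k ^ 4 ≤
      65536 * (n ^ 4 * (2 * n ^ 3 + 2 * (n ^ 2 * er c H v b b') + 4 * (n * WD c H) + B5 H v)) := by
    intro b b'
    have he := er_nonneg (c := c) (H := H) v b b'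
    by_cases h : (c b = k + 1 ∧ c b' = k + 1) ∧ H v b b'
    · rw [ind_t h, one_mul]; exact h1 b b' h
    · rw [ind_f h, zero_mul]; positivity
  rw [h2]
  refine (sum_le_sum fun b _ => sum_le_sum fun b' _ => h3 b b').trans ?_
  have h4 := er_sum (c := c) (H := H) hn v
  simp only [← mul_sum, sum_add_distrib, csum hn]
  have h5 : n ^ 4 * n ^ 2 * (∑ b, ∑ b', er c H v b b') ≤
      n ^ 4 * n ^ 2 * (4 * (n * WD c H) + B5 H v) := mul_le_mul_of_nonneg_left h4 (by positivity)
  nlinarith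

end Pool.Agent.Y903.TX
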