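import Pool.Agent.Y903.TX.Link

/-! Links of vertices of a `K_4^3`-free 3-graph near Turán's construction, in which six vertices
rarely span exactly six edges. -/

set_option autoImplicit false
set_option linter.unusedVariables false
set_option linter.unusedSectionVars false

open Finset
open scoped Classical

namespace Pool.Agent.Y903.TX
open Pool.Agent.Y439.Loc hiding sum_nonneg'

variable {V : Type} [Fintype V] {c : V → Fin 3} {H : V → V → V → Prop} {n : ℝ}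

noncomputable def cn (H : V → V → V → Prop) (x y z : V) : ℕ := if H x y z then 1 else 0

theorem cn_t {x y z : V} (h : H x y z) : cn H x y z = 1 := if_pos h
theorem cn_f {x y z : V} (h : ¬ H x y z) : cn H x y z = 0 := if_neg h

/-- number of edges spanned by six vertices -/
noncomputable def c6 (H : V → V → V → Prop) (a b d e f g : V) : ℕ :=
  cn H a b d + cn H a b e + cn H a b f + cn H a b g + cn H a d e + cn H a d f + cn H a d g +
  cn H a e f + cn H a e g + cn H a f g + cn H b d e + cn H b d f + cn H b d g + cn H b e f +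
  cn H b e g + cn H b f g + cn H d e f + cn H d e g + cn H d f g + cn H e f g

/-- six vertices which span exactly six edges -/
def Bd6 (H : V → V → V → Prop) (a b d e f g : V) : Prop :=
  [a, b, d, e, f, g].Nodup ∧ c6 H a b d e f g = 6

/-- number of edges spanned by five vertices -/
noncomputable def c5 (H : V → V → V → Prop) (a b d e f : V) : ℕ :=
  cn H a b d + cn H a b e + cn H a b f + cn H a d e + cn H a d f + cn H a e f + cn H b d e +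
  cn H b d f + cn H b e f + cn H d e f

/-- five vertices which span exactly four edges -/
def Bd5 (H : V → V → V → Prop) (a b d e f : V) : Prop :=
  [a, b, d, e, f].Nodup ∧ c5 H a b d e f = 4

/-- total numbers of ordered tuples -/
noncomputable def N6 (H : V → V → V → Prop) : ℝ :=
  ∑ a, ∑ b, ∑ d, ∑ e, ∑ f, ∑ g, ind (Bd6 H a b d e f g)
noncomputable def N5 (H : V → V → V → Prop) : ℝ :=
  ∑ a, ∑ b, ∑ d, ∑ e, ∑ f, ind (Bd5 H a b d e f)

theorem N6_nonneg : 0 ≤ N6 H := sum_nonneg' fun _ => sum_nonneg' fun _ => sum_nonneg' fun _ =>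
  sum_nonneg' fun _ => sum_nonneg' fun _ => sum_nonneg' fun _ => ind_nonneg _

theorem N5_nonneg : 0 ≤ N5 H := sum_nonneg' fun _ => sum_nonneg' fun _ => sum_nonneg' fun _ =>
  sum_nonneg' fun _ => sum_nonneg' fun _ => ind_nonneg _

section sums
variable {F : V → V → ℝ} {G : V → V → V → ℝ}

theorem csum (hn : ∑ _x : V, (1 : ℝ) = n) (a : ℝ) : ∑ _x : V, a = n * a := by
  rw [const_sum, hn, mul_comm]

theorem s12 (hn : ∑ _x : V, (1 : ℝ) = n) :
    ∑ a, ∑ b, ∑ _d : V, ∑ _e : V, F a b = n ^ 2 * ∑ a, ∑ b, F a b := by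
  simp only [csum hn, ← mul_sum]; ring
theorem s13 (hn : ∑ _x : V, (1 : ℝ) = n) :
    ∑ a, ∑ _b : V, ∑ d, ∑ _e : V, F a d = n ^ 2 * ∑ a, ∑ b, F a b := by
  simp only [csum hn, ← mul_sum]; ring
theorem s14 (hn : ∑ _x : V, (1 : ℝ) = n) :
    ∑ a, ∑ _b : V, ∑ _d : V, ∑ e, F a e = n ^ 2 * ∑ a, ∑ b, F a b := by
  simp only [csum hn, ← mul_sum]; ring
theorem s23 (hn : ∑ _x : V, (1 : ℝ) = n) :
    ∑ _a : V, ∑ b, ∑ d, ∑ _e : V, F b d = n ^ 2 * ∑ a, ∑ b, F a b := by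
  simp only [csum hn, ← mul_sum]; ring
theorem s24 (hn : ∑ _x : V, (1 : ℝ) = n) :
    ∑ _a : V, ∑ b, ∑ _d : V, ∑ e, F b e = n ^ 2 * ∑ a, ∑ b, F a b := by
  simp only [csum hn, ← mul_sum]; ring
theorem s34 (hn : ∑ _x : V, (1 : ℝ) = n) :
    ∑ _a : V, ∑ _b : V, ∑ d, ∑ e, F d e = n ^ 2 * ∑ a, ∑ b, F a b := by
  simp only [csum hn, ← mul_sum]; ring
theorem t123 (hn : ∑ _x : V, (1 : ℝ) = n) :
    ∑ a, ∑ b, ∑ d, ∑ _e : V, G a b d = n * ∑ a, ∑ b, ∑ d, G a b d := by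
  simp only [csum hn, ← mul_sum]
theorem t124 (hn : ∑ _x : V, (1 : ℝ) = n) :
    ∑ a, ∑ b, ∑ _d : V, ∑ e, G a b e = n * ∑ a, ∑ b, ∑ d, G a b d := by
  simp only [csum hn, ← mul_sum]
theorem t134 (hn : ∑ _x : V, (1 : ℝ) = n) :
    ∑ a, ∑ _b : V, ∑ d, ∑ e, G a d e = n * ∑ a, ∑ b, ∑ d, G a b d := by
  simp only [csum hn, ← mul_sum]
theorem t234 (hn : ∑ _x : V, (1 : ℝ) = n) :
    ∑ _a : V, ∑ b, ∑ d, ∑ e, G b d e = n * ∑ a, ∑ b, ∑ d, G a b d := by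
  simp only [csum hn, ← mul_sum]

end sums

/-- a vertex adjacent to `b` but not to `b'` -/
def Pz (c : V → Fin 3) (H : V → V → V → Prop) (v : V) (k : Fin 3) (b b' y : V) : Prop :=
  (c b = k + 1 ∧ c b' = k + 1) ∧ c y = k ∧ H v y b ∧ ¬ H v y b'

/-- errors at a pair -/
def Uz (c : V → Fin 3) (H : V → V → V → Prop) (b b' y z : V) : Prop :=
  y = z ∨ Df c H y z b ∨ Df c H y z b'

noncomputable def zf (c : V → Fin 3) (H : V → V → V → Prop) (v : V) (k : Fin 3) (b b' : V) : ℝ :=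
  ∑ y, ind (Pz c H v k b b' y)

noncomputable def ZZ (c : V → Fin 3) (H : V → V → V → Prop) (v : V) (k : Fin 3) : ℝ :=
  ∑ b, ∑ b', zf c H v k b b'

theorem zf_nonneg (v : V) (k : Fin 3) (b b' : V) : 0 ≤ zf c H v k b b' :=
  sum_nonneg' fun _ => ind_nonneg _

theorem ZZ_nonneg (v : V) (k : Fin 3) : 0 ≤ ZZ c H v k :=
  sum_nonneg' fun _ => sum_nonneg' fun _ => zf_nonneg _ _ _ _

theorem pow4 (f : V → ℝ) :
    (∑ y, f y) ^ 4 = ∑ a, ∑ b, ∑ d, ∑ e, f a * f b * f d * f e := by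
  have h2 : (∑ y, f y) ^ 2 = ∑ a, ∑ b, f a * f b := by rw [sq, sum_mul_sum]
  have : (∑ y, f y) ^ 4 = (∑ y, f y) ^ 2 * ∑ y, f y * ∑ z, f z := by
    rw [← sum_mul]; ring
  rw [this, h2, sum_mul]
  refine sum_congr rfl fun a _ => ?_
  rw [sum_mul]
  refine sum_congr rfl fun b _ => ?_
  rw [mul_sum]
  refine sum_congr rfl fun d _ => ?_
  rw [mul_sum, mul_sum]
  refine sum_congr rfl fun e _ => ?_
  ring

/-- the six vertices span exactly six edges -/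
theorem six_edges (S : Sys c H) {v b b' y1 y2 y3 y4 : V} {k : Fin 3}
    (h1 : Pz c H v k b b' y1) (h2 : Pz c H v k b b' y2) (h3 : Pz c H v k b b' y3)
    (h4 : Pz c H v k b b' y4) (u12 : ¬ Uz c H b b' y1 y2) (u13 : ¬ Uz c H b b' y1 y3)
    (u14 : ¬ Uz c H b b' y1 y4) (u23 : ¬ Uz c H b b' y2 y3) (u24 : ¬ Uz c H b b' y2 y4)
    (u34 : ¬ Uz c H b b' y3 y4) (w123 : ¬ Df c H y1 y2 y3) (w124 : ¬ Df c H y1 y2 y4)
    (w134 : ¬ Df c H y1 y3 y4) (w234 : ¬ Df c H y2 y3 y4) (hb : ¬ b' = v) :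
    Bd6 H v y1 y2 y3 y4 b' := by
  have pair : ∀ y z, Pz c H v k b b' y → Pz c H v k b b' z → ¬ Uz c H b b' y z →
      y ≠ z ∧ ¬ H v y z ∧ H y z b' := by
    intro y z hy hz hu
    unfold Uz at hu
    push Not at hu
    obtain ⟨e1, e2, e3⟩ := hu
    have t1 : Tu c y z b := tu_two (by rw [hz.2.1, hy.2.1]) (by rw [hy.1.1, hy.2.1]) e1
    have t2 : Tu c y z b' := tu_two (by rw [hz.2.1, hy.2.1]) (by rw [hy.1.2, hy.2.1]) e1
    unfold Df at e2 e3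
    push Not at e2 e3
    have g1 : H y z b := e2.2 t1
    have g2 : H y z b' := e3.2 t2
    exact ⟨e1, fun h => S.k4 v y z b h hy.2.2.1 hz.2.2.1 g1, g2⟩
  have trip : ∀ x y z, Pz c H v k b b' x → Pz c H v k b b' y → Pz c H v k b b' z →
      ¬ Df c H x y z → ¬ H x y z := by
    intro x y z hx hy hz hw
    unfold Df at hw
    push Not at hw
    exact fun h => tu_mono (by rw [hy.2.1, hx.2.1]) (by rw [hz.2.1, hx.2.1]) (hw.1 h)
  have hv : ∀ y, Pz c H v k b b' y → v ≠ y := fun y hy => S.ne _ _ _ hy.2.2.1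
  have hbb : ∀ y, Pz c H v k b b' y → y ≠ b' := by
    intro y hy h
    have a1 := hy.2.1
    have a2 := hy.1.2
    rw [h, a2] at a1
    exact fin3_ne1 k a1.symm
  obtain ⟨n12, l12, g12⟩ := pair y1 y2 h1 h2 u12
  obtain ⟨n13, l13, g13⟩ := pair y1 y3 h1 h3 u13
  obtain ⟨n14, l14, g14⟩ := pair y1 y4 h1 h4 u14
  obtain ⟨n23, l23, g23⟩ := pair y2 y3 h2 h3 u23
  obtain ⟨n24, l24, g24⟩ := pair y2 y4 h2 h4 u24
  obtain ⟨n34, l34, g34⟩ := pair y3 y4 h3 h4 u34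
  have m123 := trip _ _ _ h1 h2 h3 w123
  have m124 := trip _ _ _ h1 h2 h4 w124
  have m134 := trip _ _ _ h1 h3 h4 w134
  have m234 := trip _ _ _ h2 h3 h4 w234
  refine ⟨?_, ?_⟩
  · simp only [List.nodup_cons, List.mem_cons, List.not_mem_nil, or_false, not_or,
      not_false_eq_true, List.nodup_nil, and_true]
    exact ⟨⟨hv _ h1, hv _ h2, hv _ h3, hv _ h4, fun h => hb h.symm⟩, ⟨n12, n13, n14, hbb _ h1⟩,
      ⟨n23, n24, hbb _ h2⟩, ⟨n34, hbb _ h3⟩, hbb _ h4⟩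
  · unfold c6
    rw [cn_f l12, cn_f l13, cn_f l14, cn_f h1.2.2.2, cn_f l23, cn_f l24, cn_f h2.2.2.2, cn_f l34,
      cn_f h3.2.2.2, cn_f h4.2.2.2, cn_f m123, cn_f m124, cn_t g12, cn_f m134, cn_t g13, cn_t g14,
      cn_f m234, cn_t g23, cn_t g24, cn_t g34]

/-- the error terms at a pair -/
theorem Usum (hn : ∑ _x : V, (1 : ℝ) = n) :
    ∑ b, ∑ b', ∑ y, ∑ z, ind (Uz c H b b' y z) ≤ n ^ 3 + 2 * (n * WD c H) := by
  have h1 : ∀ b b' y z : V, ind (Uz c H b b' y z) ≤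
      ind (y = z) + ind (Df c H y z b) + ind (Df c H y z b') := fun b b' y z => ind_or3 fun h => h
  have h2 : ∑ b, ∑ b', ∑ y, ∑ z, ind (Uz c H b b' y z) ≤
      ∑ b, ∑ b', ∑ y, ∑ z, (ind (y = z) + ind (Df c H y z b) + ind (Df c H y z b')) :=
    sum_le_sum fun b _ => sum_le_sum fun b' _ => sum_le_sum fun y _ => sum_le_sum fun z _ =>
      h1 b b' y z
  refine h2.trans (le_of_eq ?_)
  simp only [sum_add_distrib]
  have e0 : WD c H = ∑ b, ∑ y, ∑ z, ind (Df c H y z b) := by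
    unfold WD
    have : ∀ x, ∑ y, ∑ z, ind (Df c H x y z) = ∑ z, ∑ y, ind (Df c H x y z) := fun x => sum_comm
    rw [sum_congr rfl fun x _ => this x, sum_comm]
  have e1 : ∑ _b : V, ∑ _b' : V, ∑ y : V, ∑ z : V, ind (y = z) = n ^ 3 := by
    have : ∀ y : V, ∑ z : V, ind (y = z) = 1 := fun y => sum_ind_eq' y
    simp only [this, hn, csum hn]; ring
  have e2 : ∑ b, ∑ _b' : V, ∑ y, ∑ z, ind (Df c H y z b) = n * WD c H := by
    rw [e0]
    simp only [csum hn, ← mul_sum]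
  have e3 : ∑ _b : V, ∑ b', ∑ y, ∑ z, ind (Df c H y z b') = n * WD c H := by
    rw [e0]
    simp only [csum hn]
  rw [e1, e2, e3]
  ring

/-- the number of tuples with exactly six edges at a vertex -/
noncomputable def B6 (H : V → V → V → Prop) (v : V) : ℝ :=
  ∑ b', ∑ y1, ∑ y2, ∑ y3, ∑ y4, ind (Bd6 H v y1 y2 y3 y4 b')

theorem prod4 {p q r s : Prop} {E : ℝ} (h0 : 0 ≤ E) (h : p → q → r → s → 1 ≤ E) :
    ind p * ind q * ind r * ind s ≤ E := by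
  by_cases h1 : p
  · by_cases h2 : q
    · by_cases h3 : r
      · by_cases h4 : s
        · rw [ind_t h1, ind_t h2, ind_t h3, ind_t h4]
          simpa using h h1 h2 h3 h4
        · rw [ind_f h4, mul_zero]; exact h0
      · rw [ind_f h3, mul_zero, zero_mul]; exact h0
    · rw [ind_f h2, mul_zero, zero_mul, zero_mul]; exact h0
  · rw [ind_f h1, zero_mul, zero_mul, zero_mul]; exact h0

theorem pointwise (S : Sys c H) (v : V) (k : Fin 3) (b b' y1 y2 y3 y4 : V) :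
    ind (Pz c H v k b b' y1) * ind (Pz c H v k b b' y2) * ind (Pz c H v k b b' y3) *
      ind (Pz c H v k b b' y4) ≤
    ind (Uz c H b b' y1 y2) + ind (Uz c H b b' y1 y3) + ind (Uz c H b b' y1 y4) +
    ind (Uz c H b b' y2 y3) + ind (Uz c H b b' y2 y4) + ind (Uz c H b b' y3 y4) +
    ind (Df c H y1 y2 y3) + ind (Df c H y1 y2 y4) + ind (Df c H y1 y3 y4) +
    ind (Df c H y2 y3 y4) + ind (b' = v) + ind (Bd6 H v y1 y2 y3 y4 b') := by
  have a1 := ind_nonneg (Uz c H b b' y1 y2)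
  have a2 := ind_nonneg (Uz c H b b' y1 y3)
  have a3 := ind_nonneg (Uz c H b b' y1 y4)
  have a4 := ind_nonneg (Uz c H b b' y2 y3)
  have a5 := ind_nonneg (Uz c H b b' y2 y4)
  have a6 := ind_nonneg (Uz c H b b' y3 y4)
  have a7 := ind_nonneg (Df c H y1 y2 y3)
  have a8 := ind_nonneg (Df c H y1 y2 y4)
  have a9 := ind_nonneg (Df c H y1 y3 y4)
  have a10 := ind_nonneg (Df c H y2 y3 y4)
  have a11 := ind_nonneg (b' = v)
  have a12 := ind_nonneg (Bd6 H v y1 y2 y3 y4 b')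
  refine prod4 (by linarith) fun h1 h2 h3 h4 => ?_
  by_cases g1 : Uz c H b b' y1 y2
  · rw [ind_t g1]; linarith
  by_cases g2 : Uz c H b b' y1 y3
  · rw [ind_t g2]; linarith
  by_cases g3 : Uz c H b b' y1 y4
  · rw [ind_t g3]; linarith
  by_cases g4 : Uz c H b b' y2 y3
  · rw [ind_t g4]; linarith
  by_cases g5 : Uz c H b b' y2 y4
  · rw [ind_t g5]; linarith
  by_cases g6 : Uz c H b b' y3 y4
  · rw [ind_t g6]; linarith
  by_cases g7 : Df c H y1 y2 y3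
  · rw [ind_t g7]; linarith
  by_cases g8 : Df c H y1 y2 y4
  · rw [ind_t g8]; linarith
  by_cases g9 : Df c H y1 y3 y4
  · rw [ind_t g9]; linarith
  by_cases g10 : Df c H y2 y3 y4
  · rw [ind_t g10]; linarith
  by_cases g11 : b' = v
  · rw [ind_t g11]; linarith
  have g12 := six_edges S h1 h2 h3 h4 g1 g2 g3 g4 g5 g6 g7 g8 g9 g10 g11
  rw [ind_t g12]; linarith

/-- sum of the fourth powers -/
theorem Z4a (S : Sys c H) (hn : ∑ _x : V, (1 : ℝ) = n) (v : V) (k : Fin 3) :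
    ∑ b, ∑ b', zf c H v k b b' ^ 4 ≤
      7 * n ^ 5 + 16 * (n ^ 3 * WD c H) + n * B6 H v := by
  have hn0 := n_nonneg hn
  have h1 : ∀ b b', zf c H v k b b' ^ 4 ≤ ∑ y1, ∑ y2, ∑ y3, ∑ y4,
      (ind (Uz c H b b' y1 y2) + ind (Uz c H b b' y1 y3) + ind (Uz c H b b' y1 y4) +
      ind (Uz c H b b' y2 y3) + ind (Uz c H b b' y2 y4) + ind (Uz c H b b' y3 y4) +
      ind (Df c H y1 y2 y3) + ind (Df c H y1 y2 y4) + ind (Df c H y1 y3 y4) +
      ind (Df c H y2 y3 y4) + ind (b' = v) + ind (Bd6 H v y1 y2 y3 y4 b')) := by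
    intro b b'
    unfold zf
    rw [pow4]
    exact sum_le_sum fun y1 _ => sum_le_sum fun y2 _ => sum_le_sum fun y3 _ =>
      sum_le_sum fun y4 _ => pointwise S v k b b' y1 y2 y3 y4
  have h2 : ∀ b b', zf c H v k b b' ^ 4 ≤ 6 * (n ^ 2 * ∑ y, ∑ z, ind (Uz c H b b' y z)) +
      4 * (n * WD c H) + n ^ 4 * ind (b' = v) +
      ∑ y1, ∑ y2, ∑ y3, ∑ y4, ind (Bd6 H v y1 y2 y3 y4 b') := by
    intro b b'
    refine (h1 b b').trans (le_of_eq ?_)
    simp only [sum_add_distrib]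
    rw [s12 hn (F := fun y z => ind (Uz c H b b' y z)), s13 hn (F := fun y z => ind (Uz c H b b' y z)),
      s14 hn (F := fun y z => ind (Uz c H b b' y z)), s23 hn (F := fun y z => ind (Uz c H b b' y z)),
      s24 hn (F := fun y z => ind (Uz c H b b' y z)), s34 hn (F := fun y z => ind (Uz c H b b' y z)),
      t123 hn (G := fun x y z => ind (Df c H x y z)), t124 hn (G := fun x y z => ind (Df c H x y z)),
      t134 hn (G := fun x y z => ind (Df c H x y z)), t234 hn (G := fun x y z => ind (Df c H x y z))]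
    have e1 : ∑ _y1 : V, ∑ _y2 : V, ∑ _y3 : V, ∑ _y4 : V, ind (b' = v) = n ^ 4 * ind (b' = v) := by
      simp only [csum hn]; ring
    rw [e1]
    unfold WD
    ring
  have h3 : ∑ b, ∑ b', zf c H v k b b' ^ 4 ≤ ∑ b, ∑ b',
      (6 * (n ^ 2 * ∑ y, ∑ z, ind (Uz c H b b' y z)) + 4 * (n * WD c H) + n ^ 4 * ind (b' = v) +
      ∑ y1, ∑ y2, ∑ y3, ∑ y4, ind (Bd6 H v y1 y2 y3 y4 b')) :=
    sum_le_sum fun b _ => sum_le_sum fun b' _ => h2 b b'
  refine h3.trans ?_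
  simp only [sum_add_distrib, ← mul_sum, csum hn]
  have e1 : ∑ b' : V, ind (b' = v) = 1 := sum_ind_eq v
  rw [e1]
  have h4 := Usum (c := c) (H := H) hn
  have h5 : n ^ 2 * ∑ b, ∑ b', ∑ y, ∑ z, ind (Uz c H b b' y z) ≤
      n ^ 2 * (n ^ 3 + 2 * (n * WD c H)) := mul_le_mul_of_nonneg_left h4 (by positivity)
  have h6 : B6 H v = ∑ b', ∑ y1, ∑ y2, ∑ y3, ∑ y4, ind (Bd6 H v y1 y2 y3 y4 b') := rfl
  rw [← h6]
  nlinarith

/-- the neighbourhoods of the vertices of a class are nearly equal -/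
theorem Z4 (S : Sys c H) (hn : ∑ _x : V, (1 : ℝ) = n) (v : V) (k : Fin 3) :
    ZZ c H v k ^ 4 ≤ n ^ 6 * (7 * n ^ 5 + 16 * (n ^ 3 * WD c H) + n * B6 H v) := by
  have hn0 := n_nonneg hn
  have hc : (#(univ : Finset (V × V)) : ℝ) = n ^ 2 := by
    rw [card_univ, Fintype.card_prod]
    push_cast
    rw [card_sq hn]; ring
  have e1 : ZZ c H v k = ∑ p : V × V, zf c H v k p.1 p.2 := by
    rw [Fintype.sum_prod_type]; rfl
  have e4 : ∑ b, ∑ b', zf c H v k b b' ^ 4 = ∑ p : V × V, (zf c H v k p.1 p.2 ^ 2) ^ 2 := by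
    rw [Fintype.sum_prod_type]
    exact sum_congr rfl fun b _ => sum_congr rfl fun b' _ => by ring
  have g1 := sq_sum_le_card_mul_sum_sq (s := (univ : Finset (V × V)))
    (f := fun p => zf c H v k p.1 p.2)
  have g2 := sq_sum_le_card_mul_sum_sq (s := (univ : Finset (V × V)))
    (f := fun p => zf c H v k p.1 p.2 ^ 2)
  rw [hc] at g1 g2
  rw [← e1] at g1
  rw [← e4] at g2
  have g3 := Z4a S hn v k
  set A : ℝ := ∑ p : V × V, zf c H v k p.1 p.2 ^ 2 with hA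
  have hA0 : 0 ≤ A := sum_nonneg fun p _ => by positivity
  have g4 : (ZZ c H v k ^ 2) ^ 2 ≤ (n ^ 2 * A) ^ 2 := pow_le_pow_left₀ (by positivity) g1 2
  calc ZZ c H v k ^ 4 = (ZZ c H v k ^ 2) ^ 2 := by ring
    _ ≤ (n ^ 2 * A) ^ 2 := g4
    _ = n ^ 4 * A ^ 2 := by ring
    _ ≤ n ^ 4 * (n ^ 2 * ∑ b, ∑ b', zf c H v k b b' ^ 4) :=
        mul_le_mul_of_nonneg_left g2 (by positivity)
    _ ≤ n ^ 4 * (n ^ 2 * (7 * n ^ 5 + 16 * (n ^ 3 * WD c H) + n * B6 H v)) :=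
        mul_le_mul_of_nonneg_left (mul_le_mul_of_nonneg_left g3 (by positivity)) (by positivity)
    _ = _ := by ring

/-- the triangles of the link -/
theorem tri_le (S : Sys c H) (v : V) :
    ∑ a, ∑ b, ∑ d, ind ((c a = 0 ∧ c b = 1 ∧ c d = 2) ∧ H v a b ∧ H v b d ∧ H v d a) ≤ WD c H := by
  unfold WD
  refine sum_le_sum fun a _ => sum_le_sum fun b _ => sum_le_sum fun d _ => ind_mono ?_
  rintro ⟨⟨h0, h1, h2⟩, h3, h4, h5⟩
  exact abd S (by rw [h0, h1]; rfl) (by rw [h0, h2]; rfl) h3 h4 (S.s2 _ _ _ h5)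

/-- the densities between the classes: one of them is small -/
theorem prod_small (S : Sys c H) (hn : ∑ _x : V, (1 : ℝ) = n) (v : V) :
    EE c H v 0 1 * EE c H v 1 2 * EE c H v 2 0 ≤
      n ^ 3 * (WD c H + ZZ c H v 0 + ZZ c H v 1 + ZZ c H v 2) := by
  have e1 : EE c H v 0 1 * EE c H v 1 2 * EE c H v 2 0 =
      ∑ a, ∑ b, ∑ b1, ∑ d, ∑ d1, ∑ a1, ind ((c a = 0 ∧ c b = 1) ∧ H v a b) *
        ind ((c b1 = 1 ∧ c d = 2) ∧ H v b1 d) * ind ((c d1 = 2 ∧ c a1 = 0) ∧ H v d1 a1) := by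
    unfold EE
    simp only [← mul_sum, ← sum_mul]
  have h1 : ∀ a b b1 d d1 a1, ind ((c a = 0 ∧ c b = 1) ∧ H v a b) *
        ind ((c b1 = 1 ∧ c d = 2) ∧ H v b1 d) * ind ((c d1 = 2 ∧ c a1 = 0) ∧ H v d1 a1) ≤
      ind ((c a = 0 ∧ c b1 = 1 ∧ c d1 = 2) ∧ H v a b1 ∧ H v b1 d1 ∧ H v d1 a) +
        ind (Pz c H v 0 b b1 a) + ind (Pz c H v 1 d d1 b1) + ind (Pz c H v 2 a1 a d1) := by
    intro a b b1 d d1 a1
    have q1 := ind_nonneg ((c a = 0 ∧ c b1 = 1 ∧ c d1 = 2) ∧ H v a b1 ∧ H v b1 d1 ∧ H v d1 a)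
    have q2 := ind_nonneg (Pz c H v 0 b b1 a)
    have q3 := ind_nonneg (Pz c H v 1 d d1 b1)
    have q4 := ind_nonneg (Pz c H v 2 a1 a d1)
    rw [ind_mul, ind_mul]
    by_cases h : (((c a = 0 ∧ c b = 1) ∧ H v a b) ∧ (c b1 = 1 ∧ c d = 2) ∧ H v b1 d) ∧
        (c d1 = 2 ∧ c a1 = 0) ∧ H v d1 a1
    · rw [ind_t h]
      obtain ⟨⟨⟨⟨x1, x2⟩, x3⟩, ⟨x4, x5⟩, x6⟩, ⟨x7, x8⟩, x9⟩ := h
      by_cases g1 : H v a b1
      · by_cases g2 : H v b1 d1
        · by_cases g3 : H v d1 a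
          · rw [ind_t (⟨⟨x1, x4, x7⟩, g1, g2, g3⟩ :
              (c a = 0 ∧ c b1 = 1 ∧ c d1 = 2) ∧ H v a b1 ∧ H v b1 d1 ∧ H v d1 a)]
            linarith
          · have w : Pz c H v 2 a1 a d1 := ⟨⟨by rw [x8]; rfl, by rw [x1]; rfl⟩, x7, x9, g3⟩
            rw [ind_t w]
            linarith
        · have w : Pz c H v 1 d d1 b1 := ⟨⟨by rw [x5]; rfl, by rw [x7]; rfl⟩, x4, x6, g2⟩
          rw [ind_t w]
          linarith
      · have w : Pz c H v 0 b b1 a := ⟨⟨by rw [x2]; rfl, by rw [x4]; rfl⟩, x1, x3, g1⟩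
        rw [ind_t w]
        linarith
    · rw [ind_f h]; linarith
  rw [e1]
  have h2 : ∑ a, ∑ b, ∑ b1, ∑ d, ∑ d1, ∑ a1, ind ((c a = 0 ∧ c b = 1) ∧ H v a b) *
        ind ((c b1 = 1 ∧ c d = 2) ∧ H v b1 d) * ind ((c d1 = 2 ∧ c a1 = 0) ∧ H v d1 a1) ≤
      ∑ a, ∑ b, ∑ b1, ∑ d, ∑ d1, ∑ a1,
      (ind ((c a = 0 ∧ c b1 = 1 ∧ c d1 = 2) ∧ H v a b1 ∧ H v b1 d1 ∧ H v d1 a) +
        ind (Pz c H v 0 b b1 a) + ind (Pz c H v 1 d d1 b1) + ind (Pz c H v 2 a1 a d1)) :=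
    sum_le_sum fun a _ => sum_le_sum fun b _ => sum_le_sum fun b1 _ => sum_le_sum fun d _ =>
      sum_le_sum fun d1 _ => sum_le_sum fun a1 _ => h1 a b b1 d d1 a1
  refine h2.trans ?_
  simp only [sum_add_distrib]
  have hn0 := n_nonneg hn
  have z0 : ∑ a, ∑ b, ∑ b1, ∑ _d : V, ∑ _d1 : V, ∑ _a1 : V, ind (Pz c H v 0 b b1 a) =
      n ^ 3 * ZZ c H v 0 := by
    have : ZZ c H v 0 = ∑ a, ∑ b, ∑ b1, ind (Pz c H v 0 b b1 a) := by
      unfold ZZ zf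
      have : ∀ b, ∑ b1, ∑ a, ind (Pz c H v 0 b b1 a) = ∑ a, ∑ b1, ind (Pz c H v 0 b b1 a) :=
        fun b => sum_comm
      rw [sum_congr rfl fun b _ => this b, sum_comm]
    rw [this]
    simp only [csum hn, ← mul_sum]; ring
  have z1 : ∑ _a : V, ∑ _b : V, ∑ b1, ∑ d, ∑ d1, ∑ _a1 : V, ind (Pz c H v 1 d d1 b1) =
      n ^ 3 * ZZ c H v 1 := by
    have : ZZ c H v 1 = ∑ a, ∑ b, ∑ b1, ind (Pz c H v 1 b b1 a) := by
      unfold ZZ zf
      have : ∀ b, ∑ b1, ∑ a, ind (Pz c H v 1 b b1 a) = ∑ a, ∑ b1, ind (Pz c H v 1 b b1 a) :=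
        fun b => sum_comm
      rw [sum_congr rfl fun b _ => this b, sum_comm]
    rw [this]
    simp only [csum hn, ← mul_sum]; ring
  have z2 : ∑ a, ∑ _b : V, ∑ _b1 : V, ∑ _d : V, ∑ d1, ∑ a1, ind (Pz c H v 2 a1 a d1) =
      n ^ 3 * ZZ c H v 2 := by
    have : ZZ c H v 2 = ∑ a, ∑ d1, ∑ a1, ind (Pz c H v 2 a1 a d1) := by
      unfold ZZ zf
      rw [sum_comm]
      exact sum_congr rfl fun a _ => sum_comm
    rw [this]
    simp only [csum hn, ← mul_sum]; ring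
  have w0 : ∑ a, ∑ _b : V, ∑ b1, ∑ _d : V, ∑ d1, ∑ _a1 : V,
      ind ((c a = 0 ∧ c b1 = 1 ∧ c d1 = 2) ∧ H v a b1 ∧ H v b1 d1 ∧ H v d1 a) ≤
      n ^ 3 * WD c H := by
    simp only [csum hn, ← mul_sum]
    have := tri_le S v
    have h3 : 0 ≤ n ^ 3 := by positivity
    have := mul_le_mul_of_nonneg_left this h3
    linarith
  rw [z0, z1, z2]
  linarith

end Pool.Agent.Y903.TX
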