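import Pool.Agent.Y439.LocK

/-! Links of vertices of a `K_4^3`-free 3-graph near Turán's construction: general inequalities. -/

set_option autoImplicit false
set_option linter.unusedVariables false
set_option linter.unusedSectionVars false

open Finset
open scoped Classical

namespace Pool.Agent.Y903.TX
open Pool.Agent.Y439.Loc hiding sum_nonneg'

variable {V : Type} [Fintype V] {c : V → Fin 3} {H : V → V → V → Prop} {n : ℝ}

/-- the triple is treated differently by `H` and by Turán's construction -/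
def Df (c : V → Fin 3) (H : V → V → V → Prop) (x y z : V) : Prop := ¬ (H x y z ↔ Tu c x y z)

/-- number of (ordered) differences -/
noncomputable def WD (c : V → Fin 3) (H : V → V → V → Prop) : ℝ :=
  ∑ x, ∑ y, ∑ z, ind (Df c H x y z)

/-- edges of the link of `v` between two classes -/
noncomputable def EE (c : V → Fin 3) (H : V → V → V → Prop) (v : V) (p q : Fin 3) : ℝ :=
  ∑ y, ∑ z, ind ((c y = p ∧ c z = q) ∧ H v y z)

/-- degree of `b` in the link of `v` into a class -/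
noncomputable def dg (c : V → Fin 3) (H : V → V → V → Prop) (v : V) (k : Fin 3) (b : V) : ℝ :=
  ∑ y, ind (c y = k ∧ H v y b)

theorem ind_sq (p : Prop) : ind p ^ 2 = ind p := by
  by_cases h : p <;> simp [ind, h]

theorem ind_mul_self (p : Prop) : ind p * ind p = ind p := by
  by_cases h : p <;> simp [ind, h]

theorem card_sq (hn : ∑ _x : V, (1 : ℝ) = n) : (Fintype.card V : ℝ) = n := by
  rw [← hn]; simp

theorem n_nonneg (hn : ∑ _x : V, (1 : ℝ) = n) : 0 ≤ n := by
  rw [← hn]; exact sum_nonneg' fun _ => zero_le_one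

theorem sz_le (hn : ∑ _x : V, (1 : ℝ) = n) (k : Fin 3) : sz c k ≤ n := by
  rw [← hn]; exact sum_le_sum fun x _ => ind_le_one _

theorem sz_sum (hn : ∑ _x : V, (1 : ℝ) = n) (k : Fin 3) :
    sz c k + sz c (k + 1) + sz c (k + 2) = n := by
  rw [← hn, cardV' (c := c)]
  fin_cases k
  · show sz c 0 + sz c 1 + sz c 2 = _; ring
  · show sz c 1 + sz c 2 + sz c 0 = _; ring
  · show sz c 2 + sz c 0 + sz c 1 = _; ring

theorem WD_nonneg : 0 ≤ WD c H :=
  sum_nonneg' fun _ => sum_nonneg' fun _ => sum_nonneg' fun _ => ind_nonneg _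

theorem WD_wr : WD c H = ∑ v, wr c H v := rfl

theorem EE_nonneg (v : V) (p q : Fin 3) : 0 ≤ EE c H v p q :=
  sum_nonneg' fun _ => sum_nonneg' fun _ => ind_nonneg _

theorem dg_nonneg (v : V) (k : Fin 3) (b : V) : 0 ≤ dg c H v k b :=
  sum_nonneg' fun _ => ind_nonneg _

theorem dg_le (v : V) (k : Fin 3) (b : V) : dg c H v k b ≤ sz c k :=
  sum_le_sum fun y _ => ind_mono fun h => h.1

theorem EE_symm (S : Sys c H) (v : V) (p q : Fin 3) : EE c H v p q = EE c H v q p := by
  unfold EE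
  rw [sum_comm]
  refine sum_congr rfl fun y _ => sum_congr rfl fun z _ => ind_congr ?_
  constructor
  · rintro ⟨⟨h1, h2⟩, h3⟩; exact ⟨⟨h2, h1⟩, S.s2 _ _ _ h3⟩
  · rintro ⟨⟨h1, h2⟩, h3⟩; exact ⟨⟨h2, h1⟩, S.s2 _ _ _ h3⟩

theorem EE_le (v : V) (p q : Fin 3) : EE c H v p q ≤ sz c p * sz c q := by
  unfold EE sz
  rw [sum_mul_sum]
  refine sum_le_sum fun y _ => sum_le_sum fun z _ => ?_
  rw [ind_mul]
  exact ind_mono fun h => h.1

theorem EE_dg (v : V) (p q : Fin 3) :
    EE c H v p q = ∑ b, ind (c b = q) * dg c H v p b := by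
  unfold EE dg
  rw [sum_comm]
  refine sum_congr rfl fun b _ => ?_
  rw [mul_sum]
  refine sum_congr rfl fun y _ => ?_
  rw [ind_mul]
  exact ind_congr ⟨fun h => ⟨h.1.2, h.1.1, h.2⟩, fun h => ⟨⟨h.2.1, h.1⟩, h.2.2⟩⟩

theorem deg_EE (v : V) : deg H v = ∑ p, ∑ q, EE c H v p q := by
  unfold deg EE
  have key : ∀ y z, ind (H v y z) = ∑ p, ∑ q, ind ((c y = p ∧ c z = q) ∧ H v y z) := by
    intro y z
    rw [sum_eq_single (c y)]
    · rw [sum_eq_single (c z)]
      · exact ind_congr (by simp)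
      · intro q _ hq
        exact ind_f fun h => hq h.1.2.symm
      · simp
    · intro p _ hp
      exact sum_eq_zero fun q _ => ind_f fun h => hp h.1.1.symm
    · simp
  have e1 : ∑ y, ∑ z, ind (H v y z) =
      ∑ y, ∑ z, ∑ p, ∑ q, ind ((c y = p ∧ c z = q) ∧ H v y z) :=
    sum_congr rfl fun y _ => sum_congr rfl fun z _ => key y z
  rw [e1]
  have e2 : ∀ y, ∑ z, ∑ p, ∑ q, ind ((c y = p ∧ c z = q) ∧ H v y z) =
      ∑ p, ∑ q, ∑ z, ind ((c y = p ∧ c z = q) ∧ H v y z) := by
    intro y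
    rw [sum_comm]
    exact sum_congr rfl fun p _ => sum_comm
  rw [sum_congr rfl fun y _ => e2 y, sum_comm]
  exact sum_congr rfl fun p _ => sum_comm

theorem deg_split (S : Sys c H) (v : V) (k : Fin 3) :
    deg H v = EE c H v k k + EE c H v (k + 1) (k + 1) + EE c H v (k + 2) (k + 2) +
      2 * (EE c H v k (k + 1) + EE c H v (k + 1) (k + 2) + EE c H v (k + 2) k) := by
  rw [deg_EE (c := c)]
  have h01 := EE_symm S v 0 1
  have h12 := EE_symm S v 1 2
  have h20 := EE_symm S v 2 0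
  fin_cases k
  · show ∑ p, ∑ q, EE c H v p q = EE c H v 0 0 + EE c H v 1 1 + EE c H v 2 2 +
      2 * (EE c H v 0 1 + EE c H v 1 2 + EE c H v 2 0)
    rw [Fin.sum_univ_three, Fin.sum_univ_three, Fin.sum_univ_three, Fin.sum_univ_three]
    linarith
  · show ∑ p, ∑ q, EE c H v p q = EE c H v 1 1 + EE c H v 2 2 + EE c H v 0 0 +
      2 * (EE c H v 1 2 + EE c H v 2 0 + EE c H v 0 1)
    rw [Fin.sum_univ_three, Fin.sum_univ_three, Fin.sum_univ_three, Fin.sum_univ_three]
    linarith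
  · show ∑ p, ∑ q, EE c H v p q = EE c H v 2 2 + EE c H v 0 0 + EE c H v 1 1 +
      2 * (EE c H v 2 0 + EE c H v 0 1 + EE c H v 1 2)
    rw [Fin.sum_univ_three, Fin.sum_univ_three, Fin.sum_univ_three, Fin.sum_univ_three]
    linarith

/-- a link edge inside a class and a common neighbour in the next class -/
theorem aab (S : Sys c H) {v y z b : V} (h1 : c z = c y) (h2 : c b = c y + 1)
    (hyz : H v y z) (hyb : H v y b) (hzb : H v z b) : Df c H y z b := by
  intro h
  have hne : y ≠ z := S.ne23 hyz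
  have ht : Tu c y z b := tu_two h1 h2 hne
  exact S.k4 v y z b hyz hyb hzb (h.2 ht)

/-- a triangle of the link meeting the three classes -/
theorem abd (S : Sys c H) {v a b d : V} (h1 : c b = c a + 1) (h2 : c d = c a + 2)
    (hab : H v a b) (hbd : H v b d) (had : H v a d) : Df c H a b d := by
  intro h
  exact S.k4 v a b d hab had hbd (h.2 (tu_three h1 h2))

/-- inner edges and edges to the next class, first form -/
theorem inner1 (S : Sys c H) (v : V) (k : Fin 3) (b : V) (hb : c b = k + 1) :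
    EE c H v k k + dg c H v k b ^ 2 ≤ sz c k ^ 2 + ∑ y, ∑ z, ind (Df c H y z b) := by
  unfold EE dg sz
  rw [sq, sq, sum_mul_sum, sum_mul_sum, ← sum_add_distrib, ← sum_add_distrib]
  refine sum_le_sum fun y _ => ?_
  rw [← sum_add_distrib, ← sum_add_distrib]
  refine sum_le_sum fun z _ => ?_
  rw [ind_mul, ind_mul]
  by_cases hyz : c y = k ∧ c z = k
  · rw [ind_t hyz]
    by_cases h1 : H v y z
    · by_cases h2 : (c y = k ∧ H v y b) ∧ (c z = k ∧ H v z b)
      · have : Df c H y z b := aab S (by rw [hyz.1, hyz.2]) (by rw [hb, hyz.1]) h1 h2.1.2 h2.2.2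
        rw [ind_t h2, ind_t this]
        have := ind_le_one ((c y = k ∧ c z = k) ∧ H v y z)
        linarith
      · rw [ind_f h2]
        have := ind_le_one ((c y = k ∧ c z = k) ∧ H v y z)
        have := ind_nonneg (Df c H y z b)
        linarith
    · rw [ind_f (fun h => h1 h.2)]
      have := ind_le_one ((c y = k ∧ H v y b) ∧ (c z = k ∧ H v z b))
      have := ind_nonneg (Df c H y z b)
      linarith
  · rw [ind_f hyz, ind_f (fun h => hyz h.1), ind_f (fun h => hyz ⟨h.1.1, h.2.1⟩)]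
    have := ind_nonneg (Df c H y z b)
    linarith

/-- Cauchy–Schwarz on a class -/
theorem cs_class (k : Fin 3) (f : V → ℝ) :
    (∑ b, ind (c b = k) * f b) ^ 2 ≤ sz c k * ∑ b, ind (c b = k) * f b ^ 2 := by
  have h := sum_mul_sq_le_sq_mul_sq univ (fun b => ind (c b = k)) (fun b => ind (c b = k) * f b)
  have e1 : ∀ b, ind (c b = k) * (ind (c b = k) * f b) = ind (c b = k) * f b := by
    intro b; rw [← mul_assoc, ind_mul_self]
  have e2 : ∀ b, (ind (c b = k) * f b) ^ 2 = ind (c b = k) * f b ^ 2 := by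
    intro b; rw [mul_pow, ind_sq]
  rw [sum_congr rfl fun b _ => e1 b, sum_congr rfl fun b _ => e2 b,
    sum_congr rfl fun b _ => ind_sq (c b = k)] at h
  exact h

/-- inner edges and edges to the next class -/
theorem inner2 (S : Sys c H) (v : V) (k : Fin 3) :
    sz c (k + 1) ^ 2 * EE c H v k k + EE c H v k (k + 1) ^ 2 ≤
      sz c (k + 1) ^ 2 * sz c k ^ 2 + sz c (k + 1) * WD c H := by
  have h1 : ∑ b, ind (c b = k + 1) * (EE c H v k k + dg c H v k b ^ 2) ≤
      ∑ b, ind (c b = k + 1) * (sz c k ^ 2 + ∑ y, ∑ z, ind (Df c H y z b)) := by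
    refine sum_le_sum fun b _ => ?_
    by_cases hb : c b = k + 1
    · rw [ind_t hb, one_mul, one_mul]
      exact inner1 S v k b hb
    · rw [ind_f hb, zero_mul, zero_mul]
  have h2 : ∑ b, ind (c b = k + 1) * (EE c H v k k + dg c H v k b ^ 2) =
      sz c (k + 1) * EE c H v k k + ∑ b, ind (c b = k + 1) * dg c H v k b ^ 2 := by
    unfold sz
    rw [sum_mul, ← sum_add_distrib]
    exact sum_congr rfl fun b _ => mul_add _ _ _
  have h3 : ∑ b, ind (c b = k + 1) * (sz c k ^ 2 + ∑ y, ∑ z, ind (Df c H y z b)) ≤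
      sz c (k + 1) * sz c k ^ 2 + WD c H := by
    have e1 : WD c H = ∑ b, ∑ y, ∑ z, ind (Df c H y z b) := by
      unfold WD
      have : ∀ x, ∑ y, ∑ z, ind (Df c H x y z) = ∑ z, ∑ y, ind (Df c H x y z) := fun x => sum_comm
      rw [sum_congr rfl fun x _ => this x, sum_comm]
    rw [e1]
    have e2 : sz c (k + 1) * sz c k ^ 2 = ∑ b, ind (c b = k + 1) * sz c k ^ 2 := by
      rw [← sum_mul]; rfl
    rw [e2, ← sum_add_distrib]
    refine sum_le_sum fun b _ => ?_
    rw [mul_add]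
    have h4 : 0 ≤ ∑ y, ∑ z, ind (Df c H y z b) :=
      sum_nonneg' fun _ => sum_nonneg' fun _ => ind_nonneg _
    have h5 := ind_le_one (c b = k + 1)
    nlinarith
  have h4 := cs_class (c := c) (k + 1) (fun b => dg c H v k b)
  rw [← EE_dg (c := c) (H := H) v k (k + 1)] at h4
  have h5 : 0 ≤ sz c (k + 1) := sz_nonneg _
  rw [h2] at h1
  have h6 := h1.trans h3
  have h7 := mul_le_mul_of_nonneg_left h6 h5
  nlinarith

/-- transversal triangles -/
theorem trans (S : Sys c H) (v : V) :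
    sz c 2 * EE c H v 0 1 + sz c 0 * EE c H v 1 2 + sz c 1 * EE c H v 2 0 ≤
      2 * (sz c 0 * sz c 1 * sz c 2) + WD c H := by
  have f1 : sz c 2 * EE c H v 0 1 =
      ∑ x, ∑ y, ∑ z, ind ((c x = 0 ∧ c y = 1 ∧ c z = 2) ∧ H v x y) := by
    unfold sz EE
    rw [mul_comm, sum_mul]
    refine sum_congr rfl fun x _ => ?_
    rw [sum_mul]
    refine sum_congr rfl fun y _ => ?_
    rw [mul_sum]
    refine sum_congr rfl fun z _ => ?_
    rw [ind_mul]
    exact ind_congr (by tauto)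
  have f2 : sz c 0 * EE c H v 1 2 =
      ∑ x, ∑ y, ∑ z, ind ((c x = 0 ∧ c y = 1 ∧ c z = 2) ∧ H v y z) := by
    unfold sz EE
    rw [sum_mul]
    refine sum_congr rfl fun x _ => ?_
    rw [mul_sum]
    refine sum_congr rfl fun y _ => ?_
    rw [mul_sum]
    refine sum_congr rfl fun z _ => ?_
    rw [ind_mul]
    exact ind_congr (by tauto)
  have f3 : sz c 1 * EE c H v 2 0 =
      ∑ x, ∑ y, ∑ z, ind ((c x = 0 ∧ c y = 1 ∧ c z = 2) ∧ H v z x) := by
    have : ∑ x, ∑ y, ∑ z, ind ((c x = 0 ∧ c y = 1 ∧ c z = 2) ∧ H v z x) =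
        ∑ y, ∑ z, ∑ x, ind ((c x = 0 ∧ c y = 1 ∧ c z = 2) ∧ H v z x) := by
      rw [sum_comm]
      exact sum_congr rfl fun y _ => sum_comm
    rw [this]
    unfold sz EE
    rw [sum_mul]
    refine sum_congr rfl fun y _ => ?_
    rw [mul_sum]
    refine sum_congr rfl fun z _ => ?_
    rw [mul_sum]
    refine sum_congr rfl fun x _ => ?_
    rw [ind_mul]
    exact ind_congr (by tauto)
  have f4 : sz c 0 * sz c 1 * sz c 2 = ∑ x, ∑ y, ∑ z, ind (c x = 0 ∧ c y = 1 ∧ c z = 2) := by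
    unfold sz
    rw [sum_mul_sum, sum_mul]
    refine sum_congr rfl fun x _ => ?_
    rw [sum_mul]
    refine sum_congr rfl fun y _ => ?_
    rw [mul_sum]
    refine sum_congr rfl fun z _ => ?_
    rw [ind_mul, ind_mul]
    exact ind_congr (by tauto)
  rw [f1, f2, f3, f4, mul_sum]
  unfold WD
  rw [← sum_add_distrib, ← sum_add_distrib, ← sum_add_distrib]
  refine sum_le_sum fun x _ => ?_
  rw [mul_sum, ← sum_add_distrib, ← sum_add_distrib, ← sum_add_distrib]
  refine sum_le_sum fun y _ => ?_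
  rw [mul_sum, ← sum_add_distrib, ← sum_add_distrib, ← sum_add_distrib]
  refine sum_le_sum fun z _ => ?_
  by_cases h : c x = 0 ∧ c y = 1 ∧ c z = 2
  · rw [ind_t h]
    by_cases h1 : H v x y
    · by_cases h2 : H v y z
      · by_cases h3 : H v z x
        · have hd : Df c H x y z := abd S (by rw [h.1, h.2.1]; rfl) (by rw [h.1, h.2.2]; rfl) h1 h2
            (S.s2 _ _ _ h3)
          rw [ind_t ⟨h, h1⟩, ind_t ⟨h, h2⟩, ind_t ⟨h, h3⟩, ind_t hd]
          norm_num
        · rw [ind_t ⟨h, h1⟩, ind_t ⟨h, h2⟩, ind_f fun h' => h3 h'.2]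
          linarith [ind_nonneg (Df c H x y z)]
      · rw [ind_t ⟨h, h1⟩, ind_f fun h' => h2 h'.2]
        linarith [ind_nonneg (Df c H x y z), ind_le_one ((c x = 0 ∧ c y = 1 ∧ c z = 2) ∧ H v z x)]
    · rw [ind_f fun h' => h1 h'.2]
      linarith [ind_nonneg (Df c H x y z), ind_le_one ((c x = 0 ∧ c y = 1 ∧ c z = 2) ∧ H v z x),
        ind_le_one ((c x = 0 ∧ c y = 1 ∧ c z = 2) ∧ H v y z)]
  · rw [ind_f h, ind_f fun h' => h h'.1, ind_f fun h' => h h'.1, ind_f fun h' => h h'.1]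
    linarith [ind_nonneg (Df c H x y z)]

end Pool.Agent.Y903.TX
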