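import Mathlib

/-! Numerical lemmas about the densities of links. -/

set_option autoImplicit false
set_option linter.unusedVariables false

namespace Pool.Agent.Y903.TX

theorem mul_ninth {x y ε : ℝ} (hε0 : 0 ≤ ε) (hε : ε ≤ 1 / 1000) (hx0 : 0 ≤ x) (hy0 : 0 ≤ y)
    (hx : x ≤ 1 / 3 + 2 * ε) (hy : y ≤ 1 / 3 + 2 * ε) : x * y ≤ 1 / 9 + 2 * ε := by
  have h1 : x * y ≤ (1 / 3 + 2 * ε) * (1 / 3 + 2 * ε) := mul_le_mul hx hy hy0 (by linarith)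
  have h2 : ε * ε ≤ 1 / 1000 * ε := mul_le_mul_of_nonneg_right hε hε0
  linarith

/-- inner edges in terms of the edges to the next class -/
theorem num_a {a b E F ε : ℝ} (hε0 : 0 ≤ ε) (hε : ε ≤ 1 / 1000) (ha1 : 1 / 3 - ε ≤ a)
    (ha2 : a ≤ 1 / 3 + 2 * ε) (hb1 : 1 / 3 - ε ≤ b) (hb2 : b ≤ 1 / 3 + 2 * ε) (hF0 : 0 ≤ F)
    (hF : F ≤ a * b) (h : b ^ 2 * E + F ^ 2 ≤ b ^ 2 * a ^ 2 + b * ε) :
    E ≤ 1 / 9 - 9 * F ^ 2 + 20 * ε := by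
  have hb0 : 0 < b := by linarith
  have hb3 : (1 / 10 : ℝ) ≤ b ^ 2 := by nlinarith
  have hb4 : b ^ 2 ≤ 1 / 9 + 2 * ε := by nlinarith
  have ha4 : a ^ 2 ≤ 1 / 9 + 2 * ε := by nlinarith
  have hab : a * b ≤ 1 / 8 := by nlinarith
  have hF2 : F ^ 2 ≤ 1 / 50 := by nlinarith
  have hF3 : 0 ≤ F ^ 2 := sq_nonneg F
  by_contra hcon
  push Not at hcon
  have h1 : b ^ 2 * (1 / 9 - 9 * F ^ 2 + 20 * ε) < b ^ 2 * E :=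
    mul_lt_mul_of_pos_left hcon (by positivity)
  have h2 : F ^ 2 * (1 - 9 * b ^ 2) ≥ -(18 * ε * (1 / 50)) := by
    have : 1 - 9 * b ^ 2 ≥ -(18 * ε) := by linarith
    nlinarith
  have h3 : b ^ 2 * (1 / 9 - a ^ 2 + 20 * ε) ≥ 1 / 10 * (18 * ε) := by
    have : 1 / 9 - a ^ 2 + 20 * ε ≥ 18 * ε := by linarith
    nlinarith
  have h4 : b * ε ≤ 2 / 5 * ε := by nlinarith
  nlinarith

/-- the densities of a link, order five -/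
theorem num54 {a b d E0 E1 E2 F0 F1 F2 ε τ : ℝ} (hτ0 : 0 < τ) (hτ : τ ≤ 1 / 100)
    (hε0 : 0 ≤ ε) (hε : ε ≤ τ ^ 2) (ha1 : 1 / 3 - ε ≤ a)
    (ha2 : a ≤ 1 / 3 + 2 * ε) (hb1 : 1 / 3 - ε ≤ b) (hb2 : b ≤ 1 / 3 + 2 * ε)
    (hd1 : 1 / 3 - ε ≤ d) (hd2 : d ≤ 1 / 3 + 2 * ε) (hF0 : 0 ≤ F0) (hF1 : 0 ≤ F1) (hF2 : 0 ≤ F2)
    (hF0' : F0 ≤ a * b) (hF1' : F1 ≤ b * d) (hF2' : F2 ≤ d * a) (hE1 : E1 ≤ τ ^ 2)
    (hE2 : E2 ≤ τ ^ 2) (h : b ^ 2 * E0 + F0 ^ 2 ≤ b ^ 2 * a ^ 2 + b * ε)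
    (ht : d * F0 + a * F1 + b * F2 ≤ 2 * (a * b * d) + ε)
    (hdeg : 5 / 9 - ε ≤ E0 + E1 + E2 + 2 * (F0 + F1 + F2)) :
    a ^ 2 - E0 ≤ 20 * τ ∧ b * d - F1 ≤ 20 * τ ∧ d * a - F2 ≤ 20 * τ ∧ F0 ≤ 20 * τ ∧
      E1 ≤ 20 * τ ∧ E2 ≤ 20 * τ := by
  have hτ2 : τ ^ 2 ≤ 1 / 100 * τ := by nlinarith
  have hε1 : ε ≤ 1 / 1000 := by nlinarith
  have hA := num_a hε0 hε1 ha1 ha2 hb1 hb2 hF0 hF0' h
  have hεε : ε * ε ≤ 1 / 1000 * ε := mul_le_mul_of_nonneg_right hε1 hε0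
  have hεε0 : 0 ≤ ε * ε := mul_nonneg hε0 hε0
  have p1 : (1 / 3 - ε) * (F0 + F1 + F2) ≤ d * F0 + a * F1 + b * F2 := by
    have r0 := mul_le_mul_of_nonneg_right hd1 hF0
    have r1 := mul_le_mul_of_nonneg_right ha1 hF1
    have r2 := mul_le_mul_of_nonneg_right hb1 hF2
    have e : (1 / 3 - ε) * (F0 + F1 + F2) =
      (1 / 3 - ε) * F0 + (1 / 3 - ε) * F1 + (1 / 3 - ε) * F2 := by ring
    linarith
  have p2 : a * b * d ≤ (1 / 3 + 2 * ε) ^ 3 := by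
    have q1 : a * b ≤ (1 / 3 + 2 * ε) * (1 / 3 + 2 * ε) :=
      mul_le_mul ha2 hb2 (by linarith) (by linarith)
    have q2 : a * b * d ≤ (1 / 3 + 2 * ε) * (1 / 3 + 2 * ε) * (1 / 3 + 2 * ε) :=
      mul_le_mul q1 hd2 (by linarith) (by positivity)
    calc a * b * d ≤ _ := q2
      _ = _ := by ring
  have p3 : (1 / 3 + 2 * ε) ^ 3 ≤ 1 / 27 + ε := by
    have e : (1 / 3 + 2 * ε) ^ 3 = 1 / 27 + 2 / 3 * ε + 4 * (ε * ε) + 8 * (ε * (ε * ε)) := by ring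
    have r : ε * (ε * ε) ≤ 1 / 1000 * (ε * ε) := mul_le_mul_of_nonneg_right hε1 hεε0
    linarith
  have p4 : (1 / 3 - ε) * (F0 + F1 + F2) ≤ 2 / 27 + 3 * ε := by linarith
  have p5 : F0 + F1 + F2 ≤ 2 / 9 + 11 * ε := by
    by_contra hcon
    push Not at hcon
    have r : (1 / 3 - ε) * (2 / 9 + 11 * ε) < (1 / 3 - ε) * (F0 + F1 + F2) :=
      mul_lt_mul_of_pos_left hcon (by linarith)
    have e : (1 / 3 - ε) * (2 / 9 + 11 * ε) =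
      2 / 27 + 11 / 3 * ε - 2 / 9 * ε - 11 * (ε * ε) := by ring
    linarith
  have p6 : E0 ≥ 1 / 9 - 2 * τ ^ 2 - 23 * ε := by linarith
  have ha4 : a ^ 2 ≤ 1 / 9 + 2 * ε := by
    rw [sq]; exact mul_ninth hε0 hε1 (by linarith) (by linarith) ha2 ha2
  have hbd : b * d ≤ 1 / 9 + 2 * ε := mul_ninth hε0 hε1 (by linarith) (by linarith) hb2 hd2
  have hda : d * a ≤ 1 / 9 + 2 * ε := mul_ninth hε0 hε1 (by linarith) (by linarith) hd2 ha2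
  have p7 : 9 * F0 ^ 2 ≤ 2 * τ ^ 2 + 43 * ε := by linarith
  have hEE : 0 ≤ F0 ^ 2 := sq_nonneg F0
  have p8 : F0 ≤ 3 * τ := by
    by_contra hcon
    push Not at hcon
    have : (3 * τ) ^ 2 < F0 ^ 2 := pow_lt_pow_left₀ hcon (by positivity) (by norm_num)
    have e : (3 * τ) ^ 2 = 9 * τ ^ 2 := by ring
    have : 0 < τ ^ 2 := by positivity
    linarith
  have p9 : E0 ≤ 1 / 9 + 20 * ε := by
    have := sq_nonneg F0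
    linarith
  have p10 : F1 + F2 ≥ 2 / 9 - 11 * ε - τ ^ 2 - 3 * τ := by linarith
  refine ⟨by linarith, by linarith, by linarith, by linarith, by linarith, by linarith⟩

/-- the densities of a link, order six -/
theorem num66 {a b d E0 E1 E2 F0 F1 F2 ε τ : ℝ} (hτ0 : 0 < τ) (hτ : τ ≤ 1 / 100)
    (hε0 : 0 ≤ ε) (hε : ε ≤ τ ^ 2 / 10000) (ha1 : 1 / 3 - ε ≤ a)
    (ha2 : a ≤ 1 / 3 + 2 * ε) (hb1 : 1 / 3 - ε ≤ b) (hb2 : b ≤ 1 / 3 + 2 * ε)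
    (hd1 : 1 / 3 - ε ≤ d) (hd2 : d ≤ 1 / 3 + 2 * ε) (hF0 : 0 ≤ F0) (hF1 : 0 ≤ F1) (hF2 : 0 ≤ F2)
    (hF0' : F0 ≤ a * b) (hF1' : F1 ≤ b * d) (hF2' : F2 ≤ d * a)
    (h0 : b ^ 2 * E0 + F0 ^ 2 ≤ b ^ 2 * a ^ 2 + b * ε)
    (h1 : d ^ 2 * E1 + F1 ^ 2 ≤ d ^ 2 * b ^ 2 + d * ε)
    (h2 : a ^ 2 * E2 + F2 ^ 2 ≤ a ^ 2 * d ^ 2 + a * ε)
    (hsm : F0 ≤ τ ^ 2 / 1000)
    (hdeg : 5 / 9 - ε ≤ E0 + E1 + E2 + 2 * (F0 + F1 + F2)) :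
    a ^ 2 - E0 ≤ 20 * τ ∧ b * d - F1 ≤ 20 * τ ∧ d * a - F2 ≤ 20 * τ ∧ F0 ≤ 20 * τ ∧
      E1 ≤ 20 * τ ∧ E2 ≤ 20 * τ := by
  have hτ2 : τ ^ 2 ≤ 1 / 100 * τ := by nlinarith
  have hε1 : ε ≤ 1 / 1000 := by nlinarith
  have hA0 := num_a hε0 hε1 ha1 ha2 hb1 hb2 hF0 hF0' h0
  have hA1 := num_a hε0 hε1 hb1 hb2 hd1 hd2 hF1 hF1' h1
  have hA2 := num_a hε0 hε1 hd1 hd2 ha1 ha2 hF2 hF2' h2
  have ha4 : a ^ 2 ≤ 1 / 9 + 2 * ε := by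
    rw [sq]; exact mul_ninth hε0 hε1 (by linarith) (by linarith) ha2 ha2
  have hbd : b * d ≤ 1 / 9 + 2 * ε := mul_ninth hε0 hε1 (by linarith) (by linarith) hb2 hd2
  have hda : d * a ≤ 1 / 9 + 2 * ε := mul_ninth hε0 hε1 (by linarith) (by linarith) hd2 ha2
  -- squares
  have s0 := sq_nonneg F0
  have p1 : 9 * (F1 - 1 / 9) ^ 2 + 9 * (F2 - 1 / 9) ^ 2 ≤ 61 * ε + 2 * F0 := by
    have e : 9 * (F1 - 1 / 9) ^ 2 + 9 * (F2 - 1 / 9) ^ 2 =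
      9 * F1 ^ 2 + 9 * F2 ^ 2 - 2 * F1 - 2 * F2 + 2 / 9 := by ring
    rw [e]; linarith
  have p2 : 61 * ε + 2 * F0 ≤ τ ^ 2 / 100 := by linarith
  have q1 := sq_nonneg (F1 - 1 / 9)
  have q2 := sq_nonneg (F2 - 1 / 9)
  have hτp : 0 < τ ^ 2 := by positivity
  have p3 : 1 / 9 - τ ≤ F1 := by
    by_contra hcon
    push Not at hcon
    have : τ ^ 2 < (1 / 9 - F1) ^ 2 := pow_lt_pow_left₀ (by linarith) hτ0.le (by norm_num)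
    have e : (1 / 9 - F1) ^ 2 = (F1 - 1 / 9) ^ 2 := by ring
    linarith
  have p4 : 1 / 9 - τ ≤ F2 := by
    by_contra hcon
    push Not at hcon
    have : τ ^ 2 < (1 / 9 - F2) ^ 2 := pow_lt_pow_left₀ (by linarith) hτ0.le (by norm_num)
    have e : (1 / 9 - F2) ^ 2 = (F2 - 1 / 9) ^ 2 := by ring
    linarith
  have r1 : (1 / 9 - τ) ^ 2 ≤ F1 ^ 2 := pow_le_pow_left₀ (by linarith) p3 2
  have r2 : (1 / 9 - τ) ^ 2 ≤ F2 ^ 2 := pow_le_pow_left₀ (by linarith) p4 2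
  have r3 : (1 / 9 - τ) ^ 2 = 1 / 81 - 2 / 9 * τ + τ ^ 2 := by ring
  have p5 : E1 ≤ 3 * τ := by linarith
  have p6 : E2 ≤ 3 * τ := by linarith
  refine ⟨by linarith, by linarith, by linarith, by linarith, by linarith, by linarith⟩

end Pool.Agent.Y903.TX
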