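import Pool.Agent.Y903.TX.K54
import Pool.Agent.Y903.TX.Num

/-! The links of the vertices are close to links of Turán's construction. -/

set_option autoImplicit false
set_option linter.unusedVariables false
set_option linter.unusedSectionVars false

open Finset
open scoped Classical

namespace Pool.Agent.Y903.TX
open Pool.Agent.Y439.Loc hiding sum_nonneg'

variable {V : Type} [Fintype V] {c : V → Fin 3} {H : V → V → V → Prop} {n ε : ℝ}

/-- the pairs in the link of a vertex of the class `k` in Turán's construction -/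
def tl (k a b : Fin 3) : Bool := fdB k a b false false false false false false

noncomputable def NE (c : V → Fin 3) (H : V → V → V → Prop) (v : V) (p q : Fin 3) : ℝ :=
  ∑ y, ∑ z, ind ((c y = p ∧ c z = q) ∧ ¬ H v y z)

theorem NE_EE (v : V) (p q : Fin 3) : NE c H v p q + EE c H v p q = sz c p * sz c q := by
  unfold NE EE sz
  rw [sum_mul_sum, ← sum_add_distrib]
  refine sum_congr rfl fun y _ => ?_
  rw [← sum_add_distrib]
  refine sum_congr rfl fun z _ => ?_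
  rw [ind_mul]
  by_cases h1 : c y = p ∧ c z = q <;> by_cases h2 : H v y z <;> simp [ind, h1, h2]

theorem sum9 (j : Fin 3) (f : Fin 3 → Fin 3 → ℝ) : ∑ p, ∑ q, f p q =
    f j j + f j (j + 1) + f j (j + 2) + f (j + 1) j + f (j + 1) (j + 1) + f (j + 1) (j + 2) +
    f (j + 2) j + f (j + 2) (j + 1) + f (j + 2) (j + 2) := by
  fin_cases j
  · show ∑ p, ∑ q, f p q = f 0 0 + f 0 1 + f 0 2 + f 1 0 + f 1 1 + f 1 2 + f 2 0 + f 2 1 + f 2 2
    rw [Fin.sum_univ_three, Fin.sum_univ_three, Fin.sum_univ_three, Fin.sum_univ_three]; ring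
  · show ∑ p, ∑ q, f p q = f 1 1 + f 1 2 + f 1 0 + f 2 1 + f 2 2 + f 2 0 + f 0 1 + f 0 2 + f 0 0
    rw [Fin.sum_univ_three, Fin.sum_univ_three, Fin.sum_univ_three, Fin.sum_univ_three]; ring
  · show ∑ p, ∑ q, f p q = f 2 2 + f 2 0 + f 2 1 + f 0 2 + f 0 0 + f 0 1 + f 1 2 + f 1 0 + f 1 1
    rw [Fin.sum_univ_three, Fin.sum_univ_three, Fin.sum_univ_three, Fin.sum_univ_three]; ring

theorem tl_vals : ∀ j : Fin 3, tl (j + 1) j j = true ∧ tl (j + 1) j (j + 1) = false ∧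
    tl (j + 1) j (j + 2) = true ∧ tl (j + 1) (j + 1) j = false ∧
    tl (j + 1) (j + 1) (j + 1) = false ∧ tl (j + 1) (j + 1) (j + 2) = true ∧
    tl (j + 1) (j + 2) j = true ∧ tl (j + 1) (j + 2) (j + 1) = true ∧
    tl (j + 1) (j + 2) (j + 2) = false := by decide

/-- the link of a vertex, when its class is changed -/
theorem wr_upd (S : Sys c H) (v : V) (j : Fin 3) :
    wr (Function.update c v (j + 1)) H v ≤
      (sz c j ^ 2 - EE c H v j j) +
      2 * (sz c (j + 1) * sz c (j + 2) - EE c H v (j + 1) (j + 2)) +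
      2 * (sz c (j + 2) * sz c j - EE c H v (j + 2) j) + 2 * EE c H v j (j + 1) +
      EE c H v (j + 1) (j + 1) + EE c H v (j + 2) (j + 2) := by
  set c' := Function.update c v (j + 1) with hc'
  have hv : c' v = j + 1 := by rw [hc', Function.update_self]
  have hne : ∀ y, y ≠ v → c' y = c y := fun y hy => by rw [hc', Function.update_of_ne hy]
  have h1 : ∀ y z, ind (¬ (H v y z ↔ Tu c' v y z)) ≤
      ∑ p, ∑ q, (if tl (j + 1) p q = true then ind ((c y = p ∧ c z = q) ∧ ¬ H v y z) else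
        ind ((c y = p ∧ c z = q) ∧ H v y z)) := by
    intro y z
    have e1 : ∑ p, ∑ q, (if tl (j + 1) p q = true then ind ((c y = p ∧ c z = q) ∧ ¬ H v y z) else
        ind ((c y = p ∧ c z = q) ∧ H v y z)) =
        if tl (j + 1) (c y) (c z) = true then ind (¬ H v y z) else ind (H v y z) := by
      rw [sum_eq_single (c y)]
      · rw [sum_eq_single (c z)]
        · split_ifs
          · exact ind_congr (by simp)
          · exact ind_congr (by simp)
        · intro q _ hq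
          split_ifs
          · exact ind_f fun h => hq h.1.2.symm
          · exact ind_f fun h => hq h.1.2.symm
        · simp
      · intro p _ hp
        refine sum_eq_zero fun q _ => ?_
        split_ifs
        · exact ind_f fun h => hp h.1.1.symm
        · exact ind_f fun h => hp h.1.1.symm
      · simp
    rw [e1]
    by_cases hd : v ≠ y ∧ y ≠ z ∧ v ≠ z
    · have e2 : Tu c' v y z ↔ tl (j + 1) (c y) (c z) = true := by
        unfold Tu FD
        rw [hv, hne y hd.1.symm, hne z hd.2.2.symm]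
        constructor
        · rintro ⟨-, -, -, h⟩; exact h
        · intro h; exact ⟨hd.1, hd.2.1, hd.2.2, h⟩
      split_ifs with ht
      · refine ind_mono fun h h2 => h ?_
        exact ⟨fun _ => e2.2 ht, fun _ => h2⟩
      · refine ind_mono fun h => ?_
        by_contra h2
        exact h ⟨fun h3 => absurd h3 h2, fun h3 => absurd (e2.1 h3) ht⟩
    · have e3 : ¬ H v y z := fun h => hd ⟨S.ne _ _ _ h, S.ne23 h, S.ne13 h⟩
      have e4 : ¬ Tu c' v y z := fun h => hd ⟨h.1, h.2.1, h.2.2.1⟩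
      rw [ind_f fun h => h ⟨fun h3 => absurd h3 e3, fun h3 => absurd h3 e4⟩]
      split_ifs <;> exact ind_nonneg _
  have h2 : wr c' H v ≤ ∑ y, ∑ z, ∑ p, ∑ q,
      (if tl (j + 1) p q = true then ind ((c y = p ∧ c z = q) ∧ ¬ H v y z) else
        ind ((c y = p ∧ c z = q) ∧ H v y z)) :=
    sum_le_sum fun y _ => sum_le_sum fun z _ => h1 y z
  have h3 : ∑ y, ∑ z, ∑ p, ∑ q,
      (if tl (j + 1) p q = true then ind ((c y = p ∧ c z = q) ∧ ¬ H v y z) else
        ind ((c y = p ∧ c z = q) ∧ H v y z)) =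
      ∑ p, ∑ q, (if tl (j + 1) p q = true then NE c H v p q else EE c H v p q) := by
    have e2 : ∀ y, ∑ z, ∑ p, ∑ q,
        (if tl (j + 1) p q = true then ind ((c y = p ∧ c z = q) ∧ ¬ H v y z) else
          ind ((c y = p ∧ c z = q) ∧ H v y z)) =
        ∑ p, ∑ q, ∑ z, (if tl (j + 1) p q = true then ind ((c y = p ∧ c z = q) ∧ ¬ H v y z) else
          ind ((c y = p ∧ c z = q) ∧ H v y z)) := by
      intro y
      rw [sum_comm]
      exact sum_congr rfl fun p _ => sum_comm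
    rw [sum_congr rfl fun y _ => e2 y, sum_comm]
    refine sum_congr rfl fun p _ => ?_
    rw [sum_comm]
    refine sum_congr rfl fun q _ => ?_
    unfold NE EE
    split_ifs <;> rfl
  rw [h3, sum9 j] at h2
  obtain ⟨t1, t2, t3, t4, t5, t6, t7, t8, t9⟩ := tl_vals j
  rw [if_pos t1, if_neg (by rw [t2]; simp), if_pos t3, if_neg (by rw [t4]; simp),
    if_neg (by rw [t5]; simp), if_pos t6, if_pos t7, if_pos t8, if_neg (by rw [t9]; simp)] at h2
  have a1 := NE_EE (c := c) (H := H) v j j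
  have a2 := NE_EE (c := c) (H := H) v j (j + 2)
  have a3 := NE_EE (c := c) (H := H) v (j + 2) j
  have a4 := NE_EE (c := c) (H := H) v (j + 1) (j + 2)
  have a5 := NE_EE (c := c) (H := H) v (j + 2) (j + 1)
  have s1 := EE_symm S v j (j + 2)
  have s2 := EE_symm S v (j + 1) (j + 2)
  have s3 := EE_symm S v j (j + 1)
  nlinarith

theorem fin_shift : ∀ j : Fin 3, j + 1 + 1 = j + 2 ∧ j + 2 + 1 = j := by decide

/-- `trans` for all rotations -/
theorem trans' (S : Sys c H) (v : V) (j : Fin 3) :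
    sz c (j + 2) * EE c H v j (j + 1) + sz c j * EE c H v (j + 1) (j + 2) +
      sz c (j + 1) * EE c H v (j + 2) j ≤
      2 * (sz c j * sz c (j + 1) * sz c (j + 2)) + WD c H := by
  have h := trans S v
  fin_cases j
  · exact h
  · show sz c 0 * EE c H v 1 2 + sz c 1 * EE c H v 2 0 + sz c 2 * EE c H v 0 1 ≤
      2 * (sz c 1 * sz c 2 * sz c 0) + WD c H
    linarith
  · show sz c 1 * EE c H v 2 0 + sz c 2 * EE c H v 0 1 + sz c 0 * EE c H v 1 2 ≤
      2 * (sz c 2 * sz c 0 * sz c 1) + WD c H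
    linarith

/-- The assumptions on the 3-graph: near Turán's construction with the classes of `c`. -/
structure Near (c : V → Fin 3) (H : V → V → V → Prop) (n ε : ℝ) : Prop where
  S : Sys c H
  hn : ∑ _x : V, (1 : ℝ) = n
  pos : 0 < n
  e0 : 0 < ε
  hD : WD c H ≤ ε * n ^ 3
  lo : ∀ k, (1 / 3 - ε) * n ≤ sz c k

theorem Near.up (A : Near c H n ε) (k : Fin 3) : sz c k ≤ (1 / 3 + 2 * ε) * n := by
  have h := sz_sum (c := c) A.hn k
  have h1 := A.lo (k + 1)
  have h2 := A.lo (k + 2)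
  linarith

/-- from densities to the distance of the links -/
theorem close_of (A : Near c H n ε) (v : V) (j : Fin 3) {τ : ℝ}
    (h : (sz c j / n) ^ 2 - EE c H v j j / n ^ 2 ≤ 20 * τ ∧
      sz c (j + 1) / n * (sz c (j + 2) / n) - EE c H v (j + 1) (j + 2) / n ^ 2 ≤ 20 * τ ∧
      sz c (j + 2) / n * (sz c j / n) - EE c H v (j + 2) j / n ^ 2 ≤ 20 * τ ∧
      EE c H v j (j + 1) / n ^ 2 ≤ 20 * τ ∧ EE c H v (j + 1) (j + 1) / n ^ 2 ≤ 20 * τ ∧
      EE c H v (j + 2) (j + 2) / n ^ 2 ≤ 20 * τ) :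
    wr (Function.update c v (j + 1)) H v ≤ 180 * τ * n ^ 2 := by
  obtain ⟨h1, h2, h3, h4, h5, h6⟩ := h
  have hp := A.pos
  have hn2 : (0 : ℝ) < n ^ 2 := by positivity
  have hw := wr_upd A.S v j
  have e1 : (sz c j / n) ^ 2 - EE c H v j j / n ^ 2 = (sz c j ^ 2 - EE c H v j j) / n ^ 2 := by
    field_simp
  have e2 : sz c (j + 1) / n * (sz c (j + 2) / n) - EE c H v (j + 1) (j + 2) / n ^ 2 =
      (sz c (j + 1) * sz c (j + 2) - EE c H v (j + 1) (j + 2)) / n ^ 2 := by field_simp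
  have e3 : sz c (j + 2) / n * (sz c j / n) - EE c H v (j + 2) j / n ^ 2 =
      (sz c (j + 2) * sz c j - EE c H v (j + 2) j) / n ^ 2 := by field_simp
  rw [e1, div_le_iff₀ hn2] at h1
  rw [e2, div_le_iff₀ hn2] at h2
  rw [e3, div_le_iff₀ hn2] at h3
  rw [div_le_iff₀ hn2] at h4 h5 h6
  linarith

theorem quot_bounds (A : Near c H n ε) (k : Fin 3) :
    1 / 3 - ε ≤ sz c k / n ∧ sz c k / n ≤ 1 / 3 + 2 * ε := by
  have hp := A.pos
  constructor
  · rw [le_div_iff₀ hp]; exact A.lo k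
  · rw [div_le_iff₀ hp]; exact A.up k

theorem EE_quot (A : Near c H n ε) (v : V) (p q : Fin 3) :
    0 ≤ EE c H v p q / n ^ 2 ∧ EE c H v p q / n ^ 2 ≤ sz c p / n * (sz c q / n) := by
  have hp := A.pos
  have hn2 : (0 : ℝ) < n ^ 2 := by positivity
  constructor
  · exact div_nonneg (EE_nonneg v p q) hn2.le
  · rw [div_le_iff₀ hn2]
    have e : sz c p / n * (sz c q / n) * n ^ 2 = sz c p * sz c q := by field_simp
    rw [e]
    exact EE_le v p q

theorem inner_quot (A : Near c H n ε) (v : V) (k : Fin 3) :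
    (sz c (k + 1) / n) ^ 2 * (EE c H v k k / n ^ 2) + (EE c H v k (k + 1) / n ^ 2) ^ 2 ≤
      (sz c (k + 1) / n) ^ 2 * (sz c k / n) ^ 2 + sz c (k + 1) / n * ε := by
  have hp := A.pos
  have hn4 : (0 : ℝ) < n ^ 4 := by positivity
  have h := inner2 A.S v k
  have hD := A.hD
  have h0 : 0 ≤ sz c (k + 1) := sz_nonneg _
  have h1 : sz c (k + 1) * WD c H ≤ sz c (k + 1) * (ε * n ^ 3) := mul_le_mul_of_nonneg_left hD h0
  refine le_of_mul_le_mul_right ?_ hn4
  have e1 : ((sz c (k + 1) / n) ^ 2 * (EE c H v k k / n ^ 2) +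
      (EE c H v k (k + 1) / n ^ 2) ^ 2) * n ^ 4 =
      sz c (k + 1) ^ 2 * EE c H v k k + EE c H v k (k + 1) ^ 2 := by field_simp
  have e2 : ((sz c (k + 1) / n) ^ 2 * (sz c k / n) ^ 2 + sz c (k + 1) / n * ε) * n ^ 4 =
      sz c (k + 1) ^ 2 * sz c k ^ 2 + sz c (k + 1) * (ε * n ^ 3) := by field_simp
  rw [e1, e2]
  linarith

theorem trans_quot (A : Near c H n ε) (v : V) (j : Fin 3) :
    sz c (j + 2) / n * (EE c H v j (j + 1) / n ^ 2) +
      sz c j / n * (EE c H v (j + 1) (j + 2) / n ^ 2) +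
      sz c (j + 1) / n * (EE c H v (j + 2) j / n ^ 2) ≤
      2 * (sz c j / n * (sz c (j + 1) / n) * (sz c (j + 2) / n)) + ε := by
  have hp := A.pos
  have hn3 : (0 : ℝ) < n ^ 3 := by positivity
  have h := trans' A.S v j
  have hD := A.hD
  refine le_of_mul_le_mul_right ?_ hn3
  have e1 : (sz c (j + 2) / n * (EE c H v j (j + 1) / n ^ 2) +
      sz c j / n * (EE c H v (j + 1) (j + 2) / n ^ 2) +
      sz c (j + 1) / n * (EE c H v (j + 2) j / n ^ 2)) * n ^ 3 =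
      sz c (j + 2) * EE c H v j (j + 1) + sz c j * EE c H v (j + 1) (j + 2) +
      sz c (j + 1) * EE c H v (j + 2) j := by field_simp
  have e2 : (2 * (sz c j / n * (sz c (j + 1) / n) * (sz c (j + 2) / n)) + ε) * n ^ 3 =
      2 * (sz c j * sz c (j + 1) * sz c (j + 2)) + ε * n ^ 3 := by field_simp
  rw [e1, e2]
  linarith

theorem deg_quot (A : Near c H n ε) (v : V) (j : Fin 3) (hdeg : (5 / 9 - ε) * n ^ 2 ≤ deg H v) :
    5 / 9 - ε ≤ EE c H v j j / n ^ 2 + EE c H v (j + 1) (j + 1) / n ^ 2 +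
      EE c H v (j + 2) (j + 2) / n ^ 2 + 2 * (EE c H v j (j + 1) / n ^ 2 +
      EE c H v (j + 1) (j + 2) / n ^ 2 + EE c H v (j + 2) j / n ^ 2) := by
  have hp := A.pos
  have hn2 : (0 : ℝ) < n ^ 2 := by positivity
  rw [deg_split A.S v j] at hdeg
  have e : EE c H v j j / n ^ 2 + EE c H v (j + 1) (j + 1) / n ^ 2 +
      EE c H v (j + 2) (j + 2) / n ^ 2 + 2 * (EE c H v j (j + 1) / n ^ 2 +
      EE c H v (j + 1) (j + 2) / n ^ 2 + EE c H v (j + 2) j / n ^ 2) =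
      (EE c H v j j + EE c H v (j + 1) (j + 1) + EE c H v (j + 2) (j + 2) +
      2 * (EE c H v j (j + 1) + EE c H v (j + 1) (j + 2) + EE c H v (j + 2) j)) / n ^ 2 := by
    field_simp
  rw [e, le_div_iff₀ hn2]
  exact hdeg

/-- links, five vertices with four edges -/
theorem link54 (A : Near c H n ε) {τ : ℝ} (hτ0 : 0 < τ) (hτ : τ ≤ 1 / 100)
    (hε : 10 ^ 40 * ε ≤ τ ^ 24) (h1n : 1 ≤ ε * n) (v : V) (hdeg : (5 / 9 - ε) * n ^ 2 ≤ deg H v)
    (hB : B5 H v ≤ ε * n ^ 4) : ∃ k, wr (Function.update c v k) H v ≤ 180 * τ * n ^ 2 := by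
  have hp := A.pos
  have hn2 : (0 : ℝ) < n ^ 2 := by positivity
  have he0 := A.e0
  have hτ24 : τ ^ 24 ≤ τ ^ 10 := pow_le_pow_of_le_one hτ0.le (by linarith) (by norm_num)
  have hτ102 : τ ^ 10 ≤ τ ^ 2 := pow_le_pow_of_le_one hτ0.le (by linarith) (by norm_num)
  have hε2 : ε ≤ τ ^ 2 := by
    have : ε ≤ 10 ^ 40 * ε := by nlinarith
    linarith
  have key : ∀ k, EE c H v k k / n ^ 2 ≤ τ ^ 2 ∨ EE c H v (k + 1) (k + 1) / n ^ 2 ≤ τ ^ 2 := by
    intro k
    by_contra hcon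
    push Not at hcon
    obtain ⟨g1, g2⟩ := hcon
    rw [lt_div_iff₀ hn2] at g1 g2
    have g3 := prod54 A.S A.hn v k
    have hn10 : (0 : ℝ) < n ^ 10 := by positivity
    have w1 : (τ ^ 2 * n ^ 2) ^ 4 < EE c H v k k ^ 4 :=
      pow_lt_pow_left₀ g1 (by positivity) (by norm_num)
    have w2 : (τ ^ 2 * n ^ 2) ^ 4 * (τ ^ 2 * n ^ 2) <
        EE c H v k k ^ 4 * EE c H v (k + 1) (k + 1) :=
      mul_lt_mul'' w1 g2 (by positivity) (by positivity)
    have w3 : (τ ^ 2 * n ^ 2) ^ 4 * (τ ^ 2 * n ^ 2) = τ ^ 10 * n ^ 10 := by ring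
    have w4 : n * WD c H ≤ ε * n ^ 4 := by
      have := mul_le_mul_of_nonneg_left A.hD hp.le
      calc n * WD c H ≤ n * (ε * n ^ 3) := this
        _ = ε * n ^ 4 := by ring
    have w5 : n ^ 3 ≤ ε * n ^ 4 := by
      have := mul_le_mul_of_nonneg_right h1n (show (0 : ℝ) ≤ n ^ 3 by positivity)
      calc n ^ 3 = 1 * n ^ 3 := by ring
        _ ≤ ε * n * n ^ 3 := this
        _ = ε * n ^ 4 := by ring
    have w6 : n ^ 6 * (2 * n ^ 3 + 12 * (n * WD c H) + 3 * B5 H v) ≤ n ^ 6 * (17 * (ε * n ^ 4)) :=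
      mul_le_mul_of_nonneg_left (by linarith) (by positivity)
    have w7 : n ^ 6 * (17 * (ε * n ^ 4)) = 17 * ε * n ^ 10 := by ring
    have w8 : τ ^ 10 * n ^ 10 < 65536 * (17 * ε * n ^ 10) := by
      rw [w7] at w6
      rw [← w3]
      linarith
    have w9 : 65536 * (17 * ε * n ^ 10) ≤ τ ^ 10 * n ^ 10 := by
      have : 65536 * 17 * ε ≤ τ ^ 10 := by
        have : 65536 * 17 * ε ≤ 10 ^ 40 * ε := mul_le_mul_of_nonneg_right (by norm_num) he0.le
        linarith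
      calc 65536 * (17 * ε * n ^ 10) = 65536 * 17 * ε * n ^ 10 := by ring
        _ ≤ τ ^ 10 * n ^ 10 := mul_le_mul_of_nonneg_right this hn10.le
    linarith
  have h2 : ∃ j : Fin 3, EE c H v (j + 1) (j + 1) / n ^ 2 ≤ τ ^ 2 ∧
      EE c H v (j + 2) (j + 2) / n ^ 2 ≤ τ ^ 2 := by
    have k0 : EE c H v 0 0 / n ^ 2 ≤ τ ^ 2 ∨ EE c H v 1 1 / n ^ 2 ≤ τ ^ 2 := key 0
    have k1 : EE c H v 1 1 / n ^ 2 ≤ τ ^ 2 ∨ EE c H v 2 2 / n ^ 2 ≤ τ ^ 2 := key 1
    have k2 : EE c H v 2 2 / n ^ 2 ≤ τ ^ 2 ∨ EE c H v 0 0 / n ^ 2 ≤ τ ^ 2 := key 2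
    by_cases q0 : EE c H v 0 0 / n ^ 2 ≤ τ ^ 2
    · by_cases q1 : EE c H v 1 1 / n ^ 2 ≤ τ ^ 2
      · exact ⟨2, q0, q1⟩
      · exact ⟨1, (k1.resolve_left q1), q0⟩
    · exact ⟨0, k0.resolve_left q0, k2.resolve_right q0⟩
  obtain ⟨j, hj1, hj2⟩ := h2
  refine ⟨j + 1, close_of A v j ?_⟩
  have b0 := quot_bounds A j
  have b1 := quot_bounds A (j + 1)
  have b2 := quot_bounds A (j + 2)
  have f0 := EE_quot A v j (j + 1)
  have f1 := EE_quot A v (j + 1) (j + 2)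
  have f2 := EE_quot A v (j + 2) j
  exact num54 hτ0 hτ he0.le hε2 b0.1 b0.2 b1.1 b1.2 b2.1 b2.2 f0.1 f1.1 f2.1 f0.2 f1.2 f2.2 hj1 hj2
    (inner_quot A v j) (trans_quot A v j) (deg_quot A v j hdeg)

/-- links, six vertices with six edges -/
theorem link66 (A : Near c H n ε) {τ : ℝ} (hτ0 : 0 < τ) (hτ : τ ≤ 1 / 100)
    (hε : 10 ^ 40 * ε ≤ τ ^ 24) (h1n : 1 ≤ ε * n) (v : V) (hdeg : (5 / 9 - ε) * n ^ 2 ≤ deg H v)
    (hB : B6 H v ≤ ε * n ^ 5) : ∃ k, wr (Function.update c v k) H v ≤ 180 * τ * n ^ 2 := by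
  have hp := A.pos
  have hn2 : (0 : ℝ) < n ^ 2 := by positivity
  have he0 := A.e0
  have hτ24 : τ ^ 24 ≤ τ ^ 2 := pow_le_pow_of_le_one hτ0.le (by linarith) (by norm_num)
  have hε2 : ε ≤ τ ^ 2 / 10000 := by
    have : 10000 * ε ≤ 10 ^ 40 * ε := mul_le_mul_of_nonneg_right (by norm_num) he0.le
    linarith
  set ρ : ℝ := τ ^ 6 / (4 * 10 ^ 9) with hρ
  have hρ0 : 0 < ρ := by positivity
  have hZ : ∀ k, ZZ c H v k ≤ ρ * n ^ 3 := by
    intro k
    by_contra hcon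
    push Not at hcon
    have g1 := Z4 A.S A.hn v k
    have w1 : (ρ * n ^ 3) ^ 4 < ZZ c H v k ^ 4 :=
      pow_lt_pow_left₀ hcon (by positivity) (by norm_num)
    have w2 : (ρ * n ^ 3) ^ 4 = τ ^ 24 / (256 * 10 ^ 36) * n ^ 12 := by
      rw [hρ]; ring
    have w4 : n ^ 3 * WD c H ≤ ε * n ^ 6 := by
      have := mul_le_mul_of_nonneg_left A.hD (show (0 : ℝ) ≤ n ^ 3 by positivity)
      calc n ^ 3 * WD c H ≤ n ^ 3 * (ε * n ^ 3) := this
        _ = ε * n ^ 6 := by ring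
    have w5 : n ^ 5 ≤ ε * n ^ 6 := by
      have := mul_le_mul_of_nonneg_right h1n (show (0 : ℝ) ≤ n ^ 5 by positivity)
      calc n ^ 5 = 1 * n ^ 5 := by ring
        _ ≤ ε * n * n ^ 5 := this
        _ = ε * n ^ 6 := by ring
    have w6 : n * B6 H v ≤ ε * n ^ 6 := by
      have := mul_le_mul_of_nonneg_left hB hp.le
      calc n * B6 H v ≤ n * (ε * n ^ 5) := this
        _ = ε * n ^ 6 := by ring
    have w7 : n ^ 6 * (7 * n ^ 5 + 16 * (n ^ 3 * WD c H) + n * B6 H v) ≤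
        n ^ 6 * (24 * (ε * n ^ 6)) := mul_le_mul_of_nonneg_left (by linarith) (by positivity)
    have w8 : n ^ 6 * (24 * (ε * n ^ 6)) = 24 * ε * n ^ 12 := by ring
    have hn12 : (0 : ℝ) < n ^ 12 := by positivity
    have w9 : 24 * ε * n ^ 12 ≤ τ ^ 24 / (256 * 10 ^ 36) * n ^ 12 := by
      refine mul_le_mul_of_nonneg_right ?_ hn12.le
      rw [le_div_iff₀ (by norm_num)]
      have : 24 * ε * (256 * 10 ^ 36) ≤ 10 ^ 40 * ε := by
        have e : 24 * ε * (256 * 10 ^ 36) = 24 * (256 * 10 ^ 36) * ε := by ring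
        rw [e]
        exact mul_le_mul_of_nonneg_right (by norm_num) he0.le
      linarith
    rw [w2] at w1
    linarith
  have hprod := prod_small A.S A.hn v
  have h1 : EE c H v 0 1 * EE c H v 1 2 * EE c H v 2 0 ≤ (τ ^ 2 / 1000 * n ^ 2) ^ 3 := by
    have a1 := A.hD
    have a2 := hZ 0
    have a3 := hZ 1
    have a4 := hZ 2
    have a5 : ε ≤ ρ := by
      rw [hρ, le_div_iff₀ (by norm_num)]
      have : ε * (4 * 10 ^ 9) ≤ 10 ^ 40 * ε := by
        rw [mul_comm]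
        exact mul_le_mul_of_nonneg_right (by norm_num) he0.le
      have : τ ^ 24 ≤ τ ^ 6 := pow_le_pow_of_le_one hτ0.le (by linarith) (by norm_num)
      linarith
    have hn3 : (0 : ℝ) < n ^ 3 := by positivity
    have a6 : WD c H ≤ ρ * n ^ 3 := a1.trans (mul_le_mul_of_nonneg_right a5 hn3.le)
    have a7 : n ^ 3 * (WD c H + ZZ c H v 0 + ZZ c H v 1 + ZZ c H v 2) ≤ n ^ 3 * (4 * (ρ * n ^ 3)) :=
      mul_le_mul_of_nonneg_left (by linarith) hn3.le
    have a8 : n ^ 3 * (4 * (ρ * n ^ 3)) = (τ ^ 2 / 1000 * n ^ 2) ^ 3 := by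
      rw [hρ]; ring
    rw [a8] at a7
    exact hprod.trans a7
  have h2 : ∃ j : Fin 3, EE c H v j (j + 1) / n ^ 2 ≤ τ ^ 2 / 1000 := by
    by_contra hcon
    push Not at hcon
    have q0 : τ ^ 2 / 1000 < EE c H v 0 1 / n ^ 2 := hcon 0
    have q1 : τ ^ 2 / 1000 < EE c H v 1 2 / n ^ 2 := hcon 1
    have q2 : τ ^ 2 / 1000 < EE c H v 2 0 / n ^ 2 := hcon 2
    rw [lt_div_iff₀ hn2] at q0 q1 q2
    have r1 : (τ ^ 2 / 1000 * n ^ 2) * (τ ^ 2 / 1000 * n ^ 2) < EE c H v 0 1 * EE c H v 1 2 :=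
      mul_lt_mul'' q0 q1 (by positivity) (by positivity)
    have r2 : (τ ^ 2 / 1000 * n ^ 2) * (τ ^ 2 / 1000 * n ^ 2) * (τ ^ 2 / 1000 * n ^ 2) <
        EE c H v 0 1 * EE c H v 1 2 * EE c H v 2 0 :=
      mul_lt_mul'' r1 q2 (by positivity) (by positivity)
    have r3 : (τ ^ 2 / 1000 * n ^ 2) * (τ ^ 2 / 1000 * n ^ 2) * (τ ^ 2 / 1000 * n ^ 2) =
        (τ ^ 2 / 1000 * n ^ 2) ^ 3 := by ring
    linarith
  obtain ⟨j, hj⟩ := h2
  refine ⟨j + 1, close_of A v j ?_⟩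
  have b0 := quot_bounds A j
  have b1 := quot_bounds A (j + 1)
  have b2 := quot_bounds A (j + 2)
  have f0 := EE_quot A v j (j + 1)
  have f1 := EE_quot A v (j + 1) (j + 2)
  have f2 := EE_quot A v (j + 2) j
  have i0 := inner_quot A v j
  have i1 := inner_quot A v (j + 1)
  have i2 := inner_quot A v (j + 2)
  rw [(fin_shift j).1] at i1
  rw [(fin_shift j).2] at i2
  exact num66 hτ0 hτ he0.le hε2 b0.1 b0.2 b1.1 b1.2 b2.1 b2.2 f0.1 f1.1 f2.1 f0.2 f1.2 f2.2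
    i0 i1 i2 hj (deg_quot A v j hdeg)

end Pool.Agent.Y903.TX
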