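import Pool.Agent.Y903.TX.Del

/-! The exact bound for 3-graphs with large minimum degree, for families of sets. -/

set_option autoImplicit false
set_option linter.unusedVariables false
set_option linter.unusedSectionVars false
set_option maxRecDepth 100000

open Finset
open scoped Classical

namespace Pool.Agent.Y903.TX
open Pool.Agent.Y439.Loc hiding sum_nonneg'
open Pool.Agent.TH773
open Pool.Agent.Y439

variable {n : ℕ} {H : Finset (Finset (Fin n))}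

/-- the 3-graphs of orientations -/
def OriG (n : ℕ) (H : Finset (Finset (Fin n))) : Prop :=
  ∃ (c : Fin n → Fin 3) (A : Fin n → Fin n → Prop),
    (∀ x y, (A x y → c x ≠ c y) ∧ (c x ≠ c y → (A x y ↔ ¬ A y x))) ∧
    ∀ e : Finset (Fin n), e ∈ H ↔ e.card = 3 ∧ (∃ x ∈ e, ∃ y ∈ e, c x ≠ c y) ∧
      ∀ x ∈ e, ∀ y ∈ e, ∀ z ∈ e, A x y → A x z → y = z

/-- Turán's constructions -/
def TurG (n : ℕ) (H : Finset (Finset (Fin n))) : Prop := ∃ c : Fin n → Fin 3, H = tgraph c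

theorem deg_card (hH : ∀ e ∈ H, e.card = 3) (v : Fin n) :
    deg (Loc.Rel H) v = 2 * ((H.filter fun e => v ∈ e).card : ℝ) :=
  vertex_count H hH v

theorem n_div (n : ℕ) : (n : ℝ) = 3 * ((n / 3 : ℕ) : ℝ) + ((n % 3 : ℕ) : ℝ) := by
  exact_mod_cast (Nat.div_add_mod n 3).symm

theorem mid54 {δ : ℝ} (hH : ∀ e ∈ H, e.card = 3) (hK : Turan34.K43Free H)
    (g : Fin n → Fin 3) (hn : 1 ≤ eps0 * n) (hδ0 : 0 < δ) (hδ : δ ≤ eps0 / 6)
    (h1 : ((symmDiff H (Turan34.turan g)).card : ℝ) ≤ δ ^ 2 * (n : ℝ) ^ 3)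
    (h2 : (5 / 54 - δ ^ 2) * (n : ℝ) ^ 3 ≤ (H.card : ℝ))
    (hdeg : ∀ v, (5 / 18 - eps0 / 2) * (n : ℝ) ^ 2 ≤ ((H.filter fun e => v ∈ e).card : ℝ))
    (hs : 3125 * (Turan34.spans H 5 4 : ℝ) ≤ sig0 * (n : ℝ) ^ 3) :
    H.card ≤ tnum n ∧ (H.card = tnum n → OriG n H) := by
  have hnpos : 0 < n := by
    rcases Nat.eq_zero_or_pos n with h | h
    · rw [h] at hn; norm_num at hn
    · exact h
  have A := near_of hH hK g hnpos hδ0 hδ h1 h2
  obtain ⟨c, B⟩ := vx54 A hn (fun v => by rw [deg_card hH v]; linarith [hdeg v])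
    ((N5_le hH).trans hs)
  have h := core54 B ((N5_le hH).trans hs) (n / 3) (n % 3) (n_div n) (by omega)
  rw [total_count H hH, ← tnum_TT n] at h
  refine ⟨?_, fun heq => ?_⟩
  · have h1 : (H.card : ℝ) ≤ (tnum n : ℝ) := by linarith [h.1]
    exact_mod_cast h1
  · have h1 : 6 * (H.card : ℝ) = 6 * (tnum n : ℝ) := by rw [heq]
    obtain ⟨rev, hrel⟩ := h.2 h1
    exact ⟨c, fd_sets c c (Or.inl rfl) rev H hH hrel⟩

theorem mid66 {δ : ℝ} (hH : ∀ e ∈ H, e.card = 3) (hK : Turan34.K43Free H)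
    (g : Fin n → Fin 3) (hn : 1 ≤ eps0 * n) (hδ0 : 0 < δ) (hδ : δ ≤ eps0 / 6)
    (h1 : ((symmDiff H (Turan34.turan g)).card : ℝ) ≤ δ ^ 2 * (n : ℝ) ^ 3)
    (h2 : (5 / 54 - δ ^ 2) * (n : ℝ) ^ 3 ≤ (H.card : ℝ))
    (hdeg : ∀ v, (5 / 18 - eps0 / 2) * (n : ℝ) ^ 2 ≤ ((H.filter fun e => v ∈ e).card : ℝ))
    (hs : 46656 * (Turan34.spans H 6 6 : ℝ) ≤ sig0 * (n : ℝ) ^ 4) :
    H.card ≤ tnum n ∧ (H.card = tnum n → TurG n H) := by
  have hnpos : 0 < n := by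
    rcases Nat.eq_zero_or_pos n with h | h
    · rw [h] at hn; norm_num at hn
    · exact h
  have A := near_of hH hK g hnpos hδ0 hδ h1 h2
  have hN := (N6_le hH).trans hs
  obtain ⟨c, B⟩ := vx66 A hn (fun v => by rw [deg_card hH v]; linarith [hdeg v]) hN
  have h := near_apply B (n / 3) (n % 3) (n_div n) (by omega) (io66 B hN)
  rw [total_count H hH, ← tnum_TT n] at h
  refine ⟨?_, fun heq => ?_⟩
  · have h1 : (H.card : ℝ) ≤ (tnum n : ℝ) := by linarith [h.1]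
    exact_mod_cast h1
  · have h1 : 6 * (H.card : ℝ) = 6 * (tnum n : ℝ) := by rw [heq]
    obtain ⟨rev, hrel⟩ := h.2 h1
    have hT := unique66 B hN hrel
    refine ⟨c, ?_⟩
    ext e
    constructor
    · intro he
      obtain ⟨x, y, z, n1, n2, n3, rfl⟩ := card_eq_three.1 (hH e he)
      exact ((rel_tgraph c x y z).2 ((hT x y z).1 ⟨n1, n3, n2, he⟩)).2.2.2
    · intro he
      have h3 : e.card = 3 := by
        unfold tgraph at he
        exact (mem_filter.mp he).2.1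
      obtain ⟨x, y, z, n1, n2, n3, rfl⟩ := card_eq_three.1 h3
      exact ((hT x y z).2 ((rel_tgraph c x y z).1 ⟨n1, n3, n2, he⟩)).2.2.2

end Pool.Agent.Y903.TX
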