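import Pool.Agent.Y903.TX.Rec

/-! Pairs of vertices with atypical codegrees lead to many sets with four (six) edges. -/

set_option autoImplicit false
set_option linter.unusedVariables false
set_option linter.unusedSectionVars false

open Finset
open scoped Classical

namespace Pool.Agent.Y903.TX
open Pool.Agent.Y439.Loc hiding sum_nonneg'

variable {V : Type} [Fintype V] {c : V → Fin 3} {H : V → V → V → Prop} {n σ : ℝ}

theorem not_df_pos {x y z : V} (h : ¬ Df c H x y z) (ht : Tu c x y z) : H x y z := by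
  unfold Df at h; push Not at h; exact h.2 ht

theorem not_df_neg {x y z : V} (h : ¬ Df c H x y z) (ht : ¬ Tu c x y z) : ¬ H x y z := by
  unfold Df at h; push Not at h; exact fun h1 => ht (h.1 h1)

/-- the vertices of the preceding class that form edges with two vertices of a class -/
noncomputable def Mp (c : V → Fin 3) (H : V → V → V → Prop) (x y : V) : ℝ :=
  ∑ w, ind (c w = c x + 2 ∧ H x y w)

theorem Mp_nonneg (x y : V) : 0 ≤ Mp c H x y := sum_nonneg' fun _ => ind_nonneg _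

theorem Mp_le (A : Vx c H n σ) (hσ : 0 < σ) (x y : V) (hxy : c y = c x) : Mp c H x y ≤ 2 * σ * n := by
  have hp := A.pos
  have h1 : Mp c H x y ^ 2 ≤ n + wr c H x + wr c H y := by
    unfold Mp
    rw [sq, sum_mul_sum]
    have h2 : ∀ w w', ind (c w = c x + 2 ∧ H x y w) * ind (c w' = c x + 2 ∧ H x y w') ≤
        ind (w = w') + ind (¬ (H x w w' ↔ Tu c x w w')) + ind (¬ (H y w w' ↔ Tu c y w w')) := by
      intro w w'
      rw [ind_mul]
      refine ind_or3 ?_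
      rintro ⟨⟨h3, h4⟩, h5, h6⟩
      by_contra hcon
      push Not at hcon
      obtain ⟨g1, g2, g3⟩ := hcon
      exact A.S.k4 x y w w' h4 h6 (g2.2 (tu_pre h3 h5 g1))
        (g3.2 (tu_pre (by rw [h3, hxy]) (by rw [h5, hxy]) g1))
    refine (sum_le_sum fun w _ => sum_le_sum fun w' _ => h2 w w').trans (le_of_eq ?_)
    simp only [sum_add_distrib, sum_ind_eq', A.hn]
    rfl
  have h2 := A.hw x
  have h3 := A.hw y
  have h4 : n ≤ σ ^ 2 * n ^ 2 := by
    have := mul_le_mul_of_nonneg_right A.big hp.le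
    calc n = 1 * n := by ring
      _ ≤ σ ^ 2 * n * n := this
      _ = σ ^ 2 * n ^ 2 := by ring
  by_contra hcon
  push Not at hcon
  have h5 : (2 * σ * n) ^ 2 < Mp c H x y ^ 2 := pow_lt_pow_left₀ hcon (by positivity) (by norm_num)
  have h6 : (2 * σ * n) ^ 2 = 4 * (σ ^ 2 * n ^ 2) := by ring
  have h7 : 0 < σ ^ 2 * n ^ 2 := by positivity
  linarith

theorem five_edges (S : Sys c H) {x y z w w' : V} (hxy : x ≠ y) (hcy : c y = c x)
    (hz : (c y = c x ∧ c z = c x) ∧ H x y z) (hw : c w = c x + 2) (hw' : c w' = c x + 2)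
    (hne : w ≠ w') (h1 : ¬ Df c H x w w') (h2 : ¬ Df c H y w w') (h3 : ¬ Df c H z w w')
    (h4 : ¬ Df c H x z w) (h5 : ¬ Df c H y z w) (h6 : ¬ Df c H x z w') (h7 : ¬ Df c H y z w')
    (h8 : ¬ H x y w) (h9 : ¬ H x y w') : Bd5 H x y z w w' := by
  obtain ⟨⟨-, hcz⟩, hxyz⟩ := hz
  have t1 := not_df_pos h1 (tu_pre hw hw' hne)
  have t2 := not_df_pos h2 (tu_pre (by rw [hw, hcy]) (by rw [hw', hcy]) hne)
  have t3 := not_df_pos h3 (tu_pre (by rw [hw, hcz]) (by rw [hw', hcz]) hne)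
  have t4 := not_df_neg h4 (tu_not' hcz hw)
  have t5 := not_df_neg h5 (tu_not' (by rw [hcz, hcy]) (by rw [hw, hcy]))
  have t6 := not_df_neg h6 (tu_not' hcz hw')
  have t7 := not_df_neg h7 (tu_not' (by rw [hcz, hcy]) (by rw [hw', hcy]))
  refine ⟨?_, ?_⟩
  · simp only [List.nodup_cons, List.mem_cons, List.not_mem_nil, or_false, not_or,
      not_false_eq_true, List.nodup_nil, and_true]
    exact ⟨⟨hxy, S.ne13 hxyz, S.ne _ _ _ t1, S.ne13 t1⟩, ⟨S.ne23 hxyz, S.ne _ _ _ t2, S.ne13 t2⟩,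
      ⟨S.ne _ _ _ t3, S.ne13 t3⟩, hne⟩
  · unfold c5
    rw [cn_t hxyz, cn_f h8, cn_f h9, cn_f t4, cn_f t6, cn_t t1, cn_f t5, cn_f t7, cn_t t2, cn_t t3]

theorem size_prev (A : Vx c H n σ) (hσ : σ ≤ 1 / 100) (k : Fin 3) : n / 4 ≤ sz c k := by
  have := A.lo k
  have hp := A.pos
  nlinarith

theorem small_n (A : Vx c H n σ) : n ≤ σ ^ 2 * n ^ 2 := by
  have := mul_le_mul_of_nonneg_right A.big A.pos.le
  calc n = 1 * n := by ring
    _ ≤ σ ^ 2 * n * n := this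
    _ = σ ^ 2 * n ^ 2 := by ring

/-- few sets with four edges: small inner codegrees -/
theorem pair54 (A : Vx c H n σ) (hσ0 : 0 < σ) (hσ : σ ≤ 1 / 100) (x y : V) (hxy : x ≠ y) :
    io c H x y * (n / 4) ^ 2 ≤
      ∑ z, ∑ w, ∑ w', ind (Bd5 H x y z w w') + (8 * σ ^ 2 + 4 * σ) * n ^ 3 := by
  have hp := A.pos
  have S := A.S
  by_cases hcy : c y = c x
  swap
  · have : io c H x y = 0 := sum_eq_zero fun z _ => ind_f fun h => hcy h.1.1
    rw [this, zero_mul]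
    have : 0 ≤ ∑ z, ∑ w, ∑ w', ind (Bd5 H x y z w w') :=
      sum_nonneg' fun _ => sum_nonneg' fun _ => sum_nonneg' fun _ => ind_nonneg _
    positivity
  have hC := size_prev A hσ (c x + 2)
  have hio : 0 ≤ io c H x y := sum_nonneg' fun _ => ind_nonneg _
  have h0 : io c H x y * (n / 4) ^ 2 ≤ io c H x y * sz c (c x + 2) ^ 2 :=
    mul_le_mul_of_nonneg_left (pow_le_pow_left₀ (by positivity) hC 2) hio
  refine h0.trans ?_
  have e0 : io c H x y * sz c (c x + 2) ^ 2 =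
      ∑ z, ∑ w, ∑ w', ind ((c y = c x ∧ c z = c x) ∧ H x y z) * (ind (c w = c x + 2) *
        ind (c w' = c x + 2)) := by
    unfold io sz
    rw [sq, sum_mul_sum, sum_mul]
    refine sum_congr rfl fun z _ => ?_
    rw [mul_sum]
    refine sum_congr rfl fun w _ => ?_
    rw [mul_sum]
  rw [e0]
  have h1 : ∀ z w w', ind ((c y = c x ∧ c z = c x) ∧ H x y z) * (ind (c w = c x + 2) *
        ind (c w' = c x + 2)) ≤ ind (Bd5 H x y z w w') + ind (w = w') +
      ind (Df c H x w w') + ind (Df c H y w w') + ind (Df c H z w w') + ind (Df c H x z w) +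
      ind (Df c H y z w) + ind (Df c H x z w') + ind (Df c H y z w') +
      ind (c w = c x + 2 ∧ H x y w) + ind (c w' = c x + 2 ∧ H x y w') := by
    intro z w w'
    rw [ind_mul, ind_mul]
    have a0 := ind_nonneg (Bd5 H x y z w w')
    have a1 := ind_nonneg (w = w')
    have a2 := ind_nonneg (Df c H x w w')
    have a3 := ind_nonneg (Df c H y w w')
    have a4 := ind_nonneg (Df c H z w w')
    have a5 := ind_nonneg (Df c H x z w)
    have a6 := ind_nonneg (Df c H y z w)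
    have a7 := ind_nonneg (Df c H x z w')
    have a8 := ind_nonneg (Df c H y z w')
    have a9 := ind_nonneg (c w = c x + 2 ∧ H x y w)
    have a10 := ind_nonneg (c w' = c x + 2 ∧ H x y w')
    by_cases h : ((c y = c x ∧ c z = c x) ∧ H x y z) ∧ c w = c x + 2 ∧ c w' = c x + 2
    · rw [ind_t h]
      obtain ⟨hz, hw, hw'⟩ := h
      by_cases g1 : w = w'
      · rw [ind_t g1]; linarith
      by_cases g2 : Df c H x w w'
      · rw [ind_t g2]; linarith
      by_cases g3 : Df c H y w w'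
      · rw [ind_t g3]; linarith
      by_cases g4 : Df c H z w w'
      · rw [ind_t g4]; linarith
      by_cases g5 : Df c H x z w
      · rw [ind_t g5]; linarith
      by_cases g6 : Df c H y z w
      · rw [ind_t g6]; linarith
      by_cases g7 : Df c H x z w'
      · rw [ind_t g7]; linarith
      by_cases g8 : Df c H y z w'
      · rw [ind_t g8]; linarith
      by_cases g9 : H x y w
      · rw [ind_t (show c w = c x + 2 ∧ H x y w from ⟨hw, g9⟩)]; linarith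
      by_cases g10 : H x y w'
      · rw [ind_t (show c w' = c x + 2 ∧ H x y w' from ⟨hw', g10⟩)]; linarith
      rw [ind_t (five_edges S hxy hcy hz hw hw' g1 g2 g3 g4 g5 g6 g7 g8 g9 g10)]
      linarith
    · rw [ind_f h]; linarith
  refine (sum_le_sum fun z _ => sum_le_sum fun w _ => sum_le_sum fun w' _ => h1 z w w').trans ?_
  simp only [sum_add_distrib]
  have hwx := A.hw x
  have hwy := A.hw y
  have hM := Mp_le A hσ0 x y hcy
  have hn0 := small_n A
  have e1 : ∑ _z : V, ∑ w : V, ∑ w' : V, ind (w = w') = n ^ 2 := by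
    simp only [sum_ind_eq', A.hn, csum A.hn]; ring
  have e2 : ∑ _z : V, ∑ w, ∑ w', ind (Df c H x w w') = n * wr c H x := by
    simp only [csum A.hn]; rfl
  have e3 : ∑ _z : V, ∑ w, ∑ w', ind (Df c H y w w') = n * wr c H y := by
    simp only [csum A.hn]; rfl
  have e4 : ∑ z, ∑ w, ∑ w', ind (Df c H z w w') ≤ n * (σ ^ 2 * n ^ 2) := by
    have : ∑ z, ∑ w, ∑ w', ind (Df c H z w w') ≤ ∑ _z : V, σ ^ 2 * n ^ 2 :=
      sum_le_sum fun z _ => A.hw z
    rwa [csum A.hn] at this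
  have e5 : ∑ z, ∑ w, ∑ _w' : V, ind (Df c H x z w) = n * wr c H x := by
    simp only [csum A.hn, ← mul_sum]; rfl
  have e6 : ∑ z, ∑ w, ∑ _w' : V, ind (Df c H y z w) = n * wr c H y := by
    simp only [csum A.hn, ← mul_sum]; rfl
  have e7 : ∑ z, ∑ _w : V, ∑ w', ind (Df c H x z w') = n * wr c H x := by
    simp only [csum A.hn, ← mul_sum]; rfl
  have e8 : ∑ z, ∑ _w : V, ∑ w', ind (Df c H y z w') = n * wr c H y := by
    simp only [csum A.hn, ← mul_sum]; rfl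
  have e9 : ∑ _z : V, ∑ w, ∑ _w' : V, ind (c w = c x + 2 ∧ H x y w) = n ^ 2 * Mp c H x y := by
    simp only [csum A.hn, ← mul_sum]; unfold Mp; ring
  have e10 : ∑ _z : V, ∑ _w : V, ∑ w', ind (c w' = c x + 2 ∧ H x y w') = n ^ 2 * Mp c H x y := by
    simp only [csum A.hn, ← mul_sum]; unfold Mp; ring
  rw [e1, e2, e3, e5, e6, e7, e8, e9, e10]
  have m1 : n * wr c H x ≤ n * (σ ^ 2 * n ^ 2) := mul_le_mul_of_nonneg_left hwx hp.le
  have m2 : n * wr c H y ≤ n * (σ ^ 2 * n ^ 2) := mul_le_mul_of_nonneg_left hwy hp.le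
  have m3 : n ^ 2 * Mp c H x y ≤ n ^ 2 * (2 * σ * n) :=
    mul_le_mul_of_nonneg_left hM (by positivity)
  have m4 : n ^ 2 ≤ n * (σ ^ 2 * n ^ 2) := by
    have := mul_le_mul_of_nonneg_left hn0 hp.le
    calc n ^ 2 = n * n := by ring
      _ ≤ _ := this
  have r1 : n * (σ ^ 2 * n ^ 2) = σ ^ 2 * n ^ 3 := by ring
  have r2 : n ^ 2 * (2 * σ * n) = 2 * σ * n ^ 3 := by ring
  have r3 : (8 * σ ^ 2 + 4 * σ) * n ^ 3 = 8 * (σ ^ 2 * n ^ 3) + 2 * (2 * σ * n ^ 3) := by ring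
  rw [r1] at m1 m2 m4 e4
  rw [r2] at m3
  rw [r3]
  linarith

theorem six_edges2 (S : Sys c H) {x y z z' w w' : V} (hxy : x ≠ y) (hcy : c y = c x)
    (hz : (c y = c x ∧ c z = c x) ∧ H x y z) (hz' : (c y = c x ∧ c z' = c x) ∧ H x y z')
    (hw : c w = c x + 2) (hw' : c w' = c x + 2) (hzz : z ≠ z') (hne : w ≠ w')
    (h1 : ¬ Df c H x w w') (h2 : ¬ Df c H y w w') (h3 : ¬ Df c H z w w') (h3' : ¬ Df c H z' w w')
    (h4 : ¬ Df c H x z w) (h5 : ¬ Df c H y z w) (h6 : ¬ Df c H x z w') (h7 : ¬ Df c H y z w')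
    (k4 : ¬ Df c H x z' w) (k5 : ¬ Df c H y z' w) (k6 : ¬ Df c H x z' w') (k7 : ¬ Df c H y z' w')
    (l1 : ¬ Df c H x z z') (l2 : ¬ Df c H y z z') (l3 : ¬ Df c H z z' w) (l4 : ¬ Df c H z z' w')
    (h8 : ¬ H x y w) (h9 : ¬ H x y w') : Bd6 H x y z z' w w' := by
  obtain ⟨⟨-, hcz⟩, hxyz⟩ := hz
  obtain ⟨⟨-, hcz'⟩, hxyz'⟩ := hz'
  have t1 := not_df_pos h1 (tu_pre hw hw' hne)
  have t2 := not_df_pos h2 (tu_pre (by rw [hw, hcy]) (by rw [hw', hcy]) hne)
  have t3 := not_df_pos h3 (tu_pre (by rw [hw, hcz]) (by rw [hw', hcz]) hne)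
  have t3' := not_df_pos h3' (tu_pre (by rw [hw, hcz']) (by rw [hw', hcz']) hne)
  have t4 := not_df_neg h4 (tu_not' hcz hw)
  have t5 := not_df_neg h5 (tu_not' (by rw [hcz, hcy]) (by rw [hw, hcy]))
  have t6 := not_df_neg h6 (tu_not' hcz hw')
  have t7 := not_df_neg h7 (tu_not' (by rw [hcz, hcy]) (by rw [hw', hcy]))
  have s4 := not_df_neg k4 (tu_not' hcz' hw)
  have s5 := not_df_neg k5 (tu_not' (by rw [hcz', hcy]) (by rw [hw, hcy]))
  have s6 := not_df_neg k6 (tu_not' hcz' hw')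
  have s7 := not_df_neg k7 (tu_not' (by rw [hcz', hcy]) (by rw [hw', hcy]))
  have m1 := not_df_neg l1 (tu_mono hcz hcz')
  have m2 := not_df_neg l2 (tu_mono (by rw [hcz, hcy]) (by rw [hcz', hcy]))
  have m3 := not_df_neg l3 (tu_not' (by rw [hcz', hcz]) (by rw [hw, hcz]))
  have m4 := not_df_neg l4 (tu_not' (by rw [hcz', hcz]) (by rw [hw', hcz]))
  refine ⟨?_, ?_⟩
  · simp only [List.nodup_cons, List.mem_cons, List.not_mem_nil, or_false, not_or,
      not_false_eq_true, List.nodup_nil, and_true]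
    exact ⟨⟨hxy, S.ne13 hxyz, S.ne13 hxyz', S.ne _ _ _ t1, S.ne13 t1⟩,
      ⟨S.ne23 hxyz, S.ne23 hxyz', S.ne _ _ _ t2, S.ne13 t2⟩,
      ⟨hzz, S.ne _ _ _ t3, S.ne13 t3⟩, ⟨S.ne _ _ _ t3', S.ne13 t3'⟩, hne⟩
  · unfold c6
    rw [cn_t hxyz, cn_t hxyz', cn_f h8, cn_f h9, cn_f m1, cn_f t4, cn_f t6, cn_f s4, cn_f s6,
      cn_t t1, cn_f m2, cn_f t5, cn_f t7, cn_f s5, cn_f s7, cn_t t2, cn_f m3, cn_f m4, cn_t t3,
      cn_t t3']

/-- all errors for `pair66` -/
def Er6 (c : V → Fin 3) (H : V → V → V → Prop) (x y z z' w w' : V) : Prop :=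
  Df c H x w w' ∨ Df c H y w w' ∨ Df c H z w w' ∨ Df c H z' w w' ∨ Df c H x z w ∨ Df c H y z w ∨
  Df c H x z w' ∨ Df c H y z w' ∨ Df c H x z' w ∨ Df c H y z' w ∨ Df c H x z' w' ∨
  Df c H y z' w' ∨ Df c H x z z' ∨ Df c H y z z' ∨ Df c H z z' w ∨ Df c H z z' w'

theorem Er6_le (x y z z' w w' : V) : ind (Er6 c H x y z z' w w') ≤
    ind (Df c H x w w') + ind (Df c H y w w') + ind (Df c H z w w') + ind (Df c H z' w w') +
    ind (Df c H x z w) + ind (Df c H y z w) + ind (Df c H x z w') + ind (Df c H y z w') +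
    ind (Df c H x z' w) + ind (Df c H y z' w) + ind (Df c H x z' w') + ind (Df c H y z' w') +
    ind (Df c H x z z') + ind (Df c H y z z') + ind (Df c H z z' w) + ind (Df c H z z' w') := by
  unfold Er6
  have e : ∀ p q : Prop, ind (p ∨ q) ≤ ind p + ind q := fun p q => ind_or fun h => h
  refine (e _ _).trans ?_
  have h := e (Df c H y w w') (Df c H z w w' ∨ Df c H z' w w' ∨ Df c H x z w ∨ Df c H y z w ∨
    Df c H x z w' ∨ Df c H y z w' ∨ Df c H x z' w ∨ Df c H y z' w ∨ Df c H x z' w' ∨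
    Df c H y z' w' ∨ Df c H x z z' ∨ Df c H y z z' ∨ Df c H z z' w ∨ Df c H z z' w')
  have h2 := e (Df c H z w w') (Df c H z' w w' ∨ Df c H x z w ∨ Df c H y z w ∨
    Df c H x z w' ∨ Df c H y z w' ∨ Df c H x z' w ∨ Df c H y z' w ∨ Df c H x z' w' ∨
    Df c H y z' w' ∨ Df c H x z z' ∨ Df c H y z z' ∨ Df c H z z' w ∨ Df c H z z' w')
  have h3 := e (Df c H z' w w') (Df c H x z w ∨ Df c H y z w ∨
    Df c H x z w' ∨ Df c H y z w' ∨ Df c H x z' w ∨ Df c H y z' w ∨ Df c H x z' w' ∨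
    Df c H y z' w' ∨ Df c H x z z' ∨ Df c H y z z' ∨ Df c H z z' w ∨ Df c H z z' w')
  have h4 := e (Df c H x z w) (Df c H y z w ∨
    Df c H x z w' ∨ Df c H y z w' ∨ Df c H x z' w ∨ Df c H y z' w ∨ Df c H x z' w' ∨
    Df c H y z' w' ∨ Df c H x z z' ∨ Df c H y z z' ∨ Df c H z z' w ∨ Df c H z z' w')
  have h5 := e (Df c H y z w) (
    Df c H x z w' ∨ Df c H y z w' ∨ Df c H x z' w ∨ Df c H y z' w ∨ Df c H x z' w' ∨
    Df c H y z' w' ∨ Df c H x z z' ∨ Df c H y z z' ∨ Df c H z z' w ∨ Df c H z z' w')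
  have h6 := e (Df c H x z w') (Df c H y z w' ∨ Df c H x z' w ∨ Df c H y z' w ∨
    Df c H x z' w' ∨ Df c H y z' w' ∨ Df c H x z z' ∨ Df c H y z z' ∨ Df c H z z' w ∨
    Df c H z z' w')
  have h7 := e (Df c H y z w') (Df c H x z' w ∨ Df c H y z' w ∨
    Df c H x z' w' ∨ Df c H y z' w' ∨ Df c H x z z' ∨ Df c H y z z' ∨ Df c H z z' w ∨
    Df c H z z' w')
  have h8 := e (Df c H x z' w) (Df c H y z' w ∨
    Df c H x z' w' ∨ Df c H y z' w' ∨ Df c H x z z' ∨ Df c H y z z' ∨ Df c H z z' w ∨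
    Df c H z z' w')
  have h9 := e (Df c H y z' w) (Df c H x z' w' ∨ Df c H y z' w' ∨ Df c H x z z' ∨
    Df c H y z z' ∨ Df c H z z' w ∨ Df c H z z' w')
  have h10 := e (Df c H x z' w') (Df c H y z' w' ∨ Df c H x z z' ∨
    Df c H y z z' ∨ Df c H z z' w ∨ Df c H z z' w')
  have h11 := e (Df c H y z' w') (Df c H x z z' ∨ Df c H y z z' ∨ Df c H z z' w ∨ Df c H z z' w')
  have h12 := e (Df c H x z z') (Df c H y z z' ∨ Df c H z z' w ∨ Df c H z z' w')
  have h13 := e (Df c H y z z') (Df c H z z' w ∨ Df c H z z' w')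
  have h14 := e (Df c H z z' w) (Df c H z z' w')
  linarith

/-- few sets with six edges: small inner codegrees -/
theorem pair66 (A : Vx c H n σ) (hσ0 : 0 < σ) (hσ : σ ≤ 1 / 100) (x y : V) (hxy : x ≠ y) :
    (io c H x y * (n / 4)) ^ 2 ≤
      ∑ z, ∑ z', ∑ w, ∑ w', ind (Bd6 H x y z z' w w') + (18 * σ ^ 2 + 4 * σ) * n ^ 4 := by
  have hp := A.pos
  have S := A.S
  by_cases hcy : c y = c x
  swap
  · have : io c H x y = 0 := sum_eq_zero fun z _ => ind_f fun h => hcy h.1.1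
    rw [this, zero_mul, zero_pow (by norm_num)]
    have : 0 ≤ ∑ z, ∑ z', ∑ w, ∑ w', ind (Bd6 H x y z z' w w') :=
      sum_nonneg' fun _ => sum_nonneg' fun _ => sum_nonneg' fun _ => sum_nonneg' fun _ =>
        ind_nonneg _
    positivity
  have hC := size_prev A hσ (c x + 2)
  have hio : 0 ≤ io c H x y := sum_nonneg' fun _ => ind_nonneg _
  have h0 : (io c H x y * (n / 4)) ^ 2 ≤ (io c H x y * sz c (c x + 2)) ^ 2 :=
    pow_le_pow_left₀ (by positivity) (mul_le_mul_of_nonneg_left hC hio) 2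
  refine h0.trans ?_
  have e0 : (io c H x y * sz c (c x + 2)) ^ 2 =
      ∑ z, ∑ z', ∑ w, ∑ w', ind ((c y = c x ∧ c z = c x) ∧ H x y z) *
        ind ((c y = c x ∧ c z' = c x) ∧ H x y z') * (ind (c w = c x + 2) *
        ind (c w' = c x + 2)) := by
    rw [mul_pow]
    unfold io sz
    rw [sq, sq, sum_mul_sum, sum_mul_sum, sum_mul]
    refine sum_congr rfl fun z _ => ?_
    rw [sum_mul]
    refine sum_congr rfl fun z' _ => ?_
    rw [mul_sum]
    refine sum_congr rfl fun w _ => ?_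
    rw [mul_sum]
  rw [e0]
  have h1 : ∀ z z' w w', ind ((c y = c x ∧ c z = c x) ∧ H x y z) *
        ind ((c y = c x ∧ c z' = c x) ∧ H x y z') * (ind (c w = c x + 2) *
        ind (c w' = c x + 2)) ≤ ind (Bd6 H x y z z' w w') + ind (z = z') + ind (w = w') +
      ind (c w = c x + 2 ∧ H x y w) + ind (c w' = c x + 2 ∧ H x y w') +
      ind (Er6 c H x y z z' w w') := by
    intro z z' w w'
    rw [← mul_assoc]
    have a0 := ind_nonneg (Bd6 H x y z z' w w')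
    have a1 := ind_nonneg (w = w')
    have a1' := ind_nonneg (z = z')
    have a9 := ind_nonneg (c w = c x + 2 ∧ H x y w)
    have a10 := ind_nonneg (c w' = c x + 2 ∧ H x y w')
    have a11 := ind_nonneg (Er6 c H x y z z' w w')
    refine prod4 (by linarith) fun hz hz' hw hw' => ?_
    by_cases g1 : w = w'
    · rw [ind_t g1]; linarith
    by_cases g2 : z = z'
    · rw [ind_t g2]; linarith
    by_cases g3 : Er6 c H x y z z' w w'
    · rw [ind_t g3]; linarith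
    by_cases g9 : H x y w
    · rw [ind_t (show c w = c x + 2 ∧ H x y w from ⟨hw, g9⟩)]; linarith
    by_cases g10 : H x y w'
    · rw [ind_t (show c w' = c x + 2 ∧ H x y w' from ⟨hw', g10⟩)]; linarith
    unfold Er6 at g3
    simp only [not_or] at g3
    obtain ⟨q1, q2, q3, q4, q5, q6, q7, q8, q9, q10, q11, q12, q13, q14, q15, q16⟩ := g3
    rw [ind_t (six_edges2 S hxy hcy hz hz' hw hw' g2 g1 q1 q2 q3 q4 q5 q6 q7 q8 q9 q10 q11 q12
      q13 q14 q15 q16 g9 g10)]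
    linarith
  refine (sum_le_sum fun z _ => sum_le_sum fun z' _ => sum_le_sum fun w _ =>
    sum_le_sum fun w' _ => (h1 z z' w w').trans (add_le_add_right
      (Er6_le (c := c) (H := H) x y z z' w w') _)).trans ?_
  simp only [sum_add_distrib]
  have hwx := A.hw x
  have hwy := A.hw y
  have hM := Mp_le A hσ0 x y hcy
  have hn0 := small_n A
  have f0 : ∑ x : V, ∑ x' : V, ind (x = x') = n := by
    simp only [sum_ind_eq', A.hn]
  rw [s12 A.hn (F := fun z z' => ind (z = z')), s34 A.hn (F := fun z z' => ind (z = z')), f0]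
  rw [s34 A.hn (F := fun w w' => ind (Df c H x w w')), s34 A.hn (F := fun w w' => ind (Df c H y w w')),
    t134 A.hn (G := fun z w w' => ind (Df c H z w w')),
    t234 A.hn (G := fun z w w' => ind (Df c H z w w')),
    s13 A.hn (F := fun z w => ind (Df c H x z w)), s13 A.hn (F := fun z w => ind (Df c H y z w)),
    s14 A.hn (F := fun z w => ind (Df c H x z w)), s14 A.hn (F := fun z w => ind (Df c H y z w)),
    s23 A.hn (F := fun z w => ind (Df c H x z w)), s23 A.hn (F := fun z w => ind (Df c H y z w)),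
    s24 A.hn (F := fun z w => ind (Df c H x z w)), s24 A.hn (F := fun z w => ind (Df c H y z w)),
    s12 A.hn (F := fun z w => ind (Df c H x z w)), s12 A.hn (F := fun z w => ind (Df c H y z w)),
    t123 A.hn (G := fun z z' w => ind (Df c H z z' w)),
    t124 A.hn (G := fun z z' w => ind (Df c H z z' w))]
  have e9 : ∑ _z : V, ∑ _z' : V, ∑ w, ∑ _w' : V, ind (c w = c x + 2 ∧ H x y w) =
      n ^ 3 * Mp c H x y := by
    simp only [csum A.hn, ← mul_sum]; unfold Mp; ring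
  have e10 : ∑ _z : V, ∑ _z' : V, ∑ _w : V, ∑ w', ind (c w' = c x + 2 ∧ H x y w') =
      n ^ 3 * Mp c H x y := by
    simp only [csum A.hn]; unfold Mp; ring
  rw [e9, e10]
  have g1 : ∑ a, ∑ b, ind (Df c H x a b) ≤ σ ^ 2 * n ^ 2 := hwx
  have g2 : ∑ a, ∑ b, ind (Df c H y a b) ≤ σ ^ 2 * n ^ 2 := hwy
  have g3 : ∑ a, ∑ b, ∑ d, ind (Df c H a b d) ≤ n * (σ ^ 2 * n ^ 2) := by
    have : ∑ z, ∑ w, ∑ w', ind (Df c H z w w') ≤ ∑ _z : V, σ ^ 2 * n ^ 2 :=
      sum_le_sum fun z _ => A.hw z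
    rwa [csum A.hn] at this
  have m1 : n ^ 2 * ∑ a, ∑ b, ind (Df c H x a b) ≤ n ^ 2 * (σ ^ 2 * n ^ 2) :=
    mul_le_mul_of_nonneg_left g1 (by positivity)
  have m2 : n ^ 2 * ∑ a, ∑ b, ind (Df c H y a b) ≤ n ^ 2 * (σ ^ 2 * n ^ 2) :=
    mul_le_mul_of_nonneg_left g2 (by positivity)
  have m3 : n * ∑ a, ∑ b, ∑ d, ind (Df c H a b d) ≤ n * (n * (σ ^ 2 * n ^ 2)) :=
    mul_le_mul_of_nonneg_left g3 hp.le
  have m4 : n ^ 3 * Mp c H x y ≤ n ^ 3 * (2 * σ * n) :=
    mul_le_mul_of_nonneg_left hM (by positivity)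
  have m5 : n ^ 2 * n ≤ n ^ 2 * (σ ^ 2 * n ^ 2) := mul_le_mul_of_nonneg_left hn0 (by positivity)
  have r1 : n ^ 2 * (σ ^ 2 * n ^ 2) = σ ^ 2 * n ^ 4 := by ring
  have r2 : n * (n * (σ ^ 2 * n ^ 2)) = σ ^ 2 * n ^ 4 := by ring
  have r3 : n ^ 3 * (2 * σ * n) = 2 * (σ * n ^ 4) := by ring
  have r4 : (18 * σ ^ 2 + 4 * σ) * n ^ 4 = 18 * (σ ^ 2 * n ^ 4) + 4 * (σ * n ^ 4) := by ring
  rw [r1] at m1 m2 m5
  rw [r2] at m3
  rw [r3] at m4
  rw [r4]
  linarith

/-- errors in the next lemma -/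
def Ec (c : V → Fin 3) (H : V → V → V → Prop) (x y w w' : V) : Prop :=
  w = w' ∨ Df c H x w w' ∨ Df c H y w w'

theorem six_edges3 (S : Sys c H) {x y w1 w2 w3 w4 : V} (hcy : c y = c x + 1)
    (h1 : c w1 = c x + 2 ∧ ¬ H x y w1) (h2 : c w2 = c x + 2 ∧ ¬ H x y w2)
    (h3 : c w3 = c x + 2 ∧ ¬ H x y w3) (h4 : c w4 = c x + 2 ∧ ¬ H x y w4)
    (u12 : ¬ Ec c H x y w1 w2) (u13 : ¬ Ec c H x y w1 w3) (u14 : ¬ Ec c H x y w1 w4)
    (u23 : ¬ Ec c H x y w2 w3) (u24 : ¬ Ec c H x y w2 w4) (u34 : ¬ Ec c H x y w3 w4)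
    (w123 : ¬ Df c H w1 w2 w3) (w124 : ¬ Df c H w1 w2 w4)
    (w134 : ¬ Df c H w1 w3 w4) (w234 : ¬ Df c H w2 w3 w4) : Bd6 H x y w1 w2 w3 w4 := by
  have pair : ∀ w w', c w = c x + 2 → c w' = c x + 2 → ¬ Ec c H x y w w' →
      w ≠ w' ∧ H x w w' ∧ ¬ H y w w' := by
    intro w w' hw hw' hu
    unfold Ec at hu
    simp only [not_or] at hu
    obtain ⟨e1, e2, e3⟩ := hu
    refine ⟨e1, not_df_pos e2 (tu_pre hw hw' e1), not_df_neg e3 (tu_not ?_ ?_)⟩
    · rw [hw, hcy]; exact (fin3_11 (c x)).symm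
    · rw [hw', hcy]; exact (fin3_11 (c x)).symm
  obtain ⟨n12, l12, g12⟩ := pair w1 w2 h1.1 h2.1 u12
  obtain ⟨n13, l13, g13⟩ := pair w1 w3 h1.1 h3.1 u13
  obtain ⟨n14, l14, g14⟩ := pair w1 w4 h1.1 h4.1 u14
  obtain ⟨n23, l23, g23⟩ := pair w2 w3 h2.1 h3.1 u23
  obtain ⟨n24, l24, g24⟩ := pair w2 w4 h2.1 h4.1 u24
  obtain ⟨n34, l34, g34⟩ := pair w3 w4 h3.1 h4.1 u34
  have m123 := not_df_neg w123 (tu_mono (by rw [h1.1, h2.1]) (by rw [h1.1, h3.1]))
  have m124 := not_df_neg w124 (tu_mono (by rw [h1.1, h2.1]) (by rw [h1.1, h4.1]))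
  have m134 := not_df_neg w134 (tu_mono (by rw [h1.1, h3.1]) (by rw [h1.1, h4.1]))
  have m234 := not_df_neg w234 (tu_mono (by rw [h2.1, h3.1]) (by rw [h2.1, h4.1]))
  have hxy : x ≠ y := fun e => fin3_ne1 (c x) (by rw [← hcy, e])
  have hx : ∀ w, c w = c x + 2 → x ≠ w := fun w hw e => fin3_ne2 (c x) (by rw [← hw, e])
  have hy : ∀ w, c w = c x + 2 → y ≠ w := fun w hw e => by
    rw [← e, hcy] at hw
    exact fin3_ne12 (c x) hw
  refine ⟨?_, ?_⟩
  · simp only [List.nodup_cons, List.mem_cons, List.not_mem_nil, or_false, not_or,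
      not_false_eq_true, List.nodup_nil, and_true]
    exact ⟨⟨hxy, hx _ h1.1, hx _ h2.1, hx _ h3.1, hx _ h4.1⟩,
      ⟨hy _ h1.1, hy _ h2.1, hy _ h3.1, hy _ h4.1⟩, ⟨n12, n13, n14⟩, ⟨n23, n24⟩, n34⟩
  · unfold c6
    rw [cn_f h1.2, cn_f h2.2, cn_f h3.2, cn_f h4.2, cn_t l12, cn_t l13, cn_t l14, cn_t l23,
      cn_t l24, cn_t l34, cn_f g12, cn_f g13, cn_f g14, cn_f g23, cn_f g24, cn_f g34, cn_f m123,
      cn_f m124, cn_f m134, cn_f m234]

/-- few sets with six edges: few missing transversals at every pair -/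
theorem cross66 (A : Vx c H n σ) (x y : V) (hcy : c y = c x + 1) :
    nu c H x y ^ 4 ≤
      ∑ a, ∑ b, ∑ d, ∑ e, ind (Bd6 H x y a b d e) + 22 * σ ^ 2 * n ^ 4 := by
  have hp := A.pos
  have S := A.S
  unfold nu
  rw [pow4]
  have h1 : ∀ a b d e, ind (c a = c x + 2 ∧ ¬ H x y a) * ind (c b = c x + 2 ∧ ¬ H x y b) *
      ind (c d = c x + 2 ∧ ¬ H x y d) * ind (c e = c x + 2 ∧ ¬ H x y e) ≤
      ind (Bd6 H x y a b d e) + ind (Ec c H x y a b) + ind (Ec c H x y a d) +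
      ind (Ec c H x y a e) + ind (Ec c H x y b d) + ind (Ec c H x y b e) + ind (Ec c H x y d e) +
      ind (Df c H a b d) + ind (Df c H a b e) + ind (Df c H a d e) + ind (Df c H b d e) := by
    intro a b d e
    have a0 := ind_nonneg (Bd6 H x y a b d e)
    have a1 := ind_nonneg (Ec c H x y a b)
    have a2 := ind_nonneg (Ec c H x y a d)
    have a3 := ind_nonneg (Ec c H x y a e)
    have a4 := ind_nonneg (Ec c H x y b d)
    have a5 := ind_nonneg (Ec c H x y b e)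
    have a6 := ind_nonneg (Ec c H x y d e)
    have a7 := ind_nonneg (Df c H a b d)
    have a8 := ind_nonneg (Df c H a b e)
    have a9 := ind_nonneg (Df c H a d e)
    have a10 := ind_nonneg (Df c H b d e)
    refine prod4 (by linarith) fun q1 q2 q3 q4 => ?_
    by_cases g1 : Ec c H x y a b
    · rw [ind_t g1]; linarith
    by_cases g2 : Ec c H x y a d
    · rw [ind_t g2]; linarith
    by_cases g3 : Ec c H x y a e
    · rw [ind_t g3]; linarith
    by_cases g4 : Ec c H x y b d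
    · rw [ind_t g4]; linarith
    by_cases g5 : Ec c H x y b e
    · rw [ind_t g5]; linarith
    by_cases g6 : Ec c H x y d e
    · rw [ind_t g6]; linarith
    by_cases g7 : Df c H a b d
    · rw [ind_t g7]; linarith
    by_cases g8 : Df c H a b e
    · rw [ind_t g8]; linarith
    by_cases g9 : Df c H a d e
    · rw [ind_t g9]; linarith
    by_cases g10 : Df c H b d e
    · rw [ind_t g10]; linarith
    rw [ind_t (six_edges3 S hcy q1 q2 q3 q4 g1 g2 g3 g4 g5 g6 g7 g8 g9 g10)]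
    linarith
  refine (sum_le_sum fun a _ => sum_le_sum fun b _ => sum_le_sum fun d _ =>
    sum_le_sum fun e _ => h1 a b d e).trans ?_
  simp only [sum_add_distrib]
  rw [s12 A.hn (F := fun a b => ind (Ec c H x y a b)), s13 A.hn (F := fun a b => ind (Ec c H x y a b)),
    s14 A.hn (F := fun a b => ind (Ec c H x y a b)), s23 A.hn (F := fun a b => ind (Ec c H x y a b)),
    s24 A.hn (F := fun a b => ind (Ec c H x y a b)), s34 A.hn (F := fun a b => ind (Ec c H x y a b)),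
    t123 A.hn (G := fun x y z => ind (Df c H x y z)), t124 A.hn (G := fun x y z => ind (Df c H x y z)),
    t134 A.hn (G := fun x y z => ind (Df c H x y z)), t234 A.hn (G := fun x y z => ind (Df c H x y z))]
  have hwx := A.hw x
  have hwy := A.hw y
  have hn0 := small_n A
  have g1 : ∑ a, ∑ b, ind (Ec c H x y a b) ≤ n + σ ^ 2 * n ^ 2 + σ ^ 2 * n ^ 2 := by
    have h2 : ∀ a b, ind (Ec c H x y a b) ≤ ind (a = b) + ind (Df c H x a b) +
        ind (Df c H y a b) := fun a b => ind_or3 fun h => h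
    refine (sum_le_sum fun a _ => sum_le_sum fun b _ => h2 a b).trans ?_
    simp only [sum_add_distrib, sum_ind_eq', A.hn]
    have k1 : ∑ a, ∑ b, ind (Df c H x a b) ≤ σ ^ 2 * n ^ 2 := hwx
    have k2 : ∑ a, ∑ b, ind (Df c H y a b) ≤ σ ^ 2 * n ^ 2 := hwy
    linarith
  have g3 : ∑ a, ∑ b, ∑ d, ind (Df c H a b d) ≤ n * (σ ^ 2 * n ^ 2) := by
    have : ∑ z, ∑ w, ∑ w', ind (Df c H z w w') ≤ ∑ _z : V, σ ^ 2 * n ^ 2 :=
      sum_le_sum fun z _ => A.hw z
    rwa [csum A.hn] at this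
  have m1 : n ^ 2 * ∑ a, ∑ b, ind (Ec c H x y a b) ≤ n ^ 2 * (3 * (σ ^ 2 * n ^ 2)) :=
    mul_le_mul_of_nonneg_left (by linarith) (by positivity)
  have m3 : n * ∑ a, ∑ b, ∑ d, ind (Df c H a b d) ≤ n * (n * (σ ^ 2 * n ^ 2)) :=
    mul_le_mul_of_nonneg_left g3 hp.le
  have r1 : n ^ 2 * (3 * (σ ^ 2 * n ^ 2)) = 3 * (σ ^ 2 * n ^ 4) := by ring
  have r2 : n * (n * (σ ^ 2 * n ^ 2)) = σ ^ 2 * n ^ 4 := by ring
  have r4 : 22 * σ ^ 2 * n ^ 4 = 22 * (σ ^ 2 * n ^ 4) := by ring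
  rw [r1] at m1
  rw [r2] at m3
  rw [r4]
  linarith

end Pool.Agent.Y903.TX
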