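import Pool.Agent.Y903.TX.LinkC

/-! The vertices are put into the classes according to their links. -/

set_option autoImplicit false
set_option linter.unusedVariables false
set_option linter.unusedSectionVars false

open Finset
open scoped Classical

namespace Pool.Agent.Y903.TX
open Pool.Agent.Y439.Loc hiding sum_nonneg'

variable {V : Type} [Fintype V] {c c' : V → Fin 3} {H : V → V → V → Prop} {n ε η : ℝ}

theorem tl_diff : ∀ i j : Fin 3, i ≠ j → ∃ p q : Fin 3, p ≠ q ∧ tl i p q ≠ tl j p q := by decide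

theorem tu_tl {v y z : V} (h1 : v ≠ y) (h2 : y ≠ z) (h3 : v ≠ z) :
    Tu c v y z ↔ tl (c v) (c y) (c z) = true := by
  unfold Tu FD
  constructor
  · rintro ⟨-, -, -, h⟩; exact h
  · intro h; exact ⟨h1, h2, h3, h⟩

/-- a vertex whose class is changed -/
theorem changed (A : Near c H n ε) (hε : ε ≤ 1 / 100) (h1n : 1 ≤ ε * n) (hη : η ≤ 1 / 100)
    (v : V) (k : Fin 3) (hk : k ≠ c v) (hw : wr (Function.update c v k) H v ≤ η * n ^ 2) :
    n ^ 2 / 20 ≤ wr c H v := by
  obtain ⟨p, q, hpq, hd⟩ := tl_diff (c v) k hk.symm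
  have hp := A.pos
  set d := Function.update c v k with hdd
  have hv : d v = k := by rw [hdd, Function.update_self]
  have hne : ∀ y, y ≠ v → d y = c y := fun y hy => by rw [hdd, Function.update_of_ne hy]
  have h1 : ∀ y z, ind (c y = p) * ind (c z = q) ≤
      ind (¬ (H v y z ↔ Tu c v y z)) + ind (¬ (H v y z ↔ Tu d v y z)) + ind (y = v) +
        ind (z = v) := by
    intro y z
    rw [ind_mul]
    have a1 := ind_nonneg (¬ (H v y z ↔ Tu c v y z))
    have a2 := ind_nonneg (¬ (H v y z ↔ Tu d v y z))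
    have a3 := ind_nonneg (y = v)
    have a4 := ind_nonneg (z = v)
    by_cases h : c y = p ∧ c z = q
    · by_cases g1 : y = v
      · rw [ind_t h, ind_t g1]; linarith
      by_cases g2 : z = v
      · rw [ind_t h, ind_t g2]; linarith
      have g3 : y ≠ z := fun e => hpq (by rw [← h.1, ← h.2, e])
      have e1 := tu_tl (c := c) (fun e => g1 e.symm) g3 (fun e => g2 e.symm)
      have e2 := tu_tl (c := d) (fun e => g1 e.symm) g3 (fun e => g2 e.symm)
      rw [h.1, h.2] at e1
      rw [hv, hne y g1, hne z g2, h.1, h.2] at e2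
      by_cases g4 : H v y z ↔ Tu c v y z
      · have g5 : ¬ (H v y z ↔ Tu d v y z) := by
          intro g5
          apply hd
          have : (tl (c v) p q = true) ↔ (tl k p q = true) :=
            e1.symm.trans (g4.symm.trans (g5.trans e2))
          exact Bool.eq_iff_iff.2 this
        rw [ind_t h, ind_t g5]; linarith
      · rw [ind_t h, ind_t g4]; linarith
    · rw [ind_f h]; linarith
  have h2 : sz c p * sz c q ≤ wr c H v + wr d H v + n + n := by
    have e0 : sz c p * sz c q = ∑ y, ∑ z, ind (c y = p) * ind (c z = q) := by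
      unfold sz; rw [sum_mul_sum]
    rw [e0]
    refine (sum_le_sum fun y _ => sum_le_sum fun z _ => h1 y z).trans (le_of_eq ?_)
    simp only [sum_add_distrib]
    have e1 : ∑ y : V, ∑ _z : V, ind (y = v) = n := by
      simp only [csum A.hn, ← mul_sum]
      rw [sum_ind_eq v, mul_one]
    have e2 : ∑ _y : V, ∑ z : V, ind (z = v) = n := by
      simp only [sum_ind_eq v, A.hn]
    rw [e1, e2]
    rfl
  have l1 := A.lo p
  have l2 := A.lo q
  have l3 : (1 / 3 - ε) * n * ((1 / 3 - ε) * n) ≤ sz c p * sz c q :=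
    mul_le_mul l1 l2 (mul_nonneg (by linarith) hp.le) (sz_nonneg _)
  have l4 : (1 / 3 - ε) * n * ((1 / 3 - ε) * n) ≥ 1 / 10 * n ^ 2 := by
    have : (1 / 3 - ε) * (1 / 3 - ε) ≥ 1 / 10 := by nlinarith
    have e : (1 / 3 - ε) * n * ((1 / 3 - ε) * n) = (1 / 3 - ε) * (1 / 3 - ε) * n ^ 2 := by ring
    rw [e]
    exact mul_le_mul_of_nonneg_right this (by positivity)
  have l5 : n ≤ 1 / 100 * n ^ 2 := by
    have : 1 ≤ 1 / 100 * n := h1n.trans (mul_le_mul_of_nonneg_right hε hp.le)
    nlinarith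
  have l6 : η * n ^ 2 ≤ 1 / 100 * n ^ 2 := mul_le_mul_of_nonneg_right hη (by positivity)
  linarith

/-- number of vertices with changed class -/
noncomputable def chg (c c' : V → Fin 3) : ℝ := ∑ v, ind (c' v ≠ c v)

theorem chg_nonneg : 0 ≤ chg c c' := sum_nonneg' fun _ => ind_nonneg _

theorem chg_le (A : Near c H n ε) (hε : ε ≤ 1 / 100) (h1n : 1 ≤ ε * n) (hη : η ≤ 1 / 100)
    (hw : ∀ v, wr (Function.update c v (c' v)) H v ≤ η * n ^ 2) : chg c c' ≤ 20 * ε * n := by
  have hp := A.pos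
  have h1 : chg c c' * (n ^ 2 / 20) ≤ WD c H := by
    rw [WD_wr]
    unfold chg
    rw [sum_mul]
    refine sum_le_sum fun v _ => ?_
    by_cases h : c' v ≠ c v
    · rw [ind_t h, one_mul]
      exact changed A hε h1n hη v (c' v) h (hw v)
    · rw [ind_f h, zero_mul]
      exact sum_nonneg' fun _ => sum_nonneg' fun _ => ind_nonneg _
  have h2 := h1.trans A.hD
  have hn2 : (0 : ℝ) < n ^ 2 / 20 := by positivity
  refine le_of_mul_le_mul_right ?_ hn2
  calc chg c c' * (n ^ 2 / 20) ≤ ε * n ^ 3 := h2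
    _ = 20 * ε * n * (n ^ 2 / 20) := by ring

theorem tu_congr {x y z : V} (hx : c' x = c x) (hy : c' y = c y) (hz : c' z = c z) :
    Tu c' x y z ↔ Tu c x y z := by
  unfold Tu FD
  rw [hx, hy, hz]

/-- the distance of the links for the new classes -/
theorem wr_new (hn : ∑ _x : V, (1 : ℝ) = n) (v : V) :
    wr c' H v ≤ wr (Function.update c v (c' v)) H v + 2 * (n * chg c c') := by
  have h1 : ∀ y z, ind (¬ (H v y z ↔ Tu c' v y z)) ≤
      ind (¬ (H v y z ↔ Tu (Function.update c v (c' v)) v y z)) + ind (c' y ≠ c y) +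
        ind (c' z ≠ c z) := by
    intro y z
    refine ind_or3 fun h => ?_
    by_contra hcon
    push Not at hcon
    obtain ⟨h2, h3, h4⟩ := hcon
    apply h
    rw [h2]
    refine (tu_congr ?_ ?_ ?_).symm
    · rw [Function.update_self]
    · by_cases hy : y = v
      · rw [hy, Function.update_self]
      · rw [Function.update_of_ne hy, h3]
    · by_cases hz : z = v
      · rw [hz, Function.update_self]
      · rw [Function.update_of_ne hz, h4]
  refine (sum_le_sum fun y _ => sum_le_sum fun z _ => h1 y z).trans (le_of_eq ?_)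
  simp only [sum_add_distrib]
  have e1 : ∑ y : V, ∑ _z : V, ind (c' y ≠ c y) = n * chg c c' := by
    simp only [csum hn, ← mul_sum]; rfl
  have e2 : ∑ _y : V, ∑ z : V, ind (c' z ≠ c z) = n * chg c c' := by
    simp only [csum hn]; rfl
  rw [e1, e2]
  unfold wr
  ring

theorem sz_new (k : Fin 3) : sz c k - chg c c' ≤ sz c' k := by
  have : sz c k ≤ sz c' k + chg c c' := by
    unfold sz chg
    rw [← sum_add_distrib]
    refine sum_le_sum fun x _ => ind_or fun h => ?_
    by_cases h2 : c' x = c x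
    · left; rw [h2, h]
    · right; exact h2
  linarith

/-- 3-graphs in which all links are near those of Turán's construction -/
structure Vx (c : V → Fin 3) (H : V → V → V → Prop) (n σ : ℝ) : Prop where
  S : Sys c H
  hn : ∑ _x : V, (1 : ℝ) = n
  pos : 0 < n
  hw : ∀ v, wr c H v ≤ σ ^ 2 * n ^ 2
  lo : ∀ k, (1 / 3 - σ) * n ≤ sz c k
  big : 1 ≤ σ ^ 2 * n

/-- The new classes. -/
theorem exists_vx {τ σ : ℝ} (A : Near c H n ε) (hε : ε ≤ 1 / 100) (h1n : 1 ≤ ε * n)
    (hσ0 : 0 < σ) (hσ1 : σ ≤ 1 / 10) (hτσ : 180 * τ + 40 * ε ≤ σ ^ 2) (hτ0 : 0 < τ)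
    (hl : ∀ v, ∃ k, wr (Function.update c v k) H v ≤ 180 * τ * n ^ 2) :
    ∃ c', Vx c' H n σ := by
  choose c' hc' using hl
  have he0 := A.e0
  have hp := A.pos
  have hσ2 : σ ^ 2 ≤ 1 / 100 := by nlinarith
  have hch : chg c c' ≤ 20 * ε * n :=
    chg_le A hε h1n (η := 180 * τ) (by linarith) hc'
  refine ⟨c', ⟨⟨A.S.s1, A.S.s2, A.S.ne, A.S.k4⟩, A.hn, hp, fun v => ?_, fun k => ?_, ?_⟩⟩
  · have h1 := wr_new (c := c) (c' := c') (H := H) A.hn v
    have h2 := hc' v
    have h3 : n * chg c c' ≤ n * (20 * ε * n) := mul_le_mul_of_nonneg_left hch hp.le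
    have h4 : (180 * τ + 40 * ε) * n ^ 2 ≤ σ ^ 2 * n ^ 2 :=
      mul_le_mul_of_nonneg_right hτσ (by positivity)
    nlinarith
  · have h1 := sz_new (c := c) (c' := c') k
    have h2 := A.lo k
    have h3 : 21 * ε ≤ σ := by
      have : σ ^ 2 ≤ 1 / 10 * σ := by nlinarith
      linarith
    have h4 : 21 * ε * n ≤ σ * n := mul_le_mul_of_nonneg_right h3 hp.le
    nlinarith
  · have : ε ≤ σ ^ 2 := by linarith
    exact h1n.trans (mul_le_mul_of_nonneg_right this hp.le)

end Pool.Agent.Y903.TX
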