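import Pool.Agent.Y903.TX.Core

/-! Sizes of the classes. -/

set_option autoImplicit false
set_option linter.unusedVariables false
set_option linter.unusedSectionVars false

open Finset
open scoped Classical

namespace Pool.Agent.Y903.TX
open Pool.Agent.Y439.Loc hiding sum_nonneg'

theorem cub_min {u v d : ℝ} (hu : 0 ≤ u) (hv : 0 ≤ v) (hd : 0 ≤ d) :
    0 ≤ (d + u) ^ 3 + (d + v) ^ 3 + d ^ 3 -
      4 * ((d + u) ^ 2 * (d + v) + (d + v) ^ 2 * d + d ^ 2 * (d + u)) +
      5 * ((d + u) * (d + v) ^ 2 + (d + v) * d ^ 2 + d * (d + u) ^ 2) -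
      6 * ((d + u) * (d + v) * d) := by
  have e : (d + u) ^ 3 + (d + v) ^ 3 + d ^ 3 -
      4 * ((d + u) ^ 2 * (d + v) + (d + v) ^ 2 * d + d ^ 2 * (d + u)) +
      5 * ((d + u) * (d + v) ^ 2 + (d + v) * d ^ 2 + d * (d + u) ^ 2) -
      6 * ((d + u) * (d + v) * d) =
      4 * (d * (u ^ 2 - u * v + v ^ 2)) + (u * (u - 2 * v) ^ 2 + u * v ^ 2 + v ^ 3) := by ring
  rw [e]
  have h1 : 0 ≤ u ^ 2 - u * v + v ^ 2 := by nlinarith [sq_nonneg (u - v)]
  positivity

theorem cub {a b d : ℝ} (ha : 0 ≤ a) (hb : 0 ≤ b) (hd : 0 ≤ d) :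
    0 ≤ a ^ 3 + b ^ 3 + d ^ 3 - 4 * (a ^ 2 * b + b ^ 2 * d + d ^ 2 * a) +
      5 * (a * b ^ 2 + b * d ^ 2 + d * a ^ 2) - 6 * (a * b * d) := by
  rcases le_total a b with h1 | h1
  · rcases le_total a d with h2 | h2
    · have h := cub_min (u := b - a) (v := d - a) (d := a) (by linarith) (by linarith) ha
      have e1 : a + (b - a) = b := by ring
      have e2 : a + (d - a) = d := by ring
      rw [e1, e2] at h
      linarith
    · have h := cub_min (u := a - d) (v := b - d) (d := d) (by linarith) (by linarith) hd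
      have e1 : d + (a - d) = a := by ring
      have e2 : d + (b - d) = b := by ring
      rw [e1, e2] at h
      linarith
  · rcases le_total b d with h2 | h2
    · have h := cub_min (u := d - b) (v := a - b) (d := b) (by linarith) (by linarith) hb
      have e1 : b + (d - b) = d := by ring
      have e2 : b + (a - b) = a := by ring
      rw [e1, e2] at h
      linarith
    · have h := cub_min (u := a - d) (v := b - d) (d := d) (by linarith) (by linarith) hd
      have e1 : d + (a - d) = a := by ring
      have e2 : d + (b - d) = b := by ring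
      rw [e1, e2] at h
      linarith

section
variable {V : Type} [Fintype V] {c : V → Fin 3} {H : V → V → V → Prop} {n : ℝ}

noncomputable def Wt (p q r : Fin 3) : ℝ :=
  if fdB p q r false false false false false false = true then 1 else 0

theorem sum_Wt : ∑ x, ∑ y, ∑ z, Wt (c x) (c y) (c z) = 6 * (sz c 0 * sz c 1 * sz c 2) +
    3 * (sz c 0 ^ 2 * sz c 1 + sz c 1 ^ 2 * sz c 2 + sz c 2 ^ 2 * sz c 0) := by
  have e1 : ∀ x y, ∑ z, Wt (c x) (c y) (c z) =
      sz c 0 * Wt (c x) (c y) 0 + sz c 1 * Wt (c x) (c y) 1 + sz c 2 * Wt (c x) (c y) 2 :=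
    fun x y => by_class (fun r => Wt (c x) (c y) r)
  have e2 : ∀ x, ∑ y, (sz c 0 * Wt (c x) (c y) 0 + sz c 1 * Wt (c x) (c y) 1 +
      sz c 2 * Wt (c x) (c y) 2) = sz c 0 * (sz c 0 * Wt (c x) 0 0 + sz c 1 * Wt (c x) 0 1 +
      sz c 2 * Wt (c x) 0 2) + sz c 1 * (sz c 0 * Wt (c x) 1 0 + sz c 1 * Wt (c x) 1 1 +
      sz c 2 * Wt (c x) 1 2) + sz c 2 * (sz c 0 * Wt (c x) 2 0 + sz c 1 * Wt (c x) 2 1 +
      sz c 2 * Wt (c x) 2 2) :=
    fun x => by_class (fun q => sz c 0 * Wt (c x) q 0 + sz c 1 * Wt (c x) q 1 +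
      sz c 2 * Wt (c x) q 2)
  rw [sum_congr rfl fun x _ => sum_congr rfl fun y _ => e1 x y, sum_congr rfl fun x _ => e2 x,
    by_class (fun p => sz c 0 * (sz c 0 * Wt p 0 0 + sz c 1 * Wt p 0 1 +
      sz c 2 * Wt p 0 2) + sz c 1 * (sz c 0 * Wt p 1 0 + sz c 1 * Wt p 1 1 +
      sz c 2 * Wt p 1 2) + sz c 2 * (sz c 0 * Wt p 2 0 + sz c 1 * Wt p 2 1 +
      sz c 2 * Wt p 2 2))]
  have w000 : Wt 0 0 0 = 0 := by unfold Wt; rw [show fdB 0 0 0 false false false false false false = false by decide]; simp
  have w001 : Wt 0 0 1 = 1 := by unfold Wt; rw [show fdB 0 0 1 false false false false false false = true by decide]; simp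
  have w002 : Wt 0 0 2 = 0 := by unfold Wt; rw [show fdB 0 0 2 false false false false false false = false by decide]; simp
  have w010 : Wt 0 1 0 = 1 := by unfold Wt; rw [show fdB 0 1 0 false false false false false false = true by decide]; simp
  have w011 : Wt 0 1 1 = 0 := by unfold Wt; rw [show fdB 0 1 1 false false false false false false = false by decide]; simp
  have w012 : Wt 0 1 2 = 1 := by unfold Wt; rw [show fdB 0 1 2 false false false false false false = true by decide]; simp
  have w020 : Wt 0 2 0 = 0 := by unfold Wt; rw [show fdB 0 2 0 false false false false false false = false by decide]; simp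
  have w021 : Wt 0 2 1 = 1 := by unfold Wt; rw [show fdB 0 2 1 false false false false false false = true by decide]; simp
  have w022 : Wt 0 2 2 = 1 := by unfold Wt; rw [show fdB 0 2 2 false false false false false false = true by decide]; simp
  have w100 : Wt 1 0 0 = 1 := by unfold Wt; rw [show fdB 1 0 0 false false false false false false = true by decide]; simp
  have w101 : Wt 1 0 1 = 0 := by unfold Wt; rw [show fdB 1 0 1 false false false false false false = false by decide]; simp
  have w102 : Wt 1 0 2 = 1 := by unfold Wt; rw [show fdB 1 0 2 false false false false false false = true by decide]; simp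
  have w110 : Wt 1 1 0 = 0 := by unfold Wt; rw [show fdB 1 1 0 false false false false false false = false by decide]; simp
  have w111 : Wt 1 1 1 = 0 := by unfold Wt; rw [show fdB 1 1 1 false false false false false false = false by decide]; simp
  have w112 : Wt 1 1 2 = 1 := by unfold Wt; rw [show fdB 1 1 2 false false false false false false = true by decide]; simp
  have w120 : Wt 1 2 0 = 1 := by unfold Wt; rw [show fdB 1 2 0 false false false false false false = true by decide]; simp
  have w121 : Wt 1 2 1 = 1 := by unfold Wt; rw [show fdB 1 2 1 false false false false false false = true by decide]; simp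
  have w122 : Wt 1 2 2 = 0 := by unfold Wt; rw [show fdB 1 2 2 false false false false false false = false by decide]; simp
  have w200 : Wt 2 0 0 = 0 := by unfold Wt; rw [show fdB 2 0 0 false false false false false false = false by decide]; simp
  have w201 : Wt 2 0 1 = 1 := by unfold Wt; rw [show fdB 2 0 1 false false false false false false = true by decide]; simp
  have w202 : Wt 2 0 2 = 1 := by unfold Wt; rw [show fdB 2 0 2 false false false false false false = true by decide]; simp
  have w210 : Wt 2 1 0 = 1 := by unfold Wt; rw [show fdB 2 1 0 false false false false false false = true by decide]; simp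
  have w211 : Wt 2 1 1 = 1 := by unfold Wt; rw [show fdB 2 1 1 false false false false false false = true by decide]; simp
  have w212 : Wt 2 1 2 = 0 := by unfold Wt; rw [show fdB 2 1 2 false false false false false false = false by decide]; simp
  have w220 : Wt 2 2 0 = 1 := by unfold Wt; rw [show fdB 2 2 0 false false false false false false = true by decide]; simp
  have w221 : Wt 2 2 1 = 0 := by unfold Wt; rw [show fdB 2 2 1 false false false false false false = false by decide]; simp
  have w222 : Wt 2 2 2 = 0 := by unfold Wt; rw [show fdB 2 2 2 false false false false false false = false by decide]; simp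
  rw [w000, w001, w002, w010, w011, w012, w020, w021, w022, w100, w101, w102, w110, w111, w112, w120, w121, w122, w200, w201, w202, w210, w211, w212, w220, w221, w222]
  ring

theorem tot_tu_le : tot (Tu c) ≤ 6 * (sz c 0 * sz c 1 * sz c 2) +
    3 * (sz c 0 ^ 2 * sz c 1 + sz c 1 ^ 2 * sz c 2 + sz c 2 ^ 2 * sz c 0) := by
  rw [← sum_Wt]
  unfold tot
  refine sum_le_sum fun x _ => sum_le_sum fun y _ => sum_le_sum fun z _ => ?_
  unfold Wt
  by_cases h : Tu c x y z
  · rw [ind_t h, if_pos h.2.2.2]
  · rw [ind_f h]; split_ifs <;> norm_num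

/-- the sizes are nearly equal -/
theorem sizes (hn : ∑ _x : V, (1 : ℝ) = n) (hn0 : 0 < n) {δ : ℝ} (hδ : 0 ≤ δ)
    (h : (5 / 9 - 12 * δ ^ 2) * n ^ 3 ≤ tot (Tu c)) (k : Fin 3) :
    (1 / 3 - 6 * δ) * n ≤ sz c k := by
  have h1 := h.trans (tot_tu_le (c := c))
  have hs : sz c 0 + sz c 1 + sz c 2 = n := by rw [← hn, cardV' (c := c)]
  have ha : 0 ≤ sz c 0 := sz_nonneg _
  have hb : 0 ≤ sz c 1 := sz_nonneg _
  have hd : 0 ≤ sz c 2 := sz_nonneg _
  have hc := cub ha hb hd
  have h2 : n * ((sz c 0 - n / 3) ^ 2 + (sz c 1 - n / 3) ^ 2 + (sz c 2 - n / 3) ^ 2) ≤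
      36 * δ ^ 2 * n ^ 3 := by
    rw [← hs] at h1 ⊢
    nlinarith
  have h3 : (sz c 0 - n / 3) ^ 2 + (sz c 1 - n / 3) ^ 2 + (sz c 2 - n / 3) ^ 2 ≤
      (6 * δ * n) ^ 2 := by
    refine le_of_mul_le_mul_left ?_ hn0
    calc _ ≤ 36 * δ ^ 2 * n ^ 3 := h2
      _ = n * (6 * δ * n) ^ 2 := by ring
  have h4 : (sz c k - n / 3) ^ 2 ≤ (6 * δ * n) ^ 2 := by
    have a0 := sq_nonneg (sz c 0 - n / 3)
    have a1 := sq_nonneg (sz c 1 - n / 3)
    have a2 := sq_nonneg (sz c 2 - n / 3)
    fin_cases k
    · show (sz c 0 - n / 3) ^ 2 ≤ _; linarith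
    · show (sz c 1 - n / 3) ^ 2 ≤ _; linarith
    · show (sz c 2 - n / 3) ^ 2 ≤ _; linarith
  have h5 := abs_le_of_sq_le_sq' h4 (by positivity)
  linarith [h5.1]

end

end Pool.Agent.Y903.TX
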